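import Pool.Agent.MP_e4cac8_mp.Cr.St

section
/-! The radial integral of the optimal profile. -/

set_option autoImplicit false
set_option linter.unusedSectionVars false

open Set MeasureTheory Filter Topology
open scoped ENNReal NNReal SchwartzMap
open Pool.Agent.MP_0b7119_mp.G

namespace Pool.Agent.MP_e4cac8_mp.Cr

theorem sI1 : SI1 := by
  intro k p hp
  have hk : (0 : ℝ) ≤ k := Nat.cast_nonneg k
  have hc : Continuous fun y : ℝ => (1 + y ^ 2) ^ (-p) * y ^ k :=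
    (Continuous.rpow_const (by fun_prop) fun y => Or.inl (by positivity)).mul (by fun_prop)
  have hi : IntegrableOn (fun y : ℝ => (1 + y ^ 2) ^ (-p) * y ^ k) (Ioi 0) volume := by
    rw [← Ioc_union_Ioi_eq_Ioi zero_le_one]
    refine IntegrableOn.union
      (hc.continuousOn.integrableOn_Icc.mono_set Ioc_subset_Icc_self) ?_
    have i : IntegrableOn (fun y : ℝ => y ^ ((k : ℝ) - 2 * p)) (Ioi 1) volume :=
      integrableOn_Ioi_rpow_of_lt (by linarith) one_pos
    refine i.mono' hc.aestronglyMeasurable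
      ((ae_restrict_mem measurableSet_Ioi).mono fun y hy => ?_)
    have hy0 : 0 < y := lt_trans one_pos hy
    rw [Real.norm_eq_abs, abs_of_nonneg (by positivity), sub_eq_neg_add, Real.rpow_add hy0,
      Real.rpow_natCast, ← mul_neg, Real.rpow_mul hy0.le, Real.rpow_two]
    exact mul_le_mul_of_nonneg_right
      (Real.rpow_le_rpow_of_nonpos (by positivity) (by linarith) (by linarith)) (by positivity)
  refine ⟨hi, ?_⟩
  have h : ∀ y : ℝ, 0 < y → 0 < (1 + y ^ 2) ^ (-p) * y ^ k := fun y hy => by positivity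
  unfold I1
  rw [setIntegral_pos_iff_support_of_nonneg_ae
    ((ae_restrict_mem measurableSet_Ioi).mono fun t ht => (h t ht).le) hi]
  have : Function.support (fun y : ℝ => (1 + y ^ 2) ^ (-p) * y ^ k) ∩ Ioi 0 = Ioi 0 :=
    inter_eq_right.2 fun t ht => (h t ht).ne'
  rw [this]
  simp

theorem scale_I1Rn {f g : ℝ → ℝ} {x c : ℝ} (hx : 0 < x) (hg : IntegrableOn g (Ioi 0) volume)
    (h : ∀ t, 0 < t → f (x * t) = c * g t) :
    IntegrableOn f (Ioi 0) volume ∧
      ∫ t in Ioi (0 : ℝ), f t = x * c * ∫ t in Ioi (0 : ℝ), g t := by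
  have e : EqOn (fun t => c * g t) (fun t => f (x * t)) (Ioi 0) := fun t ht => (h t ht).symm
  have i : IntegrableOn (fun t => f (x * t)) (Ioi 0) volume :=
    (show IntegrableOn (fun t => c * g t) (Ioi 0) volume from hg.const_mul c).congr_fun e
      measurableSet_Ioi
  have j := integral_comp_mul_left_Ioi f 0 hx
  rw [mul_zero, ← setIntegral_congr_fun measurableSet_Ioi e, integral_const_mul, smul_eq_mul] at j
  refine ⟨by simpa using (integrableOn_Ioi_comp_mul_left_iff f 0 hx).1 i, ?_⟩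
  rw [mul_assoc, j, ← mul_assoc, mul_inv_cancel₀ hx.ne', one_mul]

theorem sRn : SRn := by
  intro k p m μ hp hμ hm
  have hk : (0 : ℝ) ≤ k := Nat.cast_nonneg k
  have hp0 : 0 < p := by linarith
  have key := scale_I1Rn (f := fun r : ℝ => (p * μ / (μ ^ 2 + r ^ 2)) ^ p * r ^ k)
    (c := (p / μ) ^ p * μ ^ k) hμ (sI1 k p hp).1 fun t ht => by
      have e : p * μ / (μ ^ 2 + (μ * t) ^ 2) = p / μ * (1 + t ^ 2)⁻¹ := by
        field_simp
      show (p * μ / (μ ^ 2 + (μ * t) ^ 2)) ^ p * (μ * t) ^ k = _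
      rw [e, Real.mul_rpow (by positivity) (by positivity), Real.inv_rpow (by positivity),
        ← Real.rpow_neg (by positivity), mul_pow]
      ring
  refine ⟨key.1, key.2.trans ?_⟩
  unfold Cp I1
  congr 1
  have e : 2 * m / (p - (k + 1)) = μ⁻¹ := by
    rw [← hm]
    have : m ≠ 0 := fun h => by rw [h, mul_zero, zero_mul] at hm; linarith
    field_simp
  rw [e, Real.one_rpow, mul_one, Real.div_rpow hp0.le hμ.le, Real.inv_rpow hμ.le,
    Real.rpow_sub hμ, Real.rpow_add hμ, Real.rpow_natCast, Real.rpow_one]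
  have : 0 < μ ^ p := Real.rpow_pos_of_pos hμ p
  field_simp

end Pool.Agent.MP_e4cac8_mp.Cr

end

section
set_option autoImplicit false
set_option linter.unusedSectionVars false

open Set MeasureTheory Filter Topology
open scoped ENNReal NNReal SchwartzMap
open Pool.Agent.MP_0b7119_mp.G

namespace Pool.Agent.MP_e4cac8_mp.Cr

theorem sOs : SOs := by
  intro Ξ g L₀ L₁ hL hg hd h0 h1
  have key : ∀ a b : ℝ, 0 < a → a < b → Ξ b - Ξ a ≤ ∫ r in Ioc a b, g r := by
    intro a b ha hab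
    obtain ⟨K, hK⟩ := hL a b ha hab
    rw [← uIcc_of_le hab.le] at hK
    have ac := hK.absolutelyContinuousOnInterval
    rw [← ac.integral_deriv_eq_sub, ← intervalIntegral.integral_of_le hab.le]
    refine intervalIntegral.integral_mono_ae_restrict hab.le ac.intervalIntegrable_deriv
      ((intervalIntegrable_iff_integrableOn_Ioc_of_le hab.le).2
        (hg.mono_set fun x hx => ha.trans hx.1)) ?_
    filter_upwards [ae_restrict_of_ae hd, ae_restrict_mem measurableSet_Icc] with r h2 h3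
    exact h2 (ha.trans_le h3.1)
  have ta : Tendsto (fun t : ℝ => t⁻¹) atTop (𝓝[>] 0) := tendsto_inv_atTop_nhdsGT_zero
  have cov : AECover (volume.restrict (Ioi (0 : ℝ))) atTop fun t : ℝ => Ioc t⁻¹ t :=
    ⟨(ae_restrict_mem measurableSet_Ioi).mono fun x hx => by
      filter_upwards [(ta.mono_right nhdsWithin_le_nhds).eventually (gt_mem_nhds hx),
        eventually_ge_atTop x] with t k1 k2
      exact ⟨k1, k2⟩, fun _ => measurableSet_Ioc⟩
  refine le_of_tendsto_of_tendsto (h1.sub (h0.comp ta))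
    (cov.integral_tendsto_of_countably_generated hg) ?_
  filter_upwards [eventually_gt_atTop 1] with t ht
  have t0 : 0 < t⁻¹ := inv_pos.2 (by linarith)
  have sub : Ioc t⁻¹ t ⊆ Ioi 0 := fun x hx => t0.trans hx.1
  rw [Measure.restrict_restrict measurableSet_Ioc, inter_eq_left.2 sub]
  exact key _ _ t0 ((inv_lt_one_of_one_lt₀ ht).trans ht)

end Pool.Agent.MP_e4cac8_mp.Cr

end

section
/-! The monotone transport map between two radial measures. -/

set_option autoImplicit false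
set_option linter.unusedSectionVars false

open Set MeasureTheory Filter Topology
open scoped ENNReal NNReal SchwartzMap
open Pool.Agent.MP_0b7119_mp.G

namespace Pool.Agent.MP_e4cac8_mp.Cr

theorem inv_Tr {g : ℝ → ℝ} {Y c : ℝ} (hc : 0 < c) (hg : Continuous g)
    (hp : ∀ s, s ≠ 0 → 0 < g s) (he : ∀ s, Y ≤ |s| → g s = c) :
    ∃ G H : ℝ → ℝ, G 0 = 0 ∧ StrictMono G ∧ (∀ y, HasDerivAt G (g y) y) ∧ Continuous H ∧
      StrictMono H ∧ (∀ y, H (G y) = y) ∧ ∀ t, G (H t) = t := by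
  obtain ⟨G, hG⟩ : ∃ G : ℝ → ℝ, G = fun y => ∫ s in (0 : ℝ)..y, g s := ⟨_, rfl⟩
  have d : ∀ y, HasDerivAt G (g y) y := fun y => by
    rw [hG]; exact (hg.integral_hasStrictDerivAt 0 y).hasDerivAt
  have cG : Continuous G := continuous_iff_continuousAt.2 fun y => (d y).continuousAt
  have mG : StrictMono G := by
    refine StrictMonoOn.Iic_union_Ici (a := 0) ?_ ?_
    · refine strictMonoOn_of_deriv_pos (convex_Iic 0) cG.continuousOn fun x hx => ?_
      rw [interior_Iic] at hx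
      rw [(d x).deriv]
      exact hp x (ne_of_lt hx)
    · refine strictMonoOn_of_deriv_pos (convex_Ici 0) cG.continuousOn fun x hx => ?_
      rw [interior_Ici] at hx
      rw [(d x).deriv]
      exact hp x (ne_of_gt hx)
  have lin : ∀ a y, (∀ s ∈ uIcc a y, Y ≤ |s|) → G y = G a + (y - a) * c := fun a y h => by
    have e1 := intervalIntegral.integral_add_adjacent_intervals
      (hg.intervalIntegrable (μ := volume) 0 a) (hg.intervalIntegrable a y)
    have e2 : ∫ s in a..y, g s = ∫ _ in a..y, c :=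
      intervalIntegral.integral_congr fun s hs => he s (h s hs)
    rw [e2, intervalIntegral.integral_const, smul_eq_mul] at e1
    rw [hG]
    exact e1.symm
  have t1 : Tendsto G atTop atTop := by
    have : Tendsto (fun y => G Y + (y - Y) * c) atTop atTop :=
      tendsto_atTop_add_const_left _ _
        ((tendsto_atTop_add_const_right _ (-Y) tendsto_id).atTop_mul_const hc)
    refine this.congr' ((eventually_ge_atTop Y).mono fun y hy => (lin Y y fun s hs => ?_).symm)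
    rw [uIcc_of_le hy] at hs
    exact hs.1.trans (le_abs_self s)
  have t2 : Tendsto G atBot atBot := by
    have : Tendsto (fun y => G (-Y) + (y - -Y) * c) atBot atBot :=
      tendsto_atBot_add_const_left _ _
        ((tendsto_atBot_add_const_right _ (- -Y) tendsto_id).atBot_mul_const hc)
    refine this.congr' ((eventually_le_atBot (-Y)).mono fun y hy =>
      (lin (-Y) y fun s hs => ?_).symm)
    rw [uIcc_of_ge hy] at hs
    have := neg_le_abs s
    linarith [hs.2]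
  let e := mG.orderIsoOfSurjective G (cG.surjective t1 t2)
  refine ⟨G, e.symm, by simp [hG], mG, d, e.symm.continuous, e.symm.strictMono,
    fun y => e.symm_apply_apply y, fun t => e.apply_symm_apply t⟩

theorem sTr : STr := by
  intro k q Y w hY hw w0 ⟨r₀, hr₀, wp⟩ hi
  obtain ⟨g, hg⟩ : ∃ g : ℝ → ℝ,
      g = fun s => (1 + (min |s| Y) ^ 2) ^ (-q) * (min |s| Y) ^ k := ⟨_, rfl⟩
  have cu : Continuous fun s : ℝ => min |s| Y := continuous_abs.min continuous_const
  have cg : Continuous g := by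
    rw [hg]
    have c1 : Continuous fun s : ℝ => 1 + (min |s| Y) ^ 2 := continuous_const.add (cu.pow 2)
    exact (c1.rpow_const fun s => Or.inl (by positivity)).mul (cu.pow k)
  have gp : ∀ s, s ≠ 0 → 0 < g s := fun s hs => by
    have : 0 < min |s| Y := lt_min (abs_pos.2 hs) hY
    rw [hg]
    positivity
  obtain ⟨G, H, G0, mG, dG, cH, mH, HG, GH⟩ := inv_Tr (g := g)
    (Y := Y) (c := (1 + Y ^ 2) ^ (-q) * Y ^ k) (by positivity) cg gp fun s hs => by
      rw [hg]; simp only [min_eq_right hs]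
  have cf : Continuous fun r : ℝ => w r * r ^ k := hw.mul (continuous_pow k)
  obtain ⟨n, hn⟩ : ∃ n : ℝ → ℝ, n = fun r => ∫ t in (0 : ℝ)..r, w t * t ^ k := ⟨_, rfl⟩
  have dn : ∀ r, HasDerivAt n (w r * r ^ k) r := fun r => by
    rw [hn]; exact (cf.integral_hasStrictDerivAt 0 r).hasDerivAt
  have cn : Continuous n := continuous_iff_continuousAt.2 fun y => (dn y).continuousAt
  have n0 : n 0 = 0 := by simp [hn]
  have mn : ∀ a b, 0 ≤ a → a ≤ b → n a ≤ n b := fun a b ha hab => by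
    have e1 := intervalIntegral.integral_add_adjacent_intervals
      (cf.intervalIntegrable (μ := volume) 0 a) (cf.intervalIntegrable a b)
    have e2 : 0 ≤ ∫ t in a..b, w t * t ^ k :=
      intervalIntegral.integral_nonneg hab fun t ht =>
        mul_nonneg (w0 t) (pow_nonneg (ha.trans ht.1) k)
    rw [hn]
    linarith
  have np : ∀ r, 0 < r → 0 < n r := fun r hr => by
    have h1 : 0 < min r r₀ := lt_min hr hr₀
    refine lt_of_lt_of_le ?_ (mn (min r r₀) r h1.le (min_le_left _ _))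
    rw [hn]
    exact intervalIntegral.intervalIntegral_pos_of_pos_on (cf.intervalIntegrable _ _)
      (fun t ht => mul_pos (wp t ⟨ht.1, ht.2.le.trans (min_le_right _ _)⟩) (pow_pos ht.1 k)) h1
  obtain ⟨A, hA⟩ : ∃ A : ℝ, A = ∫ t in Ioi (0 : ℝ), w t * t ^ k := ⟨_, rfl⟩
  have tn : Tendsto n atTop (𝓝 A) := by
    rw [hn, hA]
    exact intervalIntegral_tendsto_integral_Ioi 0 hi tendsto_id
  have nA : ∀ r, 0 < r → n r ≤ A := fun r hr =>
    ge_of_tendsto tn ((eventually_ge_atTop r).mono fun b hb => mn r b hr.le hb)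
  have A0 : 0 < A := (np 1 one_pos).trans_le (nA 1 one_pos)
  have GY : 0 < G Y := G0 ▸ mG hY
  have L0 : 0 < A / G Y := div_pos A0 GY
  have eA : A / (A / G Y) = G Y := div_div_cancel₀ A0.ne'
  have H0 : H 0 = 0 := by have := HG 0; rwa [G0] at this
  have cψ : Continuous fun r => H (n r / (A / G Y)) := cH.comp (cn.div_const _)
  have ψ0 : ∀ r, 0 < r → 0 < H (n r / (A / G Y)) := fun r hr =>
    H0 ▸ mH (div_pos (np r hr) L0)
  have ψY : ∀ r, 0 < r → H (n r / (A / G Y)) ≤ Y := fun r hr => by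
    have := mH.monotone (div_le_div_of_nonneg_right (nA r hr) L0.le)
    rwa [eA, HG] at this
  refine ⟨A / G Y, fun r => H (n r / (A / G Y)),
    fun r => (g (H (n r / (A / G Y))))⁻¹ * (w r * r ^ k / (A / G Y)), L0,
    fun r hr => ⟨ψ0 r hr, ψY r hr, ?_, ?_⟩, ?_, ?_, ?_⟩
  · exact (HasDerivAt.of_local_left_inverse cH.continuousAt (dG _) (gp _ (ψ0 r hr).ne').ne'
      (Eventually.of_forall GH)).comp r ((dn r).div_const _)
  · have e : (1 + H (n r / (A / G Y)) ^ 2) ^ (-q) * H (n r / (A / G Y)) ^ k =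
        g (H (n r / (A / G Y))) := by
      rw [hg]
      simp only [abs_of_pos (ψ0 r hr), min_eq_left (ψY r hr)]
    have := (gp _ (ψ0 r hr).ne').ne'
    rw [e, ← mul_assoc (g _), mul_inv_cancel₀ this, one_mul, mul_div_cancel₀ _ L0.ne']
  · exact ((cg.comp cψ).continuousOn.inv₀ fun r hr => (gp _ (ψ0 r hr).ne').ne').mul
      (cf.div_const _).continuousOn
  · have := cψ.tendsto 0
    rw [n0, zero_div, H0] at this
    exact this.mono_left nhdsWithin_le_nhds
  · have := (cH.tendsto _).comp (tn.div_const (A / G Y))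
    rw [eA, HG] at this
    exact this

end Pool.Agent.MP_e4cac8_mp.Cr

end

section
set_option autoImplicit false
set_option linter.unusedSectionVars false

open Set MeasureTheory Filter Topology
open scoped ENNReal NNReal SchwartzMap
open Pool.Agent.MP_0b7119_mp.G

namespace Pool.Agent.MP_e4cac8_mp.Cr

theorem const_Pt1 {d p κ b C : ℝ} (hd : 0 < d) (hp : d < p) (hκ : 0 < κ) (hb : 0 < b) (hC : 0 < C)
    (h : C ^ p = Cp d p κ b) :
    C = (p * √κ) ^ (d / p) * (b * p / (p - d)) ^ (1 - d / p) := by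
  have p0 : 0 < p := hd.trans hp
  have q0 : 0 < p - d := sub_pos.2 hp
  have s0 : 0 < √κ := Real.sqrt_pos.2 hκ
  refine (Real.rpow_left_inj hC.le (by positivity) p0.ne').1 ?_
  rw [h, Cp, Real.mul_rpow (by positivity) (by positivity), ← Real.rpow_mul (by positivity),
    ← Real.rpow_mul (by positivity), div_mul_cancel₀ d p0.ne',
    show (1 - d / p) * p = p - d by field_simp, Real.mul_rpow p0.le s0.le,
    show b * p / (p - d) = p * (b / (p - d)) by ring, Real.mul_rpow p0.le (by positivity),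
    Real.sqrt_eq_rpow, ← Real.rpow_mul hκ.le, show 1 / 2 * d = d / 2 by ring]
  have : p ^ p = p ^ d * p ^ (p - d) := by rw [← Real.rpow_add p0]; congr 1; ring
  rw [this]; ring

theorem two_Pt1 {k : ℕ} {p κ b C x u : ℝ} (hp : (k + 1 : ℝ) < p) (hκ : 0 < κ) (hb : 0 < b)
    (hC : 0 < C) (h : C ^ p = Cp (k + 1) p κ b) (hx : 0 ≤ x) (hu : 0 < u) :
    C * (x * u ^ k) ^ (1 / p) ≤ √κ * (x + k * u) + b := by
  have hd : (0 : ℝ) < k + 1 := by positivity
  have p0 : 0 < p := hd.trans hp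
  have q0 : 0 < p - (k + 1) := sub_pos.2 hp
  have s0 : 0 < √κ := Real.sqrt_pos.2 hκ
  have hJ : 0 ≤ x * u ^ k := by positivity
  have h1 := Real.geom_mean_le_arith_mean2_weighted (w₁ := 1 / (k + 1 : ℝ)) (w₂ := k / (k + 1 : ℝ))
    (by positivity) (by positivity) hx hu.le (by field_simp; ring)
  have h2 : (x * u ^ k) ^ (1 / (k + 1 : ℝ)) = x ^ (1 / (k + 1 : ℝ)) * u ^ (k / (k + 1 : ℝ)) := by
    rw [Real.mul_rpow hx (by positivity), ← Real.rpow_natCast, ← Real.rpow_mul hu.le, mul_one_div]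
  rw [← h2] at h1
  have h3 := Real.geom_mean_le_arith_mean2_weighted (w₁ := (k + 1 : ℝ) / p)
    (w₂ := 1 - (k + 1 : ℝ) / p) (p₁ := p * √κ * (x * u ^ k) ^ (1 / (k + 1 : ℝ)))
    (p₂ := b * p / (p - (k + 1))) (by positivity) (sub_nonneg.2 ((div_le_one p0).2 hp.le))
    (by positivity) (by positivity) (by ring)
  rw [Real.mul_rpow (by positivity) (by positivity), ← Real.rpow_mul hJ,
    show 1 / (k + 1 : ℝ) * ((k + 1) / p) = 1 / p by field_simp, mul_right_comm,
    ← const_Pt1 hd hp hκ hb hC h] at h3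
  have h4 : (1 - (k + 1 : ℝ) / p) * (b * p / (p - (k + 1))) = b := by field_simp
  have h5 : (k + 1 : ℝ) / p * (p * √κ * (x * u ^ k) ^ (1 / (k + 1 : ℝ))) =
      √κ * ((k + 1) * (x * u ^ k) ^ (1 / (k + 1 : ℝ))) := by field_simp
  have h6 : (k + 1 : ℝ) * (x * u ^ k) ^ (1 / (k + 1 : ℝ)) ≤ x + k * u := by
    refine (mul_le_mul_of_nonneg_left h1 hd.le).trans (le_of_eq ?_)
    field_simp
  rw [h4, h5] at h3
  exact h3.trans (by gcongr)

theorem three_Pt1 {p C v Q : ℝ} (hp : 1 < p) (hC : 0 < C) (hv : 0 ≤ v) (hQ : 0 ≤ Q) :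
    v * Q ^ (1 - 1 / p) ≤ 1 / p * (C ^ (1 - p) * v ^ p) + (1 - 1 / p) * (C * Q) := by
  have p0 : 0 < p := by linarith
  have h1 := Real.geom_mean_le_arith_mean2_weighted (w₁ := 1 / p) (w₂ := 1 - 1 / p)
    (p₁ := C ^ (1 - p) * v ^ p) (p₂ := C * Q) (by positivity)
    (sub_nonneg.2 ((div_le_one p0).2 hp.le)) (by positivity) (by positivity) (by ring)
  refine le_trans (le_of_eq ?_) h1
  rw [Real.mul_rpow (by positivity) (by positivity), Real.mul_rpow hC.le hQ,
    ← Real.rpow_mul hC.le, ← Real.rpow_mul hv, mul_one_div_cancel p0.ne', Real.rpow_one]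
  have : C ^ ((1 - p) * (1 / p)) * C ^ (1 - 1 / p) = 1 := by
    rw [← Real.rpow_add hC, show (1 - p) * (1 / p) + (1 - 1 / p) = 0 by field_simp; ring,
      Real.rpow_zero]
  linear_combination (-(v * Q ^ (1 - 1 / p))) * this

theorem sPt1 : SPt1 := by
  intro k p κ b C lam r ψ ψ' F F' v h hp hκ hb hC hCp hl hr hψ hF hv hh h1 h2
  have p1 : 1 < p := lt_of_le_of_lt (by simp) hp
  have p0 : 0 < p := by linarith
  have q0 : 0 < p - 1 := by linarith
  obtain ⟨u, hu, rfl⟩ : ∃ u, 0 < u ∧ ψ = u * r := ⟨ψ / r, by positivity, by field_simp⟩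
  obtain ⟨T, hT⟩ : ∃ T, T = 1 + (u * r) ^ 2 := ⟨_, rfl⟩
  have T0 : 0 < T := by rw [hT]; positivity
  rw [← hT] at h2 ⊢
  have hR : 0 < r ^ k := by positivity
  have hA : 0 < T ^ (-p) := by positivity
  have h3 : (F ^ 2) ^ (p / (p - 1)) = (lam * T ^ (-p)) ^ (p / (p - 1)) * (ψ' * u ^ k) := by
    refine mul_right_cancel₀ hR.ne' ?_
    rw [h2, Real.mul_rpow hl.le hA.le, ← Real.rpow_mul T0.le, neg_mul, mul_pow]
    ring
  have hJ : 0 ≤ ψ' * u ^ k := by
    have h4 : 0 ≤ (F ^ 2) ^ (p / (p - 1)) := by positivity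
    rw [h3] at h4
    exact nonneg_of_mul_nonneg_right h4 (by positivity)
  have hx : 0 ≤ ψ' := nonneg_of_mul_nonneg_left hJ (by positivity)
  have h4 : F ^ 2 = lam * T ^ (-p) * (ψ' * u ^ k) ^ (1 - 1 / p) := by
    have e : p / (p - 1) * (1 - 1 / p) = 1 := by field_simp
    have := congrArg (fun z : ℝ => z ^ (1 - 1 / p)) h3
    rwa [Real.mul_rpow (by positivity) hJ, ← Real.rpow_mul (by positivity),
      ← Real.rpow_mul (by positivity), e, Real.rpow_one, Real.rpow_one] at this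
  have h5 := two_Pt1 hp hκ hb hC hCp hx hu
  have h6 := three_Pt1 p1 hC hv (mul_nonneg hA.le hJ)
  have h7 : (ψ' * u ^ k) ^ (1 - 1 / p) * (ψ' * u ^ k) ^ (1 / p) = ψ' * u ^ k := by
    rw [← Real.rpow_add' hJ (by simp), sub_add_cancel, Real.rpow_one]
  have h8 : (T ^ (-p) * (ψ' * u ^ k)) ^ (1 - 1 / p) =
      T ^ (-p) * T * (ψ' * u ^ k) ^ (1 - 1 / p) := by
    rw [Real.mul_rpow hA.le hJ, ← Real.rpow_mul T0.le, ← Real.rpow_add_one T0.ne',
      show -p * (1 - 1 / p) = -p + 1 by field_simp; ring]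
  have h9 : lam * C * (T ^ (-p) * (ψ' * u ^ k)) ≤ F ^ 2 * (√κ * (ψ' + k * u) + b) := by
    refine le_trans (le_of_eq ?_) (mul_le_mul_of_nonneg_left h5 (sq_nonneg F))
    rw [h4]
    linear_combination (-(lam * C * T ^ (-p))) * h7
  have h10 : v * F ^ 2 * T ≤ lam * (1 / p * (C ^ (1 - p) * v ^ p) +
      (1 - 1 / p) * (C * (T ^ (-p) * (ψ' * u ^ k)))) := by
    refine le_trans (le_of_eq ?_) (mul_le_mul_of_nonneg_left h6 hl.le)
    rw [h8, h4]; ring
  have h11 : -(2 * √κ * F * F' * (u * r)) ≤ h + v * F ^ 2 * (u * r) ^ 2 := by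
    refine (abs_le_of_sq_le_sq' ?_ (by positivity)).2
    have e : (-(2 * √κ * F * F' * (u * r))) ^ 2 = 4 * (κ * F' ^ 2) * (F ^ 2 * (u * r) ^ 2) := by
      rw [neg_sq, mul_pow, mul_pow, mul_pow, mul_pow, Real.sq_sqrt hκ.le]; ring
    have e2 : 4 * (κ * F' ^ 2) * (F ^ 2 * (u * r) ^ 2) ≤ 4 * (v * h) * (F ^ 2 * (u * r) ^ 2) := by
      gcongr
    nlinarith [sq_nonneg (h - v * F ^ 2 * (u * r) ^ 2)]
  have h12 : u * r * (k * r ^ (k - 1)) = k * u * r ^ k := by
    cases k with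
    | zero => simp
    | succ k => rw [Nat.add_sub_cancel, pow_succ]; ring
  have key : -(√κ * (2 * F * F' * (u * r) + F ^ 2 * (ψ' + k * u))) +
      lam * C / p * (T ^ (-p) * (ψ' * u ^ k)) ≤
      h - (v - b) * F ^ 2 + lam / p * C ^ (1 - p) * v ^ p := by
    have e : v * F ^ 2 * T = v * F ^ 2 + v * F ^ 2 * (u * r) ^ 2 := by rw [hT]; ring
    rw [e] at h10
    linear_combination h9 + h10 + h11
  have := mul_le_mul_of_nonneg_right key hR.le
  rw [h12, mul_pow u r k]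
  linear_combination this

end Pool.Agent.MP_e4cac8_mp.Cr

end

section
set_option autoImplicit false
set_option linter.unusedSectionVars false

open Set MeasureTheory Filter Topology
open scoped ENNReal NNReal SchwartzMap
open Pool.Agent.MP_0b7119_mp.G

namespace Pool.Agent.MP_e4cac8_mp.Cr

theorem lipd_Sc1 {f f' : ℝ → ℝ} (hf : ∀ r, 0 < r → HasDerivAt f (f' r) r)
    (hc : ContinuousOn f' (Ioi 0)) {a b : ℝ} (ha : 0 < a) :
    ∃ K, LipschitzOnWith K f (Icc a b) := by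
  have hs : Icc a b ⊆ Ioi 0 := fun x hx => ha.trans_le hx.1
  obtain ⟨K, hK⟩ := isCompact_Icc.exists_bound_of_continuousOn (hc.mono hs)
  refine ⟨K.toNNReal, (convex_Icc a b).lipschitzOnWith_of_nnnorm_hasDerivWithin_le
    (fun x hx => (hf x (hs hx)).hasDerivWithinAt) fun x hx => ?_⟩
  rw [← NNReal.coe_le_coe, coe_nnnorm]
  exact (hK x hx).trans (Real.le_coe_toNNReal K)

theorem lipm_Sc1 {f g : ℝ → ℝ} {a b : ℝ} (hf : ∃ K, LipschitzOnWith K f (Icc a b))
    (hg : ∃ K, LipschitzOnWith K g (Icc a b)) :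
    ∃ K, LipschitzOnWith K (fun r => f r * g r) (Icc a b) := by
  obtain ⟨K, hK⟩ := hf
  obtain ⟨L, hL⟩ := hg
  obtain ⟨A, hA⟩ := isCompact_Icc.exists_bound_of_continuousOn hK.continuousOn
  obtain ⟨B, hB⟩ := isCompact_Icc.exists_bound_of_continuousOn hL.continuousOn
  refine ⟨(A * L + B * K).toNNReal, LipschitzOnWith.of_dist_le' fun x hx y hy => ?_⟩
  have h1 := hK.dist_le_mul x hx y hy
  have h2 := hL.dist_le_mul x hx y hy
  have h3 := hA x hx
  have h4 := hB y hy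
  rw [Real.norm_eq_abs] at h3 h4
  rw [Real.dist_eq] at h1 h2
  rw [Real.dist_eq, show f x * g x - f y * g y = f x * (g x - g y) + g y * (f x - f y) by ring]
  refine (abs_add_le _ _).trans ?_
  rw [abs_mul, abs_mul]
  have h5 := mul_le_mul h3 h2 (abs_nonneg _) ((abs_nonneg _).trans h3)
  have h6 := mul_le_mul h4 h1 (abs_nonneg _) ((abs_nonneg _).trans h4)
  linarith

theorem dec_Sc1 {k : ℕ} {F : ℝ → ℝ} (hF : Antitone F) (h0 : ∀ r, 0 ≤ F r)
    (hi : IntegrableOn (fun r => F r ^ 2 * r ^ k) (Ioi 0) volume) :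
    Tendsto (fun r => F r ^ 2 * r ^ k) atTop (𝓝 0) := by
  set J := ∫ r in Ioi (0 : ℝ), F r ^ 2 * r ^ k with hJ
  have key : ∀ R, 0 < R → F R ^ 2 * R ^ k ≤ J * (k + 1) / R := by
    intro R hR
    have h1 : ∫ r in (0 : ℝ)..R, F R ^ 2 * r ^ k ≤ ∫ r in (0 : ℝ)..R, F r ^ 2 * r ^ k := by
      refine intervalIntegral.integral_mono_on hR.le
        (Continuous.intervalIntegrable (by fun_prop) _ _)
        ((intervalIntegrable_iff_integrableOn_Ioc_of_le hR.le).2 (hi.mono_set Ioc_subset_Ioi_self))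
        fun x hx => ?_
      exact mul_le_mul_of_nonneg_right (pow_le_pow_left₀ (h0 R) (hF hx.2) 2) (pow_nonneg hx.1 k)
    have h2 : ∫ r in (0 : ℝ)..R, F r ^ 2 * r ^ k ≤ J := by
      rw [intervalIntegral.integral_of_le hR.le]
      refine setIntegral_mono_set hi ?_ Ioc_subset_Ioi_self.eventuallyLE
      filter_upwards [ae_restrict_mem measurableSet_Ioi] with x hx
      exact mul_nonneg (sq_nonneg _) (pow_nonneg (le_of_lt hx) k)
    rw [intervalIntegral.integral_const_mul, integral_pow, zero_pow (Nat.succ_ne_zero k),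
      sub_zero] at h1
    have h3 := h1.trans h2
    rw [← mul_div_assoc, div_le_iff₀ (by positivity)] at h3
    rw [le_div_iff₀ hR]
    calc F R ^ 2 * R ^ k * R = F R ^ 2 * R ^ (k + 1) := by ring
      _ ≤ _ := h3
  refine squeeze_zero' ?_ ?_ (tendsto_const_nhds.div_atTop (a := J * (k + 1)) tendsto_id)
  · filter_upwards [eventually_gt_atTop 0] with r hr
    positivity
  · filter_upwards [eventually_gt_atTop 0] with r hr
    exact key r hr

theorem sSc1 (hI : SI1) (hO : SOs) (hT : STr) (hP : SPt1) : SSc1 := by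
  intro k p κ b M F v h hp hκ hb hFa ⟨L, hL⟩ hF0 hv hh hae ih iF iv hlt
  have hk0 : (0 : ℝ) ≤ k := Nat.cast_nonneg k
  have hp1 : 1 < p := by linarith
  have hp0 : 0 < p := by linarith
  by_cases hz : ∀ r, 0 < r → F r = 0
  · rw [setIntegral_eq_zero_of_forall_eq_zero fun r hr => by rw [hz r hr]; ring]
    exact setIntegral_nonneg measurableSet_Ioi fun r hr =>
      mul_nonneg (hh r) (pow_nonneg (le_of_lt hr) k)
  push Not at hz
  obtain ⟨r₀, hr₀, hz⟩ := hz
  have hFp : ∀ r ∈ Ioc 0 r₀, 0 < F r := fun r hr =>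
    (lt_of_le_of_ne (hF0 r₀) hz.symm).trans_le (hFa hr.2)
  have hs1 : 1 < p / (p - 1) := by
    rw [lt_div_iff₀ (by linarith)]
    linarith
  have hCp : 0 < Cp (k + 1) p κ b := by
    have : 0 < p - (k + 1) := by linarith
    unfold Cp
    positivity
  obtain ⟨C, hC, hCe⟩ : ∃ C : ℝ, 0 < C ∧ C ^ p = Cp (k + 1) p κ b :=
    ⟨_, Real.rpow_pos_of_pos hCp _, Real.rpow_inv_rpow hCp.le hp0.ne'⟩
  have cq : Continuous fun y : ℝ => (1 + y ^ 2) ^ (-p) * y ^ k :=
    (Continuous.rpow_const (by fun_prop) fun y => Or.inl (by positivity)).mul (by fun_prop)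
  obtain ⟨I, hId⟩ : ∃ I : ℝ → ℝ, I = fun y => ∫ t in (0 : ℝ)..y, (1 + t ^ 2) ^ (-p) * t ^ k :=
    ⟨_, rfl⟩
  have dI : ∀ y, HasDerivAt I ((1 + y ^ 2) ^ (-p) * y ^ k) y := fun y => by
    rw [hId]
    exact (cq.integral_hasStrictDerivAt 0 y).hasDerivAt
  have cI : Continuous I := continuous_iff_continuousAt.2 fun y => (dI y).continuousAt
  have I0 : I 0 = 0 := by rw [hId]; simp
  have tI : Tendsto I atTop (𝓝 (I1 k p)) := by
    rw [hId]
    exact intervalIntegral_tendsto_integral_Ioi 0 (hI k p hp).1 tendsto_id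
  obtain ⟨Y, hY, hY0⟩ := (((tI.const_mul (Cp (k + 1) p κ b)).eventually_const_lt hlt).and
    (eventually_gt_atTop 0)).exists
  have cF : Continuous F := hL.continuous
  have cw : Continuous fun r => (F r ^ 2) ^ (p / (p - 1)) :=
    Continuous.rpow_const (by fun_prop) fun _ => Or.inr (by linarith)
  obtain ⟨Λ, ψ, ψ', hΛ, hψ, cψ', t0, t1⟩ := hT k (p * (p / (p - 1))) Y
    (fun r => (F r ^ 2) ^ (p / (p - 1))) hY0 cw (fun r => Real.rpow_nonneg (sq_nonneg _) _)
    ⟨r₀, hr₀, fun r hr => Real.rpow_pos_of_pos (pow_pos (hFp r hr) 2) _⟩ (by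
      refine (iF.const_mul ((F 0 ^ 2) ^ (p / (p - 1) - 1))).mono'
        (cw.mul (by fun_prop)).aestronglyMeasurable ?_
      filter_upwards [ae_restrict_mem measurableSet_Ioi] with r hr
      have hr' : 0 ≤ r := le_of_lt hr
      rw [Real.norm_of_nonneg (by positivity), ← mul_assoc]
      refine mul_le_mul_of_nonneg_right ?_ (pow_nonneg hr' k)
      have e := Real.rpow_add' (sq_nonneg (F r)) (y := p / (p - 1) - 1) (z := 1) (by linarith)
      rw [sub_add_cancel, Real.rpow_one] at e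
      rw [e]
      exact mul_le_mul_of_nonneg_right (Real.rpow_le_rpow (sq_nonneg _)
        (pow_le_pow_left₀ (hF0 r) (hFa hr') 2) (by linarith)) (sq_nonneg _))
  obtain ⟨lam, hl, hle⟩ : ∃ lam : ℝ, 0 < lam ∧ lam ^ (p / (p - 1)) = Λ :=
    ⟨_, Real.rpow_pos_of_pos hΛ _, Real.rpow_inv_rpow hΛ.le (by linarith)⟩
  have cψ : ContinuousOn ψ (Ioi 0) := fun r hr =>
    (hψ r hr).2.2.1.continuousAt.continuousWithinAt
  have dA : ∀ r, 0 < r → HasDerivAt (fun r => -(√κ * (ψ r * r ^ k)))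
      (-(√κ * (ψ' r * r ^ k + ψ r * (k * r ^ (k - 1))))) r := fun r hr =>
    (((hψ r hr).2.2.1.mul (hasDerivAt_pow k r)).const_mul _).neg
  have dB : ∀ r, 0 < r → HasDerivAt (fun r => lam * C / p * I (ψ r))
      (lam * C / p * ((1 + ψ r ^ 2) ^ (-p) * ψ r ^ k * ψ' r)) r := fun r hr =>
    ((dI (ψ r)).comp r (hψ r hr).2.2.1).const_mul _
  have iG : IntegrableOn (fun r => (v r - b) * F r ^ 2 * r ^ k) (Ioi 0) volume := by
    refine ((hv.int iF).sub (iF.const_mul b)).congr (Eventually.of_forall fun r => ?_)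
    simp only [Pi.sub_apply]
    ring
  have main := hO (fun r => F r * F r * -(√κ * (ψ r * r ^ k)) + lam * C / p * I (ψ r))
    (fun r => h r * r ^ k - (v r - b) * F r ^ 2 * r ^ k +
      lam / p * C ^ (1 - p) * (v r ^ p * r ^ k)) 0 (lam * C / p * I Y)
    (fun a c ha _ => by
      obtain ⟨K1, h1⟩ := lipm_Sc1 (lipm_Sc1 ⟨L, hL.lipschitzOnWith⟩ ⟨L, hL.lipschitzOnWith⟩)
        (lipd_Sc1 (b := c) dA (((cψ'.mul (by fun_prop)).add (cψ.mul (by fun_prop))).const_mul
          _).neg ha)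
      obtain ⟨K2, h2⟩ := lipd_Sc1 (b := c) dB
        (((cq.comp_continuousOn cψ).mul cψ').const_mul _) ha
      exact ⟨_, h1.add h2⟩)
    ((ih.sub iG).add (iv.const_mul _))
    (by
      filter_upwards [hae, hL.ae_differentiableAt_real] with r h1 h2 hr
      have h3 := ((h2.hasDerivAt.mul h2.hasDerivAt).mul (dA r hr)).add (dB r hr)
      have h4 := hP k p κ b C lam r (ψ r) (ψ' r) (F r) (deriv F r) (v r) (h r) hp hκ hb hC hCe hl
        hr (hψ r hr).1 (hF0 r) (hv.nonneg r) (hh r) (h1 hr) (by rw [hle]; exact (hψ r hr).2.2.2)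
      refine le_of_eq_of_le (h3.deriv.trans ?_) h4
      simp only [Pi.mul_apply]
      ring)
    (by
      have a1 : Tendsto F (𝓝[>] 0) (𝓝 (F 0)) := cF.continuousAt.mono_left nhdsWithin_le_nhds
      have a2 : Tendsto (fun r : ℝ => r ^ k) (𝓝[>] 0) (𝓝 (0 ^ k)) :=
        (continuous_pow k).continuousAt.mono_left nhdsWithin_le_nhds
      have a3 := ((a1.mul a1).mul ((t0.mul a2).const_mul √κ).neg).add
        (((cI.tendsto 0).comp t0).const_mul (lam * C / p))
      simpa [I0] using a3)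
    (by
      have a1 : Tendsto (fun r => F r * F r * -(√κ * (ψ r * r ^ k))) atTop (𝓝 0) := by
        have := ((dec_Sc1 hFa hF0 iF).mul t1).mul_const (-√κ)
        rw [zero_mul, zero_mul] at this
        exact this.congr fun r => by ring
      have a3 := a1.add (((cI.tendsto Y).comp t1).const_mul (lam * C / p))
      rwa [zero_add] at a3)
  have iD : IntegrableOn (fun r => h r * r ^ k - (v r - b) * F r ^ 2 * r ^ k) (Ioi 0) volume :=
    ih.sub iG
  rw [integral_add iD (iv.const_mul _), integral_sub ih iG, integral_const_mul] at main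
  have e1 : C ^ (1 - p) * C ^ p = C := by
    rw [← Real.rpow_add hC, sub_add_cancel, Real.rpow_one]
  have e2 := mul_le_mul_of_nonneg_left hY.le
    (show 0 ≤ lam / p * C ^ (1 - p) by positivity)
  have e3 : lam / p * C ^ (1 - p) * (Cp (k + 1) p κ b * I Y) = lam * C / p * I Y := by
    rw [← hCe]
    linear_combination lam / p * I Y * e1
  linarith

end Pool.Agent.MP_e4cac8_mp.Cr

end

section
set_option autoImplicit false
set_option linter.unusedSectionVars false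

open Set MeasureTheory Filter Topology
open scoped ENNReal NNReal SchwartzMap
open Pool.Agent.MP_0b7119_mp.G

namespace Pool.Agent.MP_e4cac8_mp.Cr

theorem sq_Ff {y : ℝ} (hy : 0 ≤ y) (g : ℝ) : (y ^ 2) ^ g = (y ^ g) ^ 2 := by
  rw [sq, Real.mul_rpow hy hy, sq]

theorem sFf : SFf := by
  intro p M hp hM
  have hp1 : 0 < p - 1 := by linarith
  obtain ⟨g, hg⟩ : ∃ g, g = (p - 1)⁻¹ := ⟨_, rfl⟩
  have g0 : 0 < g := by rw [hg]; positivity
  have hs : p / (p - 1) = g + 1 := by rw [hg]; field_simp; ring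
  obtain ⟨t0, ht0⟩ : ∃ t0 : ℝ, t0 = √M ^ (p - 1) := ⟨_, rfl⟩
  have hr : 0 < √M := Real.sqrt_pos.2 hM
  have t0p : 0 < t0 := by rw [ht0]; positivity
  have e0 : t0 ^ g = √M := by rw [ht0, hg, Real.rpow_rpow_inv hr.le hp1.ne']
  have e1 : M ^ p = M * t0 ^ 2 := by
    rw [ht0, ← sq_Ff hr.le, Real.sq_sqrt hM.le, mul_comm, ← Real.rpow_add_one hM.ne']
    congr 1
    ring
  have lo : ∀ y, 0 ≤ y → y ≤ t0 → vc p M (y ^ 2) = (y ^ g) ^ 2 := by
    intro y y0 y1
    rw [vc, ← hg, sq_Ff y0]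
    refine min_eq_right ?_
    rw [← Real.sq_sqrt hM.le, ← e0]
    exact pow_le_pow_left₀ (Real.rpow_nonneg y0 g) (Real.rpow_le_rpow y0 y1 g0.le) 2
  have hi : ∀ y, t0 ≤ y → vc p M (y ^ 2) = M := by
    intro y y1
    rw [vc, ← hg, sq_Ff (t0p.le.trans y1)]
    refine min_eq_left ?_
    conv_lhs => rw [← Real.sq_sqrt hM.le, ← e0]
    exact pow_le_pow_left₀ (Real.rpow_nonneg t0p.le g) (Real.rpow_le_rpow t0p.le y1 g0.le) 2
  have hc : Continuous fun y : ℝ => (g + 1) * √(vc p M (y ^ 2)) :=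
    continuous_const.mul ((vc_cont hp M).comp (continuous_pow 2)).sqrt
  have f1 : ∀ t, 0 ≤ t → t ≤ t0 →
      ∫ y in (0 : ℝ)..t, (g + 1) * √(vc p M (y ^ 2)) = t * t ^ g := by
    intro t h0 h1
    rw [intervalIntegral.integral_congr (g := fun y => (g + 1) * y ^ g) fun y hy => by
      rw [uIcc_of_le h0] at hy
      simp only
      rw [lo y hy.1 (hy.2.trans h1), Real.sqrt_sq (Real.rpow_nonneg hy.1 g)]]
    have g1 : g + 1 ≠ 0 := by linarith
    rw [intervalIntegral.integral_const_mul, integral_rpow (Or.inl (by linarith)),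
      Real.zero_rpow g1, sub_zero, mul_div_cancel₀ _ g1, Real.rpow_add' h0 g1, Real.rpow_one,
      mul_comm]
  have f2 : ∀ t, t0 ≤ t →
      ∫ y in (0 : ℝ)..t, (g + 1) * √(vc p M (y ^ 2)) = √M * (t + g * (t - t0)) := by
    intro t h1
    rw [← intervalIntegral.integral_add_adjacent_intervals (b := t0) (hc.intervalIntegrable _ _)
      (hc.intervalIntegrable _ _), f1 t0 t0p.le le_rfl, e0,
      intervalIntegral.integral_congr (g := fun _ => (g + 1) * √M) fun y hy => by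
        rw [uIcc_of_le h1] at hy
        simp only
        rw [hi y hy.1],
      intervalIntegral.integral_const, smul_eq_mul]
    ring
  rw [hs, ← hg]
  refine ⟨fun t => ∫ y in (0 : ℝ)..t, (g + 1) * √(vc p M (y ^ 2)),
    fun t => (hc.integral_hasStrictDerivAt 0 t).hasDerivAt, by simp, fun t b h0 hb => ?_⟩
  simp only
  rcases le_total t t0 with h1 | h1
  · have e2 : vc p M (t ^ 2) ^ p = t ^ 2 * vc p M (t ^ 2) := by
      have h2 := Real.rpow_add' (vc_nonneg (p := p) hM.le (sq_nonneg t)) (y := p - 1) (z := 1)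
        (by linarith)
      rw [sub_add_cancel, Real.rpow_one] at h2
      rw [h2]
      congr 1
      rw [lo t h0 h1, ← sq_Ff h0, hg, Real.rpow_inv_rpow (sq_nonneg t) hp1.ne']
    rw [f1 t h0 h1, e2, lo t h0 h1]
    exact le_of_eq (by ring)
  · rw [f2 t h1, hi t h1, e1, mul_pow, Real.sq_sqrt hM.le]
    have h2 : 0 ≤ (M - b) * M * (g * (t - t0) ^ 2 + (g * (t - t0)) ^ 2) :=
      mul_nonneg (mul_nonneg (sub_nonneg.2 hb) hM.le) (by positivity)
    linarith

end Pool.Agent.MP_e4cac8_mp.Cr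

end

section
set_option autoImplicit false
set_option linter.unusedSectionVars false

open Set MeasureTheory Filter Topology
open scoped ENNReal NNReal SchwartzMap
open Pool.Agent.MP_0b7119_mp.G

namespace Pool.Agent.MP_e4cac8_mp.Cr

theorem der_Rad {μ : ℝ} (hμ : 0 < μ) (s r : ℝ) :
    HasDerivAt (fun r : ℝ => (μ ^ 2 + r ^ 2) ^ s)
      (2 * s * r / (μ ^ 2 + r ^ 2) * (μ ^ 2 + r ^ 2) ^ s) r := by
  have hρ : 0 < μ ^ 2 + r ^ 2 := by positivity
  have h := (((hasDerivAt_id r).pow 2).const_add (μ ^ 2)).rpow_const (p := s) (Or.inl hρ.ne')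
  refine HasDerivAt.congr_deriv h ?_
  simp only [id, Pi.pow_apply]
  rw [Real.rpow_sub_one hρ.ne']
  norm_num
  ring

theorem lim_Rad {μ p : ℝ} (k : ℕ) (hp : (k + 1 : ℝ) < p) :
    Tendsto (fun r : ℝ => r ^ (k + 1) * (μ ^ 2 + r ^ 2) ^ (-p)) atTop (𝓝 0) := by
  have hk : (0 : ℝ) ≤ k := Nat.cast_nonneg k
  refine squeeze_zero' ?_ ?_ (tendsto_rpow_neg_atTop (y := 2 * p - (k + 1)) (by linarith))
  · filter_upwards [eventually_gt_atTop 0] with r hr
    positivity
  · filter_upwards [eventually_gt_atTop 0] with r hr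
    have h1 : (μ ^ 2 + r ^ 2) ^ (-p) ≤ (r ^ 2) ^ (-p) :=
      Real.rpow_le_rpow_of_nonpos (by positivity) (by nlinarith [sq_nonneg μ]) (by linarith)
    refine (mul_le_mul_of_nonneg_left h1 (by positivity)).trans_eq ?_
    rw [← Real.rpow_natCast r (k + 1), ← Real.rpow_natCast r 2, ← Real.rpow_mul hr.le,
      ← Real.rpow_add hr]
    congr 1
    push_cast
    ring

theorem sRad (hR : SRn) : SRad := by
  intro k p m μ τ a b c A M hp hμ hm hτ ha hb hM hc hT
  obtain ⟨i0, e0⟩ := hR k p m μ hp hμ hm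
  have hk : (0 : ℝ) ≤ k := Nat.cast_nonneg k
  have hp0 : 0 < p := by linarith
  have hτ0 : 0 < τ := by linarith
  have hρ : ∀ r : ℝ, 0 < μ ^ 2 + r ^ 2 := fun r => by positivity
  have hρ' : ∀ r : ℝ, μ ^ 2 + r ^ 2 ≠ 0 := fun r => (hρ r).ne'
  have hw : ∀ r : ℝ, 0 < (μ ^ 2 + r ^ 2) ^ (-p) := fun r => Real.rpow_pos_of_pos (hρ r) _
  have hq : ∀ r : ℝ, p * μ / (μ ^ 2 + r ^ 2) ≤ p / μ := fun r => by
    rw [div_le_div_iff₀ (hρ r) hμ]; nlinarith [mul_nonneg hp0.le (sq_nonneg r)]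
  have hq0 : ∀ r : ℝ, 0 < p * μ / (μ ^ 2 + r ^ 2) := fun r => div_pos (by positivity) (hρ r)
  have iW : IntegrableOn (fun r : ℝ => (μ ^ 2 + r ^ 2) ^ (-p) * r ^ k) (Ioi 0) volume := by
    have h := i0.const_mul ((p * μ) ^ p)⁻¹
    refine h.congr (Eventually.of_forall fun r => ?_)
    have : (p * μ) ^ p ≠ 0 := (Real.rpow_pos_of_pos (by positivity) _).ne'
    simp only
    rw [Real.div_rpow (by positivity) (hρ r).le, Real.rpow_neg (hρ r).le]
    field_simp
  have iG : ∀ (g : ℝ → ℝ) (C : ℝ), Continuous g → (∀ r, |g r| ≤ C) →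
      IntegrableOn (fun r : ℝ => g r * ((μ ^ 2 + r ^ 2) ^ (-p) * r ^ k)) (Ioi 0) volume :=
    fun g C h1 h2 => iW.bdd_mul (c := C) h1.aestronglyMeasurable (Eventually.of_forall h2)
  have sq : ∀ r : ℝ, ((μ ^ 2 + r ^ 2) ^ (-p / 2)) ^ 2 = (μ ^ 2 + r ^ 2) ^ (-p) := fun r => by
    rw [← Real.rpow_natCast _ 2, ← Real.rpow_mul (hρ r).le]; congr 1; push_cast; ring
  have dφ : ∀ r : ℝ, deriv (fun r : ℝ => (μ ^ 2 + r ^ 2) ^ (-p / 2)) r =
      2 * (-p / 2) * r / (μ ^ 2 + r ^ 2) * (μ ^ 2 + r ^ 2) ^ (-p / 2) := fun r =>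
    (der_Rad hμ _ r).deriv
  have d2 : ∀ r : ℝ, deriv (fun r : ℝ => (μ ^ 2 + r ^ 2) ^ (-p / 2)) r ^ 2 =
      (p * r / (μ ^ 2 + r ^ 2)) ^ 2 * (μ ^ 2 + r ^ 2) ^ (-p) := fun r => by
    rw [dφ, mul_pow, sq]; ring
  have hb1 : ∀ r : ℝ, |p * r / (μ ^ 2 + r ^ 2)| ≤ p / μ := fun r => by
    rw [abs_div, abs_of_pos (hρ r), abs_mul, abs_of_pos hp0, div_le_div_iff₀ (hρ r) hμ,
      mul_assoc, ← sq_abs r]
    exact mul_le_mul_of_nonneg_left (by nlinarith [sq_nonneg (|r| - μ), abs_nonneg r]) hp0.le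
  have hb2 : ∀ r : ℝ, (p * r / (μ ^ 2 + r ^ 2)) ^ 2 ≤ (p / μ) ^ 2 := fun r => by
    rw [← sq_abs]; exact pow_le_pow_left₀ (abs_nonneg _) (hb1 r) 2
  have hv : ∀ r : ℝ, 0 ≤ τ * (p * μ / (μ ^ 2 + r ^ 2)) ∧ τ * (p * μ / (μ ^ 2 + r ^ 2)) ≤ M :=
    fun r => ⟨(mul_pos hτ0 (hq0 r)).le, (mul_le_mul_of_nonneg_left (hq r) hτ0.le).trans
      (by rwa [← mul_div_assoc])⟩
  have vp : (fun r : ℝ => (τ * (p * μ / (μ ^ 2 + r ^ 2))) ^ p * r ^ k) =
      fun r : ℝ => τ ^ p * ((p * μ / (μ ^ 2 + r ^ 2)) ^ p * r ^ k) := funext fun r => by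
    rw [Real.mul_rpow hτ0.le (hq0 r).le, mul_assoc]
  have cq : Continuous fun r : ℝ => p * μ / (μ ^ 2 + r ^ 2) := by fun_prop (disch := exact hρ')
  have cr : Continuous fun r : ℝ => p * r / (μ ^ 2 + r ^ 2) := by fun_prop (disch := exact hρ')
  have key := hT (fun r => τ * (p * μ / (μ ^ 2 + r ^ 2))) (fun r => (μ ^ 2 + r ^ 2) ^ (-p / 2))
    (cq.const_mul τ).measurable hv (by rw [vp]; exact i0.const_mul _)
    (by rw [vp, integral_const_mul, e0]; exact hc)
    ⟨⟨p / μ * (μ ^ 2) ^ (-p / 2), by positivity⟩, lipschitzWith_of_nnnorm_deriv_le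
      (fun r => (der_Rad hμ _ r).differentiableAt) fun r => by
        rw [← NNReal.coe_le_coe, coe_nnnorm, dφ, Real.norm_eq_abs, abs_mul,
          abs_of_pos (Real.rpow_pos_of_pos (hρ r) _)]
        refine mul_le_mul ?_ (Real.rpow_le_rpow_of_nonpos (by positivity)
          (by nlinarith [sq_nonneg r]) (by linarith)) (Real.rpow_pos_of_pos (hρ r) _).le
          (by positivity)
        rw [show 2 * (-p / 2) * r / (μ ^ 2 + r ^ 2) = -(p * r / (μ ^ 2 + r ^ 2)) by ring, abs_neg]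
        exact hb1 r⟩
    (by simp only [sq]; exact iW)
    (by
      simp only [d2, mul_assoc]
      exact iG _ ((p / μ) ^ 2) (cr.pow 2) fun r => by
        rw [abs_of_nonneg (sq_nonneg _)]; exact hb2 r)
  simp only [d2, sq] at key
  -- the comparison function
  have dF : ∀ r : ℝ, HasDerivAt (fun r : ℝ => -(1 / μ) * (r ^ (k + 1) * (μ ^ 2 + r ^ 2) ^ (-p)))
      ((p / μ - 2 * (p * μ / (μ ^ 2 + r ^ 2)) + 2 * m) * ((μ ^ 2 + r ^ 2) ^ (-p) * r ^ k)) r := by
    intro r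
    refine (((hasDerivAt_pow (k + 1) r).mul (der_Rad hμ (-p) r)).const_mul (-(1 / μ))).congr_deriv ?_
    have hm' : 2 * m = (p - (k + 1)) / μ := by rw [eq_div_iff hμ.ne']; exact hm
    have := hρ' r
    rw [hm', Nat.add_sub_cancel]
    push_cast
    field_simp
    ring
  have iH := iG (fun r => p / μ - 2 * (p * μ / (μ ^ 2 + r ^ 2)) + 2 * m) (p / μ + |2 * m|)
    (by fun_prop) fun r => (abs_add_le _ _).trans (add_le_add_left
      (abs_le.2 ⟨by linarith [hq r], by linarith [hq0 r]⟩) _)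
  have eH := integral_Ioi_of_hasDerivAt_of_tendsto (dF 0).continuousAt.continuousWithinAt
    (fun r _ => dF r) iH ((lim_Rad (μ := μ) k hp).const_mul (-(1 / μ)))
  have iq := iG _ (p / μ) cq fun r => by rw [abs_of_pos (hq0 r)]; exact hq r
  have pq : 0 < ∫ r in Ioi (0 : ℝ), p * μ / (μ ^ 2 + r ^ 2) * ((μ ^ 2 + r ^ 2) ^ (-p) * r ^ k) := by
    have pos : ∀ r ∈ Ioi (0 : ℝ), 0 < p * μ / (μ ^ 2 + r ^ 2) * ((μ ^ 2 + r ^ 2) ^ (-p) * r ^ k) :=
      fun r hr => mul_pos (hq0 r) (mul_pos (hw r) (pow_pos hr k))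
    rw [setIntegral_pos_iff_support_of_nonneg_ae
      ((ae_restrict_iff' measurableSet_Ioi).2 (Eventually.of_forall fun r hr => (pos r hr).le)) iq,
      inter_eq_right.2 fun r hr => Function.mem_support.2 (pos r hr).ne']
    simp
  have hav : ∀ r : ℝ, 0 < a + τ * (p * μ / (μ ^ 2 + r ^ 2)) := fun r => by linarith [(hv r).1]
  have iL := iG (fun r => (p * r / (μ ^ 2 + r ^ 2)) ^ 2 / (a + τ * (p * μ / (μ ^ 2 + r ^ 2))) -
      (τ * (p * μ / (μ ^ 2 + r ^ 2)) - b)) ((p / μ) ^ 2 / a + (M + |b|))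
    (((cr.pow 2).div ((cq.const_mul τ).const_add a) fun r => (hav r).ne').sub
      ((cq.const_mul τ).sub continuous_const)) fun r => by
      refine (abs_sub _ _).trans (add_le_add ?_ ((abs_sub _ _).trans ?_))
      · rw [abs_of_nonneg (div_nonneg (sq_nonneg _) (hav r).le)]
        exact div_le_div₀ (sq_nonneg _) (hb2 r) ha (by linarith [(hv r).1])
      · rw [abs_of_nonneg (hv r).1]; linarith [(hv r).2]
  have le := setIntegral_mono_on iL (iH.sub (iq.const_mul (τ - 1))) measurableSet_Ioi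
    fun r hr => by
      have h1 : (p * r / (μ ^ 2 + r ^ 2)) ^ 2 / (a + τ * (p * μ / (μ ^ 2 + r ^ 2))) ≤
          p / μ - p * μ / (μ ^ 2 + r ^ 2) := by
        refine (div_le_div_of_nonneg_left (sq_nonneg _) (hq0 r) (by nlinarith [hq0 r])).trans_eq ?_
        have := hρ' r
        field_simp
        ring
      have h2 := (mul_pos (hw r) (pow_pos (mem_Ioi.1 hr) k)).le
      simp only [Pi.sub_apply]
      rw [← mul_assoc (τ - 1), ← sub_mul]
      exact mul_le_mul_of_nonneg_right (by linarith) h2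
  simp only [Pi.sub_apply] at le
  rw [integral_sub iH (iq.const_mul (τ - 1)), integral_const_mul, eH] at le
  have e : ∀ r : ℝ, ((p * r / (μ ^ 2 + r ^ 2)) ^ 2 * (μ ^ 2 + r ^ 2) ^ (-p) /
      (a + τ * (p * μ / (μ ^ 2 + r ^ 2))) - (τ * (p * μ / (μ ^ 2 + r ^ 2)) - b) *
        (μ ^ 2 + r ^ 2) ^ (-p)) * r ^ k =
      ((p * r / (μ ^ 2 + r ^ 2)) ^ 2 / (a + τ * (p * μ / (μ ^ 2 + r ^ 2))) -
        (τ * (p * μ / (μ ^ 2 + r ^ 2)) - b)) * ((μ ^ 2 + r ^ 2) ^ (-p) * r ^ k) := fun r => by ring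
  simp only [e] at key
  have := mul_pos (sub_pos.2 hτ) pq
  simp only [mul_zero, zero_pow (Nat.succ_ne_zero k), zero_mul, sub_zero] at le
  linarith

end Pool.Agent.MP_e4cac8_mp.Cr

end

section
set_option autoImplicit false
set_option linter.unusedSectionVars false

open Set MeasureTheory Filter Topology
open scoped ENNReal NNReal SchwartzMap
open Pool.Agent.MP_0b7119_mp.G

namespace Pool.Agent.MP_e4cac8_mp.Cr

theorem id_PtR (D p b W x t : ℝ) (hD : D ≠ 0) (hp : p ≠ 0) (h1 : p - 1 ≠ 0) (h2 : p - D ≠ 0)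
    (h3 : x + t ≠ 0) :
    (x + t) * (W ^ 2 - b * W) + p / (p - 1) * b * (W * t - (W - b) * x) +
      p / (p - 1) * (b / (p - D)) * (b * x - (1 - D / p) * (W * (x + t))) -
      p / (p - 1) * (1 - 1 / D) * (W ^ 2 * t + (W - b) ^ 2 * x) -
      (p / (p - 1)) ^ 2 * b ^ 2 / (D ^ 2 * ((p - D) / (D * (p - 1)))) * (x * t / (x + t)) =
    (p - D) / (D * (p - 1)) * (x + t) * (W - p * b / (p - D) * x / (x + t)) ^ 2 := by
  field_simp
  ring

theorem sPtR : SPtR := by
  intro D p b δ W x t y ε ξ G Y R k hD hp hb hδ hx ht hs hy hξ hk hR hG hY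
  have d0 : 0 < D := by linarith
  have p0 : 0 < p := by linarith
  have p1 : 0 < p - 1 := by linarith
  have p2 : 0 < p - D := by linarith
  have hI := id_PtR D p b W x t d0.ne' p0.ne' p1.ne' p2.ne' hs.ne'
  have k1 : (p - D) / (D * (p - 1)) = 1 - p / (p - 1) * (1 - 1 / D) := by
    field_simp
    ring
  have k0 : 0 < (p - D) / (D * (p - 1)) := by positivity
  have s0 : 0 < p / (p - 1) := by positivity
  have hQ : 0 ≤ (p - D) / (D * (p - 1)) * (x + t) * (W - p * b / (p - D) * x / (x + t)) ^ 2 := by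
    positivity
  rw [← hI] at hQ
  clear hI
  generalize (p - D) / (D * (p - 1)) = κ at k1 k0 hQ
  generalize p / (p - 1) = s at *
  have a0 : 0 < 1 / D := by positivity
  have a1 : 1 / D ≤ 1 := by rw [div_le_one d0]; linarith
  have hA : -(s * (1 - 1 / D) * Y) - 2 * s ^ 2 * (1 / D) * R + s ^ 2 * κ * y ^ 2 ≤
      s * (G - Y) - s ^ 2 * y ^ 2 := by
    have h1 := mul_le_mul_of_nonneg_left hG (mul_pos s0 a0).le
    have h2 : s * (1 / D) * (D * G) = s * G := by field_simp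
    have h3 : s * (1 / D) * (Y - 2 * s * R + s ^ 2 * y ^ 2 + D * (2 * s - s ^ 2) * y ^ 2) =
        s * (1 / D) * (Y - 2 * s * R + s ^ 2 * y ^ 2) + s * (2 * s - s ^ 2) * y ^ 2 := by
      field_simp
    rw [h2, h3] at h1
    rw [k1]
    linarith
  have hB := mul_le_mul_of_nonneg_left hR (show 0 ≤ 2 * s ^ 2 * (1 / D) by positivity)
  have hC : 0 ≤ s ^ 2 * κ * y ^ 2 - 2 * s ^ 2 * (1 / D) * (y * (b * k)) +
      s ^ 2 * b ^ 2 / (D ^ 2 * κ) * k ^ 2 := by
    have h1 : s ^ 2 * κ * y ^ 2 - 2 * s ^ 2 * (1 / D) * (y * (b * k)) +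
        s ^ 2 * b ^ 2 / (D ^ 2 * κ) * k ^ 2 = κ * (s * y - s * b * k / (D * κ)) ^ 2 := by
      field_simp
      ring
    rw [h1]
    positivity
  have hE := mul_le_mul_of_nonneg_left ((le_div_iff₀ hs).2 hk)
    (show 0 ≤ s ^ 2 * b ^ 2 / (D ^ 2 * κ) by positivity)
  have hF : 2 * s ^ 2 * (1 / D) * (y * ε) ≤ δ * s ^ 2 * y ^ 2 + s ^ 2 / δ * ε ^ 2 := by
    have h1 : δ * s ^ 2 * y ^ 2 + s ^ 2 / δ * ε ^ 2 - 2 * s ^ 2 * (y * ε) =
        s ^ 2 / δ * (δ * y - ε) ^ 2 := by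
      field_simp
      ring
    have h2 : 0 ≤ s ^ 2 / δ * (δ * y - ε) ^ 2 := by positivity
    have h3 : 0 ≤ δ * s ^ 2 * y ^ 2 + s ^ 2 / δ * ε ^ 2 := by positivity
    rw [← h1] at h2
    have h4 := mul_nonneg a0.le h2
    have h5 := mul_nonneg (sub_nonneg.2 a1) h3
    linarith
  have hH := mul_le_mul_of_nonneg_left hY (mul_nonneg s0.le (sub_nonneg.2 a1))
  have hJ : 0 ≤ s * (1 / D) * ξ := by positivity
  linarith

end Pool.Agent.MP_e4cac8_mp.Cr

end

section
set_option autoImplicit false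
set_option linter.unusedSectionVars false

open Set MeasureTheory Filter Topology
open scoped ENNReal NNReal SchwartzMap
open Pool.Agent.MP_0b7119_mp.G

namespace Pool.Agent.MP_e4cac8_mp.Cr

theorem lin_Key0 {X : Type} [MeasurableSpace X] {μ : Measure X} {f₁ f₂ f₃ f₄ f₅ f₆ : X → ℝ}
    (h₁ : Integrable f₁ μ) (h₂ : Integrable f₂ μ) (h₃ : Integrable f₃ μ) (h₄ : Integrable f₄ μ)
    (h₅ : Integrable f₅ μ) (h₆ : Integrable f₆ μ) (c₁ c₂ c₃ c₄ c₅ c₆ : ℝ) (g : X → ℝ)
    (hg : ∀ x, g x = c₁ * f₁ x + c₂ * f₂ x + c₃ * f₃ x + c₄ * f₄ x + c₅ * f₅ x + c₆ * f₆ x) :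
    Integrable g μ ∧ ∫ x, g x ∂μ = c₁ * ∫ x, f₁ x ∂μ + c₂ * ∫ x, f₂ x ∂μ + c₃ * ∫ x, f₃ x ∂μ +
      c₄ * ∫ x, f₄ x ∂μ + c₅ * ∫ x, f₅ x ∂μ + c₆ * ∫ x, f₆ x ∂μ := by
  have e : g = fun x => c₁ * f₁ x + c₂ * f₂ x + c₃ * f₃ x + c₄ * f₄ x + c₅ * f₅ x + c₆ * f₆ x :=
    funext hg
  have k₁ := h₁.const_mul c₁
  have k₂ := h₂.const_mul c₂
  have k₃ := h₃.const_mul c₃
  have k₄ := h₄.const_mul c₄
  have k₅ := h₅.const_mul c₅
  have k₆ := h₆.const_mul c₆
  have l₂ : Integrable (fun x => c₁ * f₁ x + c₂ * f₂ x) μ := k₁.add k₂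
  have l₃ : Integrable (fun x => c₁ * f₁ x + c₂ * f₂ x + c₃ * f₃ x) μ := l₂.add k₃
  have l₄ : Integrable (fun x => c₁ * f₁ x + c₂ * f₂ x + c₃ * f₃ x + c₄ * f₄ x) μ := l₃.add k₄
  have l₅ : Integrable (fun x => c₁ * f₁ x + c₂ * f₂ x + c₃ * f₃ x + c₄ * f₄ x + c₅ * f₅ x) μ :=
    l₄.add k₅
  subst e
  refine ⟨l₅.add k₆, ?_⟩
  rw [integral_add l₅ k₆, integral_add l₄ k₅, integral_add l₃ k₄, integral_add l₂ k₃,
    integral_add k₁ k₂]
  simp only [integral_const_mul]

theorem pt1_Key0 {a M θ V v t : ℝ} (ha : 0 < a) (h0 : 0 < θ) (h1 : θ ≤ 1) (ht : 0 ≤ t)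
    (V0 : 0 ≤ V) (V1 : V ≤ M) (v0 : 0 ≤ v) (v1 : v ≤ M) :
    0 ≤ (a + V) ^ 2 * t / (a + (V + θ * (v - V))) ∧ (a + V) ^ 2 * t / (a + (V + θ * (v - V))) ≤
      (a + θ ^ 2 * M ^ 2 / a) * t + (1 + θ) * (V * t) - θ * (v * t) := by
  have hd : a ≤ a + (V + θ * (v - V)) := by nlinarith [mul_nonneg h0.le v0]
  have hp : 0 < a + (V + θ * (v - V)) := ha.trans_le hd
  refine ⟨by positivity, ?_⟩
  have hD : (v - V) ^ 2 ≤ M ^ 2 := sq_le_sq' (by linarith) (by linarith)
  have e : (a + V) ^ 2 * t / (a + (V + θ * (v - V))) =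
      a * t + (1 + θ) * (V * t) - θ * (v * t) +
        θ ^ 2 * (v - V) ^ 2 / (a + (V + θ * (v - V))) * t := by
    field_simp
    ring
  have h2 : θ ^ 2 * (v - V) ^ 2 / (a + (V + θ * (v - V))) ≤ θ ^ 2 * M ^ 2 / a :=
    div_le_div₀ (by positivity) (mul_le_mul_of_nonneg_left hD (sq_nonneg _)) ha hd
  rw [e]
  nlinarith [mul_le_mul_of_nonneg_right h2 ht]

theorem pt2_Key0 {a θ V t : ℝ} (ha : 0 < a) (h0 : 1 / 2 ≤ θ) (h1 : θ ≤ 1) (ht : 0 ≤ t)
    (V0 : 0 ≤ V) : 0 ≤ (a + V) ^ 2 * t / (2 * a + θ * V) ∧ (a + V) ^ 2 * t / (2 * a + θ * V) ≤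
      ((3 - 2 * θ) * a - a / 2) * t + (3 - 2 * θ) * (V * t) := by
  have h2 : 0 ≤ θ := by linarith
  have hp : 0 < 2 * a + θ * V := by positivity
  refine ⟨by positivity, ?_⟩
  rw [div_le_iff₀ hp]
  have h3 : 0 ≤ (1 - θ) * (2 * θ - 1) := mul_nonneg (by linarith) (by linarith)
  have h4 : (a + V) ^ 2 ≤ ((3 - 2 * θ) * a - a / 2 + (3 - 2 * θ) * V) * (2 * a + θ * V) := by
    have k1 := mul_nonneg h3 (sq_nonneg V)
    have k2 := mul_nonneg (sub_nonneg.2 h1) (sq_nonneg a)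
    have k3 := mul_nonneg (mul_nonneg ha.le V0) h3
    have k4 := mul_nonneg (mul_nonneg ha.le V0) (sub_nonneg.2 h1)
    have k5 := mul_nonneg ha.le V0
    nlinarith
  nlinarith [mul_le_mul_of_nonneg_right h4 ht]

theorem sKey0 : SKey0 := by
  intro X _ μ a b M θ τ e₁ e₂ u t V v ha h0 h1 hτ hu ht iu it hV hv H1 H2
  have L := lin_Key0 iu it (hV.int iu) (hV.int it) (hv.int iu) (hv.int it)
  have e1 := (L (-b) 0 (1 - θ) 0 θ 0 (fun x => (V x + θ * (v x - V x) - b) * u x)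
    fun x => by ring).2
  have e2 := (L b a (-1) 1 0 0 (fun x => (a + V x) * t x - (V x - b) * u x) fun x => by ring).2
  have e3 := (L 0 0 (-1) (-1) 1 1 (fun x => (u x + t x) * (v x - V x)) fun x => by ring).2
  have e4 := (L 0 a 0 1 0 0 (fun x => (a + V x) * t x) fun x => by ring).2
  have e5 := (L 1 1 0 0 0 0 (fun x => u x + t x) fun x => by ring).2
  obtain ⟨i6, e6⟩ := L 0 (a + θ ^ 2 * M ^ 2 / a) 0 (1 + θ) 0 (-θ)
    (fun x => (a + θ ^ 2 * M ^ 2 / a) * t x + (1 + θ) * (V x * t x) - θ * (v x * t x))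
    fun x => by ring
  have e7 := (L M M 0 (-1) 0 1 (fun x => M * (u x + t x) - (V x - v x) * t x) fun x => by ring).2
  have P := fun x => pt1_Key0 ha h0 h1 (ht x) (hV.nonneg x) (hV.le x) (hv.nonneg x) (hv.le x)
  have hQ := integral_mono_of_nonneg (Eventually.of_forall fun x => (P x).1) i6
    (Eventually.of_forall fun x => (P x).2)
  have h7 : 0 ≤ ∫ x, (M * (u x + t x) - (V x - v x) * t x) ∂μ := integral_nonneg fun x => by
    have k1 := mul_nonneg ((hV.nonneg x).trans (hV.le x)) (hu x)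
    have k2 := mul_nonneg (sub_nonneg.2 (hV.le x)) (ht x)
    have k3 := mul_nonneg (hv.nonneg x) (ht x)
    simp only [Pi.zero_apply]
    nlinarith
  have hu0 : 0 ≤ ∫ x, u x ∂μ := integral_nonneg hu
  rw [e6] at hQ
  rw [e7] at h7
  rw [e1] at H1
  rw [e2] at H2
  rw [e3, e4, e5]
  have hτ2 : 0 ≤ τ ^ 2 - 1 := by nlinarith
  have k1 := mul_le_mul_of_nonneg_left hQ (sq_nonneg τ)
  have k2 := mul_nonneg (mul_nonneg hτ2 h0.le) h7
  have k3 : 0 ≤ τ ^ 2 * (θ ^ 2 * M ^ 2 / a) * ∫ x, u x ∂μ := by positivity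
  have k4 : τ ^ 2 * θ ^ 2 * M ^ 2 / a = τ ^ 2 * (θ ^ 2 * M ^ 2 / a) := by ring
  rw [k4]
  linarith

theorem sAs0 : SAs0 := by
  intro X _ μ a b M θ e₁ e₂ u t V ha hb h0 h1 hu ht iu it hV H1 H2 he
  have L := lin_Key0 iu it (hV.int iu) (hV.int it) iu it
  have e1 := (L (a - b) 0 θ 0 0 0 (fun x => (θ * V x - (b - a)) * u x) fun x => by ring).2
  have e2 := (L b a (-1) 1 0 0 (fun x => (a + V x) * t x - (V x - b) * u x) fun x => by ring).2
  have e3 := (L 0 0 1 1 0 0 (fun x => (u x + t x) * V x) fun x => by ring).2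
  have e5 := (L 1 1 0 0 0 0 (fun x => u x + t x) fun x => by ring).2
  obtain ⟨i6, e6⟩ := L 0 ((3 - 2 * θ) * a - a / 2) 0 (3 - 2 * θ) 0 0
    (fun x => ((3 - 2 * θ) * a - a / 2) * t x + (3 - 2 * θ) * (V x * t x)) fun x => by ring
  have P := fun x => pt2_Key0 ha h0 h1 (ht x) (hV.nonneg x)
  have hQ := integral_mono_of_nonneg (Eventually.of_forall fun x => (P x).1) i6
    (Eventually.of_forall fun x => (P x).2)
  have hu0 : 0 ≤ ∫ x, u x ∂μ := integral_nonneg hu
  have hVt : 0 ≤ ∫ x, V x * t x ∂μ := integral_nonneg fun x => mul_nonneg (hV.nonneg x) (ht x)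
  rw [e6] at hQ
  rw [e1] at H1
  rw [e2] at H2
  rw [e3, e5]
  have hδ : 0 ≤ 1 - θ := by linarith
  have k1 := mul_le_mul_of_nonneg_left H2 hδ
  have k2 := mul_nonneg hδ (mul_nonneg hb hu0)
  have k3 := mul_nonneg hδ hVt
  have k4 := mul_nonneg ha.le hu0
  have k5 := mul_nonneg (by linarith : (0 : ℝ) ≤ 2 * θ - 1) he
  linarith

end Pool.Agent.MP_e4cac8_mp.Cr

end

section
set_option autoImplicit false
set_option linter.unusedSectionVars false

open Set MeasureTheory Filter Topology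
open scoped ENNReal NNReal SchwartzMap
open Pool.Agent.MP_0b7119_mp.G

namespace Pool.Agent.MP_e4cac8_mp.Cr

theorem pt_El {p M s V : ℝ} (hp : 2 ≤ p) (hM : 0 < M) (hs : 0 ≤ s) (hV : 0 ≤ V) (hVM : V ≤ M) :
    0 ≤ V ^ p / p - vc p M s ^ p / p - s * (V - vc p M s) ∧
      s * (V - vc p M s) ^ 2 ≤ 3 * M * (V ^ p / p - vc p M s ^ p / p - s * (V - vc p M s)) := by
  have hp1 : 1 < p := by linarith
  rcases (vc_nonneg (p := p) hM.le hs).eq_or_lt with h0 | h0
  · have e := vc_pow_eq (p := p) (M := M) hp1 hs (by rw [← h0]; exact hM)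
    rw [← h0, Real.zero_rpow (by linarith)] at e
    have h1 : 0 ≤ V ^ p / p := div_nonneg (Real.rpow_nonneg hV _) (by linarith)
    rw [← h0, ← e, Real.zero_rpow (by linarith)]
    simp only [zero_div, zero_mul, sub_zero]
    exact ⟨h1, by positivity⟩
  · have b := Pt2.breg hp hV h0 (vc_pow_le hp1 hM.le hs)
      fun h => vc_pow_eq hp1 hs (h.trans_le hVM)
    have hv := vc_le p M s
    set v := vc p M s
    have hq : 0 < p - 1 := by linarith
    have hK0 : 0 < max (v - V) 0 + 2 * v / (p - 1) := by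
      have := le_max_right (v - V) 0
      positivity
    have hK : max (v - V) 0 + 2 * v / (p - 1) ≤ 3 * M := by
      have h1 : max (v - V) 0 ≤ M := max_le (by linarith) hM.le
      have h2 : 2 * v / (p - 1) ≤ 2 * M := by
        rw [div_le_iff₀ hq]; nlinarith
      linarith
    have hD : 0 ≤ V ^ p / p - v ^ p / p - s * (V - v) := le_trans (by positivity) b
    refine ⟨hD, ?_⟩
    rw [div_le_iff₀ hK0] at b
    exact b.trans (by rw [mul_comm]; exact mul_le_mul_of_nonneg_right hK hD)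

theorem int_El {X : Type} [MeasurableSpace X] {μ : Measure X} {p M c : ℝ} {σ V : X → ℝ}
    (hp : 2 ≤ p) (hM : 0 < M) (hσ : Measurable σ) (h0 : ∀ x, 0 ≤ σ x) (hi : Integrable σ μ)
    (hV : Bm M V) (hVi : Integrable (fun x => V x ^ p) μ) (hc : 0 ≤ c) :
    0 ≤ (∫ x, V x ^ p ∂μ - ∫ x, vc p M (c * σ x) ^ p ∂μ) / p +
        c * ∫ x, σ x * (vc p M (c * σ x) - V x) ∂μ ∧
      c * ∫ x, σ x * (V x - vc p M (c * σ x)) ^ 2 ∂μ ≤
        3 * M * ((∫ x, V x ^ p ∂μ - ∫ x, vc p M (c * σ x) ^ p ∂μ) / p +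
          c * ∫ x, σ x * (vc p M (c * σ x) - V x) ∂μ) ∧
      ∫ x, vc p M (c * σ x) ^ p ∂μ ≤ c * M * ∫ x, σ x ∂μ := by
  have hp1 : 1 < p := by linarith
  have hs0 : ∀ x, 0 ≤ c * σ x := fun x => mul_nonneg hc (h0 x)
  have hb := bm_vc hp1 hM.le (hσ.const_mul c) hs0
  have hvi := int_vc (μ := μ) hp1 hM.le (hσ.const_mul c) hs0 (hi.const_mul c)
  have hG : Integrable (fun x => σ x * (vc p M (c * σ x) - V x)) μ :=
    ((hb.int hi).sub (hV.int hi)).congr (Eventually.of_forall fun x => by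
      simp only [Pi.sub_apply]; ring)
  have hq : Bm (M ^ 2) fun x => (V x - vc p M (c * σ x)) ^ 2 :=
    ⟨(hV.meas.sub hb.meas).pow_const 2, fun x => sq_nonneg _, fun x => by
      have h1 := hV.nonneg x
      have h2 := hV.le x
      have h3 := hb.nonneg x
      have h4 := hb.le x
      exact sq_le_sq' (by linarith) (by linarith)⟩
  have hQ : Integrable (fun x => σ x * (V x - vc p M (c * σ x)) ^ 2) μ :=
    (hq.int hi).congr (Eventually.of_forall fun x => mul_comm _ _)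
  have hD1 : Integrable (fun x => (V x ^ p - vc p M (c * σ x) ^ p) / p) μ :=
    (hVi.sub hvi).div_const p
  have hD : Integrable (fun x => (V x ^ p - vc p M (c * σ x) ^ p) / p +
      c * (σ x * (vc p M (c * σ x) - V x))) μ := hD1.add (hG.const_mul c)
  have e : ∫ x, ((V x ^ p - vc p M (c * σ x) ^ p) / p +
      c * (σ x * (vc p M (c * σ x) - V x))) ∂μ =
      (∫ x, V x ^ p ∂μ - ∫ x, vc p M (c * σ x) ^ p ∂μ) / p +
        c * ∫ x, σ x * (vc p M (c * σ x) - V x) ∂μ := by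
    rw [integral_add hD1 (hG.const_mul c), integral_div, integral_sub hVi hvi, integral_const_mul]
  have pt := fun x => pt_El hp hM (hs0 x) (hV.nonneg x) (hV.le x)
  refine ⟨?_, ?_, ?_⟩
  · rw [← e]
    refine integral_nonneg fun x => (pt x).1.trans (le_of_eq ?_)
    ring
  · rw [← e, ← integral_const_mul, ← integral_const_mul]
    refine integral_mono (hQ.const_mul c) (hD.const_mul _) fun x => ?_
    have := (pt x).2
    refine le_trans (le_of_eq ?_) (this.trans (le_of_eq ?_))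
    · ring
    · ring
  · rw [← integral_const_mul]
    refine integral_mono hvi (hi.const_mul _) fun x => (vc_rpow_le hp1 hM.le (hs0 x)).trans ?_
    have := mul_le_mul_of_nonneg_left (vc_le p M (c * σ x)) (hs0 x)
    exact this.trans (le_of_eq (by ring))

theorem cont_El {X : Type} [MeasurableSpace X] {μ : Measure X} {p M c1 : ℝ} {σ : X → ℝ}
    (hp : 2 ≤ p) (hM : 0 < M) (hσ : Measurable σ) (h0 : ∀ x, 0 ≤ σ x) (hi : Integrable σ μ) :
    ContinuousOn (fun c : ℝ => ∫ x, vc p M (c * σ x) ^ p ∂μ) (Icc 0 c1) := by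
  have hp1 : 1 < p := by linarith
  refine continuousOn_of_dominated (bound := fun x => c1 * M * σ x) (fun c hc => ?_)
    (fun c hc => Eventually.of_forall fun x => ?_) (hi.const_mul _)
    (Eventually.of_forall fun x => Continuous.continuousOn ?_)
  · exact (((vc_cont hp1 M).measurable.comp (hσ.const_mul c)).pow_const p).aestronglyMeasurable
  · have hs : 0 ≤ c * σ x := mul_nonneg hc.1 (h0 x)
    rw [Real.norm_of_nonneg (Real.rpow_nonneg (vc_nonneg hM.le hs) _)]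
    refine (vc_rpow_le hp1 hM.le hs).trans ((mul_le_mul_of_nonneg_left (vc_le _ _ _) hs).trans ?_)
    have := mul_le_mul_of_nonneg_right hc.2 (mul_nonneg hM.le (h0 x))
    linarith
  · exact (Real.continuous_rpow_const (by linarith)).comp
      ((vc_cont hp1 M).comp (continuous_id.mul continuous_const))

theorem sEl : SEl := by
  intro X _ μ p M B ρ Λ σ V hp hM hB hρ hρ1 hΛ hσ h0 hi hS hV hVi hVB H
  have hp1 : 1 < p := by linarith
  have hp0 : 0 < p := by linarith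
  have HG : ∀ c : ℝ, 0 ≤ c → ∫ x, vc p M (c * σ x) ^ p ∂μ ≤ (1 + ρ) * B →
      ∫ x, σ x * (vc p M (c * σ x) - V x) ∂μ ≤ ρ * Λ + ρ ^ 2 * ∫ x, σ x ∂μ := fun c hc h =>
    H _ (bm_vc hp1 hM.le (hσ.const_mul c) fun x => mul_nonneg hc (h0 x))
      (int_vc hp1 hM.le (hσ.const_mul c) (fun x => mul_nonneg hc (h0 x)) (hi.const_mul c)) h
  have hρ2 : ρ ^ 2 ≤ ρ := by nlinarith
  by_cases hcase : ∃ c1 : ℝ, 0 < c1 ∧ (1 + ρ) * B ≤ ∫ x, vc p M (c1 * σ x) ^ p ∂μ
  · obtain ⟨c1, hc1, h1⟩ := hcase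
    have z : ∫ x, vc p M ((0 : ℝ) * σ x) ^ p ∂μ = 0 := by
      simp only [zero_mul, vc_zero hp1 hM.le, Real.zero_rpow hp0.ne', integral_zero]
    have hpos : 0 < (1 + ρ) * B := by positivity
    obtain ⟨c, hc, e⟩ := intermediate_value_Icc hc1.le
      (cont_El (μ := μ) (c1 := c1) hp hM hσ h0 hi) (show (1 + ρ) * B ∈ Icc _ _ from
        ⟨by simp only [z]; exact hpos.le, h1⟩)
    simp only at e
    have hc0 : 0 < c := by
      refine hc.1.lt_of_ne ?_
      rintro rfl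
      rw [z] at e
      exact hpos.ne e
    obtain ⟨a1, a2, a3⟩ := int_El hp hM hσ h0 hi hV hVi hc0.le
    have g := HG c hc0.le e.le
    refine ⟨c, hc0, e.le, ?_, ?_⟩
    all_goals
      rw [e] at *
      set S := ∫ x, σ x ∂μ
      set G := ∫ x, σ x * (vc p M (c * σ x) - V x) ∂μ
      set W := ∫ x, V x ^ p ∂μ
    · have b1 : (W - (1 + ρ) * B) / p ≤ 0 :=
        div_nonpos_of_nonpos_of_nonneg (by nlinarith) hp0.le
      have b2 : c * G ≤ c * (ρ * Λ + 2 * ρ ^ 2 * S) :=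
        mul_le_mul_of_nonneg_left (by nlinarith [mul_pos (pow_pos hρ 2) hS]) hc0.le
      refine le_of_mul_le_mul_left (a2.trans ?_) hc0
      have := mul_le_mul_of_nonneg_left (add_le_add b1 b2) (show 0 ≤ 3 * M by positivity)
      linarith
    · have b1 : 0 ≤ W - (1 + ρ) * B + p * (c * G) := by
        have := mul_nonneg hp0.le a1
        rwa [mul_add, mul_div_cancel₀ _ hp0.ne'] at this
      have b2 : p * (c * G) ≤ p * (c * (ρ * Λ + ρ ^ 2 * S)) :=
        mul_le_mul_of_nonneg_left (mul_le_mul_of_nonneg_left g hc0.le) hp0.le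
      have b3 : (1 - ρ) * B ≤ p * c * (Λ + ρ * S) := by
        refine le_of_mul_le_mul_left ?_ hρ
        linarith
      have b4 : ρ * B ≤ ρ * (c * M * S) :=
        mul_le_mul_of_nonneg_left (le_trans (by nlinarith) a3) hρ.le
      linarith
  · push Not at hcase
    have hc0 : 0 < (1 + ρ) * B / (ρ ^ 2 * ∫ x, σ x ∂μ) := by positivity
    have ec : (1 + ρ) * B / (ρ ^ 2 * ∫ x, σ x ∂μ) * (ρ ^ 2 * ∫ x, σ x ∂μ) = (1 + ρ) * B :=
      div_mul_cancel₀ _ (by positivity)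
    generalize (1 + ρ) * B / (ρ ^ 2 * ∫ x, σ x ∂μ) = c at hc0 ec
    have h1 := (hcase c hc0).le
    obtain ⟨a1, a2, a3⟩ := int_El hp hM hσ h0 hi hV hVi hc0.le
    have g := HG c hc0.le h1
    have hN : 0 ≤ ∫ x, vc p M (c * σ x) ^ p ∂μ := integral_nonneg fun x =>
      Real.rpow_nonneg (vc_nonneg hM.le (mul_nonneg hc0.le (h0 x))) _
    refine ⟨c, hc0, h1, ?_, ?_⟩
    all_goals
      set S := ∫ x, σ x ∂μ
      set G := ∫ x, σ x * (vc p M (c * σ x) - V x) ∂μ
      set W := ∫ x, V x ^ p ∂μ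
      set N := ∫ x, vc p M (c * σ x) ^ p ∂μ
    · have b1 : (W - N) / p ≤ (1 + ρ) * B := by
        rw [div_le_iff₀ hp0]
        have : (1 + ρ) * B * 1 ≤ (1 + ρ) * B * p :=
          mul_le_mul_of_nonneg_left hp1.le (by positivity)
        nlinarith
      have b2 : c * G ≤ c * (ρ * Λ + ρ ^ 2 * S) := mul_le_mul_of_nonneg_left g hc0.le
      refine le_of_mul_le_mul_left (a2.trans ?_) hc0
      have := mul_le_mul_of_nonneg_left (add_le_add b1 b2) (show 0 ≤ 3 * M by positivity)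
      rw [← ec] at this
      linarith
    · refine h1.trans ?_
      rw [← ec]
      refine mul_le_mul_of_nonneg_left ?_ hc0.le
      have b1 : ρ ^ 2 * S ≤ ρ * (p + 2 * M) * S :=
        mul_le_mul_of_nonneg_right (by nlinarith) hS.le
      have b2 : 0 ≤ p * Λ := by positivity
      linarith

end Pool.Agent.MP_e4cac8_mp.Cr

end

section
set_option autoImplicit false
set_option linter.unusedSectionVars false

open Set MeasureTheory Filter Topology
open scoped ENNReal NNReal SchwartzMap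
open Pool.Agent.MP_0b7119_mp.G

namespace Pool.Agent.MP_e4cac8_mp.Cr

variable {E : Type} [NormedAddCommGroup E] [InnerProductSpace ℝ E] [FiniteDimensional ℝ E]
  [MeasurableSpace E] [BorelSpace E]

theorem tr_Scr {L : ℝ≥0} {ρ : E → ℝ} {φ y : ℝ → ℝ} (hl : Lev L ρ) (h : Rearr L ρ φ y)
    (hc : (0 : ℝ) < Module.finrank ℝ E * om E) {G : ℝ → ℝ} (hG : Measurable G) (h0 : G 0 = 0)
    (hi : Integrable (fun x => G (ρ x)) volume) :
    IntegrableOn (fun r => G (φ r) * r ^ (Module.finrank ℝ E - 1)) (Ioi 0) volume ∧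
      ∫ x, G (ρ x) = Module.finrank ℝ E * om E *
        ∫ r in Ioi (0 : ℝ), G (φ r) * r ^ (Module.finrank ℝ E - 1) := by
  obtain ⟨h1, h2⟩ := Cmp.transfer2 hl.lip.continuous.measurable h (G := fun _ t => G t) hG
    (fun _ _ => rfl) h0 hc hi.integrableOn
  refine ⟨h1, Eq.trans (setIntegral_eq_integral_of_forall_compl_eq_zero fun x hx => ?_).symm h2⟩
  rw [le_antisymm (not_lt.1 hx) (hl.nonneg x), h0]

theorem y_Scr {L : ℝ≥0} {ρ : E → ℝ} {φ y : ℝ → ℝ} (hρ : Measurable ρ) (h : Rearr L ρ φ y)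
    (hy : IntegrableOn (fun x => y (ρ x) ^ 2) {x | 0 < ρ x} volume)
    (hg : IntegrableOn (fun x => ‖fderiv ℝ ρ x‖ ^ 2) {x | 0 < ρ x} volume) :
    ∫ x in {x | 0 < ρ x}, y (ρ x) ^ 2 ≤ ∫ x in {x | 0 < ρ x}, ‖fderiv ℝ ρ x‖ ^ 2 := by
  have hle : ∀ x, y (ρ x) * ‖fderiv ℝ ρ x‖ ≤ (y (ρ x) ^ 2 + ‖fderiv ℝ ρ x‖ ^ 2) / 2 :=
    fun x => by nlinarith [sq_nonneg (y (ρ x) - ‖fderiv ℝ ρ x‖)]
  have h3 := (hy.add hg).div_const 2
  have h2 : IntegrableOn (fun x => y (ρ x) * ‖fderiv ℝ ρ x‖) {x | 0 < ρ x} volume :=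
    h3.mono' ((h.meas.comp hρ).mul (measurable_fderiv ℝ ρ).norm).aestronglyMeasurable
      (Eventually.of_forall fun x => by
        rw [Real.norm_of_nonneg (mul_nonneg (h.ynn _).1 (norm_nonneg _))]
        exact hle x)
  have h4 := Cmp.iso_real h h.meas (fun t => (h.ynn t).1) (by simpa only [sq] using hy) h2
  have h5 := integral_mono h2 h3 hle
  simp only [Pi.add_apply] at h5
  rw [integral_div, integral_add hy hg] at h5
  simp only [← sq] at h4
  linarith

theorem sScr (h1 : SSc1) (hF : SFf) : SScr E := by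
  intro p κ b M L ρ hn hp hκ hb hbM hl hρ2 hg hA
  have hB : StBM E := by apply stBM; exact hn
  have hI : StIso E := by apply stIso; exacts [hn, hB]
  obtain ⟨φ, y, h⟩ := stRe E hn hB hI L ρ hl
  have hn' : (2 : ℝ) ≤ Module.finrank ℝ E := by exact_mod_cast hn
  have p1 : 1 < p := by linarith
  have hM : 0 < M := hb.trans_le hbM
  have hc : (0 : ℝ) < Module.finrank ℝ E * om E := mul_pos (by linarith) om_pos
  have hk : ((Module.finrank ℝ E - 1 : ℕ) : ℝ) + 1 = Module.finrank ℝ E := by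
    rw [Nat.cast_sub (by omega)]
    simp
  have hρ : Measurable ρ := hl.lip.continuous.measurable
  have hφ : Measurable φ := h.lip.continuous.measurable
  obtain ⟨f, fd, f0, fi⟩ := hF p M p1 hM
  obtain ⟨s, hs⟩ : ∃ s, s = p / (p - 1) := ⟨_, rfl⟩
  rw [← hs] at fd ⊢
  have s0 : 0 ≤ s := hs ▸ div_nonneg (by linarith) (by linarith)
  have fdf : Differentiable ℝ f := fun t => (fd t).differentiableAt
  have fm : Monotone f := monotone_of_deriv_nonneg fdf fun t => by rw [(fd t).deriv]; positivity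
  have fl : LipschitzWith ⟨s * √M, by positivity⟩ f :=
    lipschitzWith_of_nnnorm_deriv_le fdf fun t => by
      rw [← NNReal.coe_le_coe, coe_nnnorm, (fd t).deriv, Real.norm_of_nonneg (by positivity)]
      exact mul_le_mul_of_nonneg_left (Real.sqrt_le_sqrt (vc_le _ _ _)) s0
  have fn : ∀ t, 0 ≤ t → 0 ≤ f t := fun t ht => f0 ▸ fm ht
  have fu : ∀ t, 0 ≤ t → f t ≤ s * √M * t := fun t ht => by
    have := fl.dist_le_mul t 0
    rwa [f0, Real.dist_eq, Real.dist_eq, sub_zero, sub_zero, abs_of_nonneg (fn t ht),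
      abs_of_nonneg ht] at this
  have mv : Measurable fun t : ℝ => vc p M (t ^ 2) :=
    (vc_cont p1 M).measurable.comp (measurable_id.pow_const 2)
  have v0 : vc p M (0 ^ 2) = 0 := by rw [zero_pow two_ne_zero, vc_zero p1 hM.le]
  have bρ : Bm M fun x => vc p M (ρ x ^ 2) := bm_vc p1 hM.le (hρ.pow_const 2) fun _ => sq_nonneg _
  have bφ : Bm M fun r => vc p M (φ r ^ 2) := bm_vc p1 hM.le (hφ.pow_const 2) fun _ => sq_nonneg _
  have i1 := bρ.int hρ2
  have i2 := bρ.int i1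
  have i3 := int_vc p1 hM.le (hρ.pow_const 2) (fun _ => sq_nonneg _) hρ2
  obtain ⟨a1, -⟩ := tr_Scr hl h hc (G := fun t => t ^ 2) (measurable_id.pow_const 2) (by simp) hρ2
  obtain ⟨a2, e2⟩ := tr_Scr hl h hc (G := fun t => vc p M (t ^ 2) ^ p) (mv.pow_const p)
    (by simp only [v0]; exact Real.zero_rpow (by linarith)) i3
  obtain ⟨a3, e3⟩ := tr_Scr hl h hc (G := fun t => t ^ 2 * vc p M (t ^ 2) * (vc p M (t ^ 2) - b) +
      (p - 1)⁻¹ * (M - b) * (t ^ 2 * vc p M (t ^ 2) - vc p M (t ^ 2) ^ p))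
    ((((measurable_id.pow_const 2).mul mv).mul (mv.sub_const b)).add
      ((((measurable_id.pow_const 2).mul mv).sub (mv.pow_const p)).const_mul _))
    (by simp only [v0]; rw [Real.zero_rpow (by linarith)]; ring)
    (((i2.sub (i1.const_mul b)).add ((i1.sub i3).const_mul ((p - 1)⁻¹ * (M - b)))).congr
      (Eventually.of_forall fun x => by simp only [Pi.add_apply, Pi.sub_apply]; ring))
  have iy := Cmp.int_y hρ h hρ2 hg
  obtain ⟨a4, e4⟩ := Cmp.transfer2 hρ h (G := fun s _ => s ^ 2) (h.meas.pow_const 2)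
    (fun _ _ => neg_sq _) (by simp) hc iy
  have e5 := y_Scr hρ h iy hg
  obtain ⟨k, hk'⟩ : ∃ k, k = Module.finrank ℝ E - 1 := ⟨_, rfl⟩
  rw [Ac, e2] at hA
  rw [← hk'] at hk a1 a2 a3 a4 e3 e4 hA
  have a5 : IntegrableOn (fun r => f (φ r) ^ 2 * r ^ k) (Ioi 0) volume :=
    (a1.const_mul ((s * √M) ^ 2)).mono'
      (((fl.continuous.measurable.comp hφ).pow_const 2).mul
        (measurable_id.pow_const k)).aestronglyMeasurable (by
      filter_upwards [ae_restrict_mem measurableSet_Ioi] with r hr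
      have r0 : 0 ≤ r ^ k := pow_nonneg (le_of_lt hr) k
      rw [Real.norm_of_nonneg (mul_nonneg (sq_nonneg _) r0), ← mul_assoc, ← mul_pow]
      exact mul_le_mul_of_nonneg_right
        (pow_le_pow_left₀ (fn _ (h.nonneg r)) (fu _ (h.nonneg r)) 2) r0)
  have t := h1 k p κ b M (fun r => f (φ r)) (fun r => vc p M (φ r ^ 2))
    (fun r => κ * s ^ 2 * deriv φ r ^ 2) (by rwa [hk]) hκ hb (fm.comp_antitone h.anti)
    ⟨_, fl.comp h.lip⟩ (fun r => fn _ (h.nonneg r)) bφ (fun r => by positivity)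
    (by
      filter_upwards [h.lip.ae_differentiableAt] with r hr _
      have d : HasDerivAt (fun r => f (φ r)) _ r := (fd (φ r)).comp r hr.hasDerivAt
      rw [d.deriv, mul_pow, mul_pow, Real.sq_sqrt (bφ.nonneg r)]
      exact le_of_eq (by ring))
    (by simp only [mul_assoc (κ * s ^ 2)]; exact a4.const_mul (κ * s ^ 2)) a5 a2
    (by rw [hk]; exact lt_of_mul_lt_mul_left hA hc.le)
  have u := setIntegral_mono_on a3
    (g := fun r => (vc p M (φ r ^ 2) - b) * f (φ r) ^ 2 * r ^ k)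
    (Integrable.congr ((bφ.int a5).sub (a5.const_mul b))
      (Eventually.of_forall fun x => by simp only [Pi.sub_apply]; ring)) measurableSet_Ioi
    fun r hr => mul_le_mul_of_nonneg_right (fi _ b (h.nonneg r) hbM) (pow_nonneg (le_of_lt hr) k)
  simp only [mul_assoc (κ * s ^ 2)] at t
  rw [integral_const_mul] at t
  rw [e3]
  calc _ ≤ Module.finrank ℝ E * om E * (κ * s ^ 2 * ∫ r in Ioi (0 : ℝ), deriv φ r ^ 2 * r ^ k) :=
        mul_le_mul_of_nonneg_left (u.trans t) hc.le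
    _ = κ * s ^ 2 * ∫ x in {x | 0 < ρ x}, y (ρ x) ^ 2 := by rw [e4]; ring
    _ ≤ _ := mul_le_mul_of_nonneg_left e5 (by positivity)

end Pool.Agent.MP_e4cac8_mp.Cr

end

section
/-! The norm of the optimal potential. -/

set_option autoImplicit false
set_option linter.unusedSectionVars false

open Set MeasureTheory Filter Topology
open scoped ENNReal NNReal SchwartzMap
open Pool.Agent.MP_0b7119_mp.G

namespace Pool.Agent.MP_e4cac8_mp.Cr

variable {E : Type} [NormedAddCommGroup E] [InnerProductSpace ℝ E] [FiniteDimensional ℝ E]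
  [MeasurableSpace E] [BorelSpace E]

theorem sNorm (hI : SI1) (hR : SRn) : SNorm E := by
  intro p m hn hp hm
  have : Nontrivial E := Module.nontrivial_of_finrank_pos (R := ℝ) (by omega)
  have hk : ((Module.finrank ℝ E - 1 : ℕ) : ℝ) + 1 = Module.finrank ℝ E := by
    exact_mod_cast (by omega : Module.finrank ℝ E - 1 + 1 = Module.finrank ℝ E)
  have hD : (2 : ℝ) ≤ Module.finrank ℝ E := by exact_mod_cast hn
  have hp0 : 0 < p := by linarith
  have hpD : 0 < p - Module.finrank ℝ E := by linarith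
  have hμ : 0 < (p - Module.finrank ℝ E) / (2 * m) := by positivity
  obtain ⟨i1, i2⟩ := hR (Module.finrank ℝ E - 1) p m _ (by rwa [hk]) hμ (by
    rw [hk]; field_simp)
  rw [hk] at i2
  generalize (p - Module.finrank ℝ E) / (2 * m) = μ at hμ i1 i2
  have hA : 0 < Ac E p 1 (2 * m) := by
    have h1 := (hI (Module.finrank ℝ E - 1) p (by rwa [hk])).2
    have h2 := om_pos (E := E)
    unfold Ac Cp
    positivity
  have hAp : (Ac E p 1 (2 * m) ^ p⁻¹) ^ p = Ac E p 1 (2 * m) := Real.rpow_inv_rpow hA.le hp0.ne'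
  have hA0 := Real.rpow_pos_of_pos hA p⁻¹
  have h0 : ∀ x : E, 0 ≤ p * μ / (μ ^ 2 + ‖x‖ ^ 2) := fun x => by positivity
  have hint : Integrable (fun x : E => (p * μ / (μ ^ 2 + ‖x‖ ^ 2)) ^ p) volume :=
    (integrable_fun_norm_addHaar volume (f := fun r : ℝ => (p * μ / (μ ^ 2 + r ^ 2)) ^ p)).2
      (by simpa only [smul_eq_mul, mul_comm] using i1)
  have hval : ∫ x : E, (p * μ / (μ ^ 2 + ‖x‖ ^ 2)) ^ p = (Ac E p 1 (2 * m) ^ p⁻¹) ^ p := by
    rw [hAp, integral_fun_norm_addHaar volume fun r : ℝ => (p * μ / (μ ^ 2 + r ^ 2)) ^ p, Ac,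
      ← i2, om, nsmul_eq_mul, smul_eq_mul, mul_assoc]
    simp only [smul_eq_mul, mul_comm]
  have hP : PotR p (Ac E p 1 (2 * m) ^ p⁻¹) fun x : E => p * μ / (μ ^ 2 + ‖x‖ ^ 2) :=
    ⟨by fun_prop, h0, hint, hval.le⟩
  exact ⟨_, hA0, hAp, (eLp_iff hp0 hA0.le h0 (memLp_of_potR hp0 hP)).2.2 hval⟩

end Pool.Agent.MP_e4cac8_mp.Cr

end

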