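import Pool.Agent.MP_e4cac8_mp.Cr.St

section
set_option autoImplicit false
set_option linter.unusedSectionVars false

open Set MeasureTheory Filter Topology
open scoped ENNReal NNReal SchwartzMap
open Pool.Agent.MP_0b7119_mp.G

namespace Pool.Agent.MP_e4cac8_mp.Cr

variable {E S : Type} [NormedAddCommGroup E] [InnerProductSpace ℝ E] [FiniteDimensional ℝ E]
  [MeasurableSpace E] [BorelSpace E] [NormedAddCommGroup S] [InnerProductSpace ℂ S]
  [CompleteSpace S] [FiniteDimensional ℂ S] {d : ℕ}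
  {e : OrthonormalBasis (Fin d) ℝ E} {α : Fin d → S →L[ℂ] S} {β : S →L[ℂ] S} {m : ℝ}

open F1 in
theorem pt_Pos (h : IsDiracRep α β) {l : ℝ} (hl : l ^ 2 ≤ m ^ 2) (Z t : S) {p : S}
    (hp : p = Z + (m : ℂ) • β t) : m * R Z (β t) ≤ R p (p - (l : ℂ) • t) := by
  have h1 := sq_nonneg ‖p - (l : ℂ) • t‖
  have h2 := sq_nonneg ‖Z‖
  have h3 : R p p = R Z Z + 2 * m * R Z (β t) + m ^ 2 * ‖t‖ ^ 2 := by
    rw [hp, ← norm_β_apply h t]
    simp only [R_self, R_add_left, R_add_right, R_smul_left, R_smul_right, R_symm (β t) Z]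
    ring
  have h4 := mul_le_mul_of_nonneg_right hl (sq_nonneg ‖t‖)
  simp only [R_self, R_sub_left, R_sub_right, R_smul_left, R_smul_right, R_symm t p] at *
  nlinarith

theorem lin_Pos (c k : ℂ) (P T : 𝓢(E, S)) :
    JK.Dop e α β m c (P - k • T) = JK.Dop e α β m c P - k • JK.Dop e α β m c T := by
  ext x
  have h1 : fderiv ℝ (⇑(P - k • T)) x = fderiv ℝ P x - k • fderiv ℝ T x :=
    ((P.hasFDerivAt x).sub ((T.hasFDerivAt x).const_smul k)).fderiv
  simp only [JK.Dop_apply, dirac, h1, sub_apply, smul_apply, map_sub, map_smul, smul_sub,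
    Finset.sum_sub_distrib, smul_add, Finset.smul_sum, smul_comm k]
  abel

theorem form_Pos (h : IsDiracRep α β) {l : ℝ} (hl : l ∈ Ioo (-m) m) (g Φ : 𝓢(E, S)) :
    Bf (rk e α β m l) g (JK.Dop e α β m (-(l : ℂ)) Φ) = ∫ x, F1.R (g x) (Φ x) := by
  have hr := ks_rk h e m l
  have hi := integrable_rk h e hl
  have g2 := g.memLp 2 (volume : Measure E)
  have D2 := (JK.Dop e α β m (-(l : ℂ)) Φ).memLp 2 (volume : Measure E)
  rw [Bf_eq hr.meas g2.1 D2.1 (schur_l2 hr hi g2 D2).1,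
    JK.cv_Dop e h (gap_pos hl) hi (JK.fourier_rk e α β (gap_pos hl)) Φ]
  rfl

open F1 in
theorem sch_Pos (hc : Ctx α β m) {l : ℝ} (hl : l ∈ Ioc (-m) 0) (g : 𝓢(E, S)) :
    Bf (rk e α β m l) g g ≤ Bf (rk e α β m 0) g g := by
  have h := hc.rep
  have hl' : l ∈ Ioo (-m) m := ⟨hl.1, hl.2.trans_lt hc.pos⟩
  have h0 : (0 : ℝ) ∈ Ioo (-m) m := ⟨by linarith [hc.pos], hc.pos⟩
  obtain ⟨P, hP⟩ := JK.Dop_surj e h (gap_pos hl') g
  obtain ⟨T, hT⟩ := JK.Dop_surj e h (gap_pos h0) P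
  have h1 : JK.Dop e α β m (-((0 : ℝ) : ℂ)) (P - (l : ℂ) • T) = g := by
    rw [lin_Pos, hT, ← hP]
    ext x
    simp [JK.Dop_apply, sub_eq_add_neg]
  have e1 := form_Pos (e := e) h hl' g P
  have e2 := form_Pos (e := e) h h0 g (P - (l : ℂ) • T)
  have e3 := form_Pos (e := e) h h0 g T
  have e4 := form_Pos (e := e) h h0 P (P - (l : ℂ) • T)
  rw [hP] at e1
  rw [h1] at e2 e4
  rw [hT, Bf_symm (ks_rk h e m 0), e4] at e3
  have g2 := g.memLp 2 (volume : Measure E)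
  have P2 := P.memLp 2 (volume : Measure E)
  have T2 := T.memLp 2 (volume : Measure E)
  have e5 : ∫ x, R (g x) ((P - (l : ℂ) • T) x) =
      (∫ x, R (g x) (P x)) - l * ∫ x, R (g x) (T x) := by
    rw [← integral_const_mul, ← integral_sub (int_R g2 P2) ((int_R g2 T2).const_mul l)]
    refine integral_congr_ae (Eventually.of_forall fun x => ?_)
    simp only [sub_apply, smul_apply, R_sub_right, R_smul_right]
  have e6 := integral_mono ((int_R ((JK.Dop e α β 0 0 T).memLp 2 (volume : Measure E))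
    (memLp_clm β T2)).const_mul m) (int_R P2 ((P - (l : ℂ) • T).memLp 2 volume)) fun x =>
      pt_Pos h (by linarith [gap_pos hl']) (JK.Dop e α β 0 0 T x) (T x)
        (by rw [← hT]; simp [JK.Dop_apply, dirac])
  rw [integral_const_mul, ibp1 e h, mul_zero, e3] at e6
  rw [e1, e2, e5]
  nlinarith [mul_nonneg (neg_nonneg.2 hl.2) e6]

theorem mono_Pos (hc : Ctx α β m) {l : ℝ} (hl : l ∈ Ioc (-m) 0) {F : E → S}
    (hF : MemLp F 2 volume) : Bf (rk e α β m l) F F ≤ Bf (rk e α β m 0) F F := by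
  have h := hc.rep
  have hl' : l ∈ Ioo (-m) m := ⟨hl.1, hl.2.trans_lt hc.pos⟩
  have h0 : (0 : ℝ) ∈ Ioo (-m) m := ⟨by linarith [hc.pos], hc.pos⟩
  have key : ∀ G : Lp S 2 (volume : Measure E),
      Bf (rk e α β m l) G G ≤ Bf (rk e α β m 0) G G := fun G => by
    refine (SchwartzMap.denseRange_toLpCLM (F := S) (p := 2) (μ := (volume : Measure E))
      ENNReal.ofNat_ne_top).induction_on G (isClosed_le
        (F1.cont_Bf (ks_rk h e m l) (integrable_rk h e hl'))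
        (F1.cont_Bf (ks_rk h e m 0) (integrable_rk h e h0))) fun g => ?_
    have hg : (SchwartzMap.toLpCLM ℝ S 2 volume g : E → S) =ᵐ[volume] g := g.coeFn_toLp 2 volume
    rw [Bf_congr _ hg hg, Bf_congr _ hg hg]
    exact sch_Pos hc hl g
  have hG := hF.coeFn_toLp
  have k := key (hF.toLp F)
  rwa [Bf_congr _ hG hG, Bf_congr _ hG hG] at k

theorem sPos (hc : Ctx α β m) : SPos e α β m := by
  intro p hp
  have hm := hc.pos
  have h0 : (0 : ℝ) ∈ Ioo (-m) m := ⟨by linarith, hm⟩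
  obtain ⟨C, hC, hb⟩ := (all2 e m hc).hb p hp
  have hK : 0 < C * (m ^ 2 - 0 ^ 2) ^ ((d : ℝ) / (2 * p) - 1) :=
    mul_pos hC (Real.rpow_pos_of_pos (gap_pos h0) _)
  refine ⟨_, inv_pos.2 hK, fun a ha M W hW hM g hg => ?_⟩
  have h1 := hb 0 h0 p le_rfl _ W (inv_pos.2 hK).le hW
  rw [mul_inv_cancel₀ hK.ne'] at h1
  exact (mono_Pos hc ⟨by linarith [ha.1], by linarith [ha.2]⟩ (memLp_sv hW.meas hM hg)).trans
    (bs_of_adm (ks_rk hc.rep e m 0) hW.meas hW.nonneg h1 g hg)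

end Pool.Agent.MP_e4cac8_mp.Cr

end

section
/-! From the Birman-Schwinger bound to the form on upper spinors. -/

set_option autoImplicit false
set_option linter.unusedSectionVars false

open Set MeasureTheory Filter Topology
open scoped ENNReal NNReal SchwartzMap
open Pool.Agent.MP_0b7119_mp.G

namespace Pool.Agent.MP_e4cac8_mp.Cr

variable {E S : Type} [NormedAddCommGroup E] [InnerProductSpace ℝ E] [FiniteDimensional ℝ E]
  [MeasurableSpace E] [BorelSpace E] [NormedAddCommGroup S] [InnerProductSpace ℂ S]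
  [CompleteSpace S] [FiniteDimensional ℂ S] {d : ℕ}
  {e : OrthonormalBasis (Fin d) ℝ E} {α : Fin d → S →L[ℂ] S} {β : S →L[ℂ] S} {m : ℝ}

open F1 LineDeriv in
theorem sym_Bt (h : IsDiracRep α β) (u Φ : 𝓢(E, S)) :
    ∫ x, R (u x) (JK.Dop e α β 0 0 Φ x) = ∫ x, R (JK.Dop e α β 0 0 u x) (Φ x) := by
  have hi : ∀ (j : Fin d) (P Q : 𝓢(E, S)),
      Integrable (fun x => inner ℂ (α j ((-Complex.I) • P x)) (Q x)) volume := fun j P Q =>
    JD.int_inner (memLp_clm _ ((P.memLp 2).const_smul _)) (Q.memLp 2)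
  have hs : ∀ (j : Fin d) (p q : S), R p (α j ((-Complex.I) • q)) =
      -R (α j ((-Complex.I) • p)) q := by
    intro j p q
    have h2 : inner ℂ (α j p) q = inner ℂ p (α j q) := by
      rw [← inner_star_left (α j), (h.sa_α j).star_eq]
    simp only [R, map_smul, inner_smul_left, inner_smul_right, h2]
    generalize inner ℂ p (α j q) = z
    simp
  have hj : ∀ j : Fin d, ∫ x, -R (α j ((-Complex.I) • u x)) (∂_{e j} Φ x) =
      ∫ x, R (α j ((-Complex.I) • ∂_{e j} u x)) (Φ x) := by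
    intro j
    have h1 := SchwartzMap.integral_bilinear_lineDerivOp_right_eq_neg_left (μ := volume) u Φ
      ((isBoundedBilinearMap_inner (𝕜 := ℂ) (E := S)).toContinuousLinearMap.bilinearComp
        (((-Complex.I) • α j).restrictScalars ℝ) (ContinuousLinearMap.id ℝ S)) (e j)
    have h2 : ∫ x, inner ℂ (α j ((-Complex.I) • u x)) (∂_{e j} Φ x) =
        -∫ x, inner ℂ (α j ((-Complex.I) • ∂_{e j} u x)) (Φ x) := by
      simpa only [ContinuousLinearMap.bilinearComp_apply,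
        IsBoundedBilinearMap.toContinuousLinearMap_apply, ContinuousLinearMap.id_apply,
        ContinuousLinearMap.coe_restrictScalars', smul_apply, map_smul] using h1
    have h3 := congrArg Complex.re h2
    have h4 := integral_re (𝕜 := ℂ) (hi j u (∂_{e j} Φ))
    have h5 := integral_re (𝕜 := ℂ) (hi j (∂_{e j} u) Φ)
    simp only [RCLike.re_to_complex] at h4 h5
    rw [Complex.neg_re, ← h4, ← h5] at h3
    rw [integral_neg]
    exact neg_eq_iff_eq_neg.2 h3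
  have e1 : ∀ x, R (JK.Dop e α β 0 0 u x) (Φ x) =
      ∑ j, R (α j ((-Complex.I) • ∂_{e j} u x)) (Φ x) := by
    intro x
    rw [D0_apply, R, sum_inner, Complex.re_sum]; rfl
  have e2 : ∀ x, R (u x) (JK.Dop e α β 0 0 Φ x) =
      ∑ j, -R (α j ((-Complex.I) • u x)) (∂_{e j} Φ x) := by
    intro x
    rw [D0_apply, R, inner_sum, Complex.re_sum]
    exact Finset.sum_congr rfl fun j _ => hs j _ _
  simp only [e1, e2]
  exact (integral_finsetSum _ fun j _ => (hi j u (∂_{e j} Φ)).re.neg).trans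
    ((Finset.sum_congr rfl fun j _ => hj j).trans
      (integral_finsetSum _ fun j _ => (hi j (∂_{e j} u) Φ).re).symm)

open F1 in
theorem low_Bt (h : IsDiracRep α β) {l : ℝ} (hl : l ∈ Ioo (-m) m) {v Z F : E → S}
    (hv : MemLp v 2 volume) (hZ : MemLp Z 2 volume) (hF : MemLp F 2 volume)
    (h1 : ∀ x, β (v x) = v x) (h2 : ∀ x, β (Z x) = -Z x)
    (h3 : ∀ Φ : 𝓢(E, S), ∫ x, R (v x) (JK.Dop e α β 0 0 Φ x) = ∫ x, R (Z x) (Φ x)) :
    2 * (∫ x, R (v x) (F x)) + 2 / (m + l) * (∫ x, R (Z x) (F x)) -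
      (∫ x, ‖Z x‖ ^ 2) / (m + l) - (m - l) * ∫ x, ‖v x‖ ^ 2 ≤
      Bf (rk e α β m l) F F + JD.I2 (fun x => (2⁻¹ : ℂ) • (F x - β (F x))) / (m + l) := by
  have hr := ks_rk h e m l
  have hi := integrable_rk h e hl
  have key : ∀ G : Lp S 2 (volume : Measure E), 2 * (∫ x, R (v x) (G x)) +
      2 / (m + l) * (∫ x, R (Z x) (G x)) - (∫ x, ‖Z x‖ ^ 2) / (m + l) -
      (m - l) * ∫ x, ‖v x‖ ^ 2 ≤
      Bf (rk e α β m l) G G + JD.I2 (fun x => (2⁻¹ : ℂ) • (G x - β (G x))) / (m + l) := by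
    intro G
    refine (SchwartzMap.denseRange_toLpCLM (F := S) (p := 2) (μ := (volume : Measure E))
      ENNReal.ofNat_ne_top).induction_on G (isClosed_le
        (((((cont_R hv).const_mul 2).add ((cont_R hZ).const_mul _)).sub continuous_const).sub
          continuous_const) ((cont_Bf hr hi).add ((cont_I2 β).div_const _))) fun g => ?_
    obtain ⟨Φ, hΦ⟩ := JK.Dop_surj e h (gap_pos hl) g
    have hg : (SchwartzMap.toLpCLM ℝ S 2 volume g : E → S) =ᵐ[volume] g := g.coeFn_toLp 2 volume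
    have g2 := g.memLp 2 (volume : Measure E)
    have Φ2 := Φ.memLp 2 (volume : Measure E)
    have D2 := (JK.Dop e α β 0 0 Φ).memLp 2 (volume : Measure E)
    have P2 : MemLp (fun x => (2⁻¹ : ℂ) • (g x - β (g x))) 2 volume :=
      (g2.sub (memLp_clm β g2)).const_smul _
    have c1 : ∀ v : E → S, ∫ x, R (v x) (SchwartzMap.toLpCLM ℝ S 2 volume g x) =
        ∫ x, R (v x) (g x) := fun v => integral_congr_ae (hg.mono fun x hx => by simp only [hx])
    have c2 : JD.I2 (fun x => (2⁻¹ : ℂ) • (SchwartzMap.toLpCLM ℝ S 2 volume g x -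
        β (SchwartzMap.toLpCLM ℝ S 2 volume g x))) =
        ∫ x, ‖(2⁻¹ : ℂ) • (g x - β (g x))‖ ^ 2 :=
      JD.I2_congr (hg.mono fun x hx => by simp only [hx])
    have c3 : JK.cv (rk e α β m l) g = Φ := by
      rw [← hΦ]
      exact JK.cv_Dop e h (gap_pos hl) hi (JK.fourier_rk e α β (gap_pos hl)) Φ
    rw [c1, c1, c2, Bf_congr _ hg hg, Bf_eq hr.meas g2.1 g2.1 (schur_l2 hr hi g2 g2).1, c3]
    have i1 := (int_R hv g2).const_mul 2
    have i2 := (int_R hZ g2).const_mul (2 / (m + l))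
    have i3 := (JD.int_sq hZ).div_const (m + l)
    have i4 := (JD.int_sq hv).const_mul (m - l)
    have i5 := int_R D2 (memLp_clm β Φ2)
    have i6 := int_R hv D2
    have i7 := int_R hZ Φ2
    have i8 := int_R g2 Φ2
    have i9 := (JD.int_sq P2).div_const (m + l)
    have hm := integral_mono ((((i1.add i2).sub i3).sub i4).add (i5.sub ((i6.sub i7).const_mul 2)))
      (i8.add i9) fun x => pt m h hl (Φ x) (JK.Dop e α β 0 0 Φ x)
        (h1 x) (h2 x)
        (by rw [← hΦ]; simp [JK.Dop_apply, dirac])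
    rw [integral_add' (((i1.add i2).sub i3).sub i4) (i5.sub ((i6.sub i7).const_mul 2)),
      integral_sub' ((i1.add i2).sub i3) i4, integral_sub' (i1.add i2) i3, integral_add' i1 i2,
      integral_sub' i5 ((i6.sub i7).const_mul 2), integral_add' i8 i9, integral_const_mul,
      integral_const_mul, integral_const_mul, integral_const_mul, integral_div, integral_div,
      ibp1 e h] at hm
    have h67 := integral_sub' i6 i7
    rw [h3, sub_self] at h67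
    rw [h67] at hm
    simpa [R] using hm
  have hG := hF.coeFn_toLp
  have k := key (hF.toLp F)
  have c1 : ∀ v : E → S, ∫ x, R (v x) (hF.toLp F x) = ∫ x, R (v x) (F x) :=
    fun v => integral_congr_ae (hG.mono fun x hx => by simp only [hx])
  have c2 : JD.I2 (fun x => (2⁻¹ : ℂ) • (hF.toLp F x - β (hF.toLp F x))) =
      JD.I2 fun x => (2⁻¹ : ℂ) • (F x - β (F x)) :=
    JD.I2_congr (hG.mono fun x hx => by simp only [hx])
  rwa [c1, c1, c2, Bf_congr _ hG hG] at k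

open F1 in
theorem pt_Bt (h : IsDiracRep α β) {u n : S} (hβ : β u = u) (hn : β n = -n) (t w : ℝ) :
    ‖u + (t : ℂ) • n‖ ^ 2 = ‖u‖ ^ 2 + t * (t * ‖n‖ ^ 2) ∧
    R u ((w : ℂ) • (u + (t : ℂ) • n)) = w * ‖u‖ ^ 2 ∧
    R n ((w : ℂ) • (u + (t : ℂ) • n)) = w * (t * ‖n‖ ^ 2) ∧
    ‖(2⁻¹ : ℂ) • ((w : ℂ) • (u + (t : ℂ) • n) - β ((w : ℂ) • (u + (t : ℂ) • n)))‖ ^ 2 =
      w * (w * (t * (t * ‖n‖ ^ 2))) := by
  have o := orth h hβ hn
  have : (2⁻¹ : ℂ) • ((w : ℂ) • (u + (t : ℂ) • n) - β ((w : ℂ) • (u + (t : ℂ) • n))) =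
      (w : ℂ) • (t : ℂ) • n := by
    simp only [map_smul, map_add, hβ, hn]
    module
  simp only [this, R_self, R_add_left, R_add_right, R_smul_left, R_smul_right, R_symm n u, o]
  refine ⟨?_, ?_, ?_, ?_⟩ <;> ring

theorem sBt (hc : Ctx α β m) : SBt e α β m := by
  intro a ha M W hW hB u hu
  have hr := hc.rep
  have n1 : ∀ x, β (D0 e α β u x) = -D0 e α β u x := fun x => by
    rw [D0_eq, map_smul, ← smul_neg, Zf, map_sum, ← Finset.sum_neg_distrib]
    refine congrArg _ (Finset.sum_congr rfl fun j _ => ?_)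
    have h1 := Str.fd_clm β (u.differentiableAt (x := x)) (e j)
    simp only [hu] at h1
    have h2 := congrArg (fun T : S →L[ℂ] S => T (fderiv ℝ u x (e j))) (hr.αβ j)
    simp only [add_apply, mul_apply_eq_comp, zero_apply] at h2
    rw [← h1] at h2
    exact eq_neg_of_add_eq_zero_right h2
  obtain ⟨n, hn⟩ : ∃ n, n = D0 e α β u := ⟨_, rfl⟩
  have i1 := int_sq u
  have i2 := int_sq n
  have w0 : ∀ x, 0 < a + W x := fun x => by linarith [hW.nonneg x, ha.1]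
  have bt : Bm a⁻¹ fun x => (a + W x)⁻¹ := ⟨(measurable_const.add hW.meas).inv,
    fun x => (inv_pos.2 (w0 x)).le, fun x => inv_anti₀ ha.1 (by linarith [hW.nonneg x])⟩
  obtain ⟨h, hh⟩ : ∃ h : E → S, h = fun x => u x + (((a + W x)⁻¹ : ℝ) : ℂ) • n x := ⟨_, rfl⟩
  have hh' : ∀ x, u x + (((a + W x)⁻¹ : ℝ) : ℂ) • n x = h x := fun x => by rw [hh]
  have hp := fun x => pt_Bt hr (hu x) (hn ▸ n1 x : β (n x) = -n x) (a + W x)⁻¹ (W x)
  simp only [hh'] at hp
  have h2 : MemLp h 2 volume := by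
    have := (u.memLp 2 volume).add (memLp_mul bt 0 (n.memLp 2 volume))
    simp only [zero_add] at this
    exact hh ▸ this
  have h3 := memLp_sv hW.meas hW.le h2
  have k1 := hB _ h3
  have k2 := low_Bt (e := e) hr (mem_gap ha) (u.memLp 2 volume) (n.memLp 2 volume)
    (memLp_sv hW.meas hW.le h3) hu (fun x => hn ▸ n1 x) fun Φ => hn ▸ sym_Bt hr u Φ
  rw [I2_sv hW.nonneg] at k1
  rw [sv_sv hW.nonneg] at k1 k2
  simp only [JD.I2, (hp _).2.1, (hp _).2.2.1, (hp _).2.2.2, add_sub_cancel,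
    show m - (a - m) = 2 * m - a by ring] at k2
  simp only [(hp _).1, mul_add, one_mul] at k1
  rw [integral_add (hW.int i1) (hW.int (bt.int (bt.int i2)))] at k1
  simp only [one_pow, one_mul, ← hn]
  rw [P1.scal ha.1 w0 i1 i2 hW.int bt.int]
  linarith

end Pool.Agent.MP_e4cac8_mp.Cr

end

section
/-! Dilation of the potential and of the test spinor. -/

set_option autoImplicit false
set_option linter.unusedSectionVars false

open Set MeasureTheory Filter Topology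
open scoped ENNReal NNReal SchwartzMap
open Pool.Agent.MP_0b7119_mp.G

namespace Pool.Agent.MP_e4cac8_mp.Cr

variable {E S : Type} [NormedAddCommGroup E] [InnerProductSpace ℝ E] [FiniteDimensional ℝ E]
  [MeasurableSpace E] [BorelSpace E] [NormedAddCommGroup S] [InnerProductSpace ℂ S]
  [CompleteSpace S] [FiniteDimensional ℂ S] {d : ℕ}
  {e : OrthonormalBasis (Fin d) ℝ E} {α : Fin d → S →L[ℂ] S} {β : S →L[ℂ] S}

theorem dil_Dil {τ : ℝ} (hτ : τ ≠ 0) (u : 𝓢(E, S)) : ∃ v : 𝓢(E, S), (∀ x, v x = u (τ • x)) ∧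
    ∀ x, D0 e α β v x = (τ : ℂ) • D0 e α β u (τ • x) := by
  let g : E ≃L[ℝ] E := (LinearEquiv.smulOfNeZero ℝ E τ hτ).toContinuousLinearEquiv
  have hg : ∀ x, g x = τ • x := fun x => rfl
  refine ⟨SchwartzMap.compCLMOfContinuousLinearEquiv ℝ g u, fun x => rfl, fun x => ?_⟩
  rw [D0_eq, D0_eq, smul_comm, SchwartzMap.compCLMOfContinuousLinearEquiv_apply]
  congr 1
  rw [Zf, Zf, Finset.smul_sum]
  refine Finset.sum_congr rfl fun j _ => ?_
  rw [ContinuousLinearEquiv.comp_right_fderiv, ContinuousLinearMap.comp_apply,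
    ContinuousLinearEquiv.coe_coe, hg, hg, map_smul, ← Complex.coe_smul, map_smul]

theorem sDil : SDil e α β := by
  intro a b p A M h τ V hτ hV hi hle u hu
  have τ0 : 0 < τ := lt_of_lt_of_le one_pos hτ
  have τd : 0 < τ ^ d := pow_pos τ0 d
  have hP : PotR p A fun x => V (τ • x) := by
    refine ⟨hV.meas.comp (measurable_const_smul τ), fun x => hV.nonneg _,
      hi.comp_smul τ0.ne', ?_⟩
    rw [Measure.integral_comp_smul volume (fun x => V x ^ p) τ, finrank_eq e,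
      abs_of_pos (inv_pos.2 τd), smul_eq_mul, inv_mul_le_iff₀ τd]
    exact hle
  obtain ⟨v, hv, hD⟩ := dil_Dil (e := e) (α := α) (β := β) τ0.ne' u
  have h1 := h _ hP (fun x => hV.le _) v fun x => by rw [hv, hu]
  have h2 : (fun x => (1 : ℝ) ^ 2 * (‖D0 e α β v x‖ ^ 2 / (a + V (τ • x))) -
      (V (τ • x) - b) * ‖v x‖ ^ 2) = fun x => (fun y => τ ^ 2 *
      (‖D0 e α β u y‖ ^ 2 / (a + V y)) - (V y - b) * ‖u y‖ ^ 2) (τ • x) := by
    funext x
    rw [hD, hv, norm_smul, Complex.norm_real, Real.norm_of_nonneg τ0.le]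
    ring
  rw [h2, Measure.integral_comp_smul volume (fun y => τ ^ 2 *
      (‖D0 e α β u y‖ ^ 2 / (a + V y)) - (V y - b) * ‖u y‖ ^ 2) τ, finrank_eq e,
    abs_of_pos (inv_pos.2 τd), smul_eq_mul] at h1
  exact nonneg_of_mul_nonneg_right h1 (inv_pos.2 τd)

end Pool.Agent.MP_e4cac8_mp.Cr

end

section
/-! Approximate solutions from an almost critical Birman-Schwinger form. -/

set_option autoImplicit false
set_option linter.unusedSectionVars false

open Set MeasureTheory Filter Topology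
open scoped ENNReal NNReal SchwartzMap
open Pool.Agent.MP_0b7119_mp.G

namespace Pool.Agent.MP_e4cac8_mp.Cr

variable {E S : Type} [NormedAddCommGroup E] [InnerProductSpace ℝ E] [FiniteDimensional ℝ E]
  [MeasurableSpace E] [BorelSpace E] [NormedAddCommGroup S] [InnerProductSpace ℂ S]
  [CompleteSpace S] [FiniteDimensional ℂ S] {d : ℕ} {e : OrthonormalBasis (Fin d) ℝ E}
  {α : Fin d → S →L[ℂ] S} {β : S →L[ℂ] S} {m : ℝ}

theorem bd_Near {r : E → S →L[ℂ] S} (hr : Ks r) (hi : Integrable r volume) {F H : E → S}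
    (hF : MemLp F 2 volume) (hH : MemLp H 2 volume) {t : ℝ} (ht : 0 < t) :
    |Bf r F H| ≤ (t * ((∫ z, ‖r z‖) * JD.I2 F) + t⁻¹ * ((∫ z, ‖r z‖) * JD.I2 H)) / 2 :=
  (abs_Bf_le (schur_l2 hr hi hF hH).1).trans ((schur_l2 hr hi hF hH).2 t ht)

theorem ib_Near {r : E → S →L[ℂ] S} (hr : Ks r) (hi : Integrable r volume) {F H : E → S}
    (hF : MemLp F 2 volume) (hH : MemLp H 2 volume) :
    Integrable (bi r F H) (volume.prod volume) :=
  int_bi hr.meas hF.1 hH.1 (schur_l2 hr hi hF hH).1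

theorem sv_le_Near {M : ℝ} {V : E → ℝ} (hV : Bm M V) {g : E → S} (hg : MemLp g 2 volume) :
    JD.I2 (sv V g) ≤ M * JD.I2 g := by
  rw [I2_sv hV.nonneg, JD.I2, ← integral_const_mul]
  exact integral_mono (hV.int (JD.int_sq hg)) ((JD.int_sq hg).const_mul M) fun x =>
    mul_le_mul_of_nonneg_right (hV.le x) (sq_nonneg _)

theorem dense_Near {F : E → S} (hF : MemLp F 2 volume) {c : ℝ} (hc : 0 < c) :
    ∃ g : 𝓢(E, S), JD.I2 (fun x => g x - F x) ≤ c := by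
  obtain ⟨g, hg⟩ := (SchwartzMap.denseRange_toLpCLM (F := S) (p := 2) (μ := (volume : Measure E))
    ENNReal.ofNat_ne_top).exists_dist_lt (hF.toLp F) (Real.sqrt_pos.2 hc)
  refine ⟨g, ?_⟩
  rw [dist_comm, dist_eq_norm] at hg
  have h1 : (SchwartzMap.toLpCLM ℝ S 2 volume g : E → S) =ᵐ[volume] g := g.coeFn_toLp 2 volume
  have h2 : JD.I2 (fun x => g x - F x) = ‖SchwartzMap.toLpCLM ℝ S 2 volume g - hF.toLp F‖ ^ 2 := by
    rw [JD.norm_sq_Lp]
    refine JD.I2_congr ?_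
    filter_upwards [Lp.coeFn_sub (SchwartzMap.toLpCLM ℝ S 2 volume g) (hF.toLp F), h1,
      hF.coeFn_toLp] with x k1 k2 k3
    rw [k1, Pi.sub_apply, k2, k3]
  rw [h2]
  exact ((Real.lt_sqrt (norm_nonneg _)).1 hg).le

theorem quad_Near {r : E → S →L[ℂ] S} (hr : Ks r) (hi : Integrable r volume) {F H : E → S}
    (hF : MemLp F 2 volume) (hH : MemLp H 2 volume) (t : ℝ) :
    Bf r (fun x => F x + (t : ℂ) • H x) (fun x => F x + (t : ℂ) • H x) =
      Bf r F F + 2 * t * Bf r H F + t ^ 2 * Bf r H H := by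
  have h2 : MemLp (fun x => F x + (t : ℂ) • H x) 2 volume := hF.add (hH.const_smul _)
  rw [Bf_add_left (ib_Near hr hi hF h2) (ib_Near hr hi hH h2),
    Bf_add_right (ib_Near hr hi hF hF) (ib_Near hr hi hF hH),
    Bf_add_right (ib_Near hr hi hH hF) (ib_Near hr hi hH hH), Bf_symm hr F H]
  ring

/-- The residual of an almost maximiser is small. -/
theorem res_Near {r : E → S →L[ℂ] S} (hr : Ks r) (hi : Integrable r volume) {M ε : ℝ}
    {V : E → ℝ} (hM : 0 < M) (hV : Bm M V) (hε : 0 < ε) (hε1 : ε ≤ 1) (hB : BS r V (1 + ε))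
    {h₀ g q : E → S} (h0 : MemLp h₀ 2 volume) (hg : MemLp g 2 volume) (hq : MemLp q 2 volume)
    (hlt : JD.I2 h₀ ≤ Bf r (sv V h₀) (sv V h₀))
    (hδ : JD.I2 (fun x => g x - sv V h₀ x) ≤ ε * JD.I2 h₀)
    (he : Bf r (sv V q) g = (1 + ε) * (∫ x, (inner ℂ (q x) (h₀ x)).re) - JD.I2 q) :
    JD.I2 q ≤ 2 * (2 + M * ∫ z, ‖r z‖) * (1 + ∫ z, ‖r z‖) * (ε * JD.I2 h₀) := by
  have hR : 0 ≤ ∫ z, ‖r z‖ := integral_nonneg fun _ => norm_nonneg _
  have s0 := memLp_sv hV.meas hV.le h0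
  have sq := memLp_sv hV.meas hV.le hq
  have hd : MemLp (fun x => g x - sv V h₀ x) 2 volume := hg.sub s0
  obtain ⟨t, ht, htm⟩ : ∃ t : ℝ, 0 < t ∧ t * (2 * (2 + M * ∫ z, ‖r z‖)) = 1 :=
    ⟨(2 * (2 + M * ∫ z, ‖r z‖))⁻¹, by positivity, inv_mul_cancel₀ (by positivity)⟩
  have k := hB (fun x => h₀ x + ((-t : ℝ) : ℂ) • q x) (h0.add (hq.const_smul _))
  have e1 : sv V (fun x => h₀ x + ((-t : ℝ) : ℂ) • q x) =
      fun x => sv V h₀ x + ((-t : ℝ) : ℂ) • sv V q x := by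
    ext x
    simp only [sv]
    module
  rw [e1, quad_Near hr hi s0 sq, JD.I2_add h0 hq] at k
  have e2 : Bf r (sv V q) g =
      Bf r (sv V q) (sv V h₀) + 1 * Bf r (sv V q) (fun x => g x - sv V h₀ x) := by
    rw [← Bf_add_right (ib_Near hr hi sq s0) (ib_Near hr hi sq hd)]
    congr 1
    ext x
    simp
  have b1 := (abs_le.1 (bd_Near hr hi sq hd ht)).1
  have b2 := (abs_le.1 (bd_Near hr hi sq sq one_pos)).1
  have b3 := mul_le_mul_of_nonneg_left (sv_le_Near hV hq) hR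
  have b4 := mul_le_mul_of_nonneg_left hδ hR
  have n0 := JD.I2_nonneg h₀
  have nq := JD.I2_nonneg q
  generalize (∫ z, ‖r z‖) = R at *
  generalize (∫ x, (inner ℂ (q x) (h₀ x)).re) = P at *
  generalize Bf r (sv V q) (fun x => g x - sv V h₀ x) = B1 at *
  generalize Bf r (sv V q) (sv V q) = B2 at *
  generalize Bf r (sv V q) (sv V h₀) = B3 at *
  generalize Bf r (sv V h₀) (sv V h₀) = B0 at *
  generalize JD.I2 (fun x => g x - sv V h₀ x) = D at *
  generalize JD.I2 (sv V q) = Q' at *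
  generalize JD.I2 q = Q at *
  generalize JD.I2 h₀ = n at *
  have c1 : -(t ^ 2 * (R * (M * Q)) + R * (ε * n)) ≤ 2 * t * B1 := by
    have h1 := mul_le_mul_of_nonneg_left b1 (by positivity : 0 ≤ 2 * t)
    have h2 : 2 * t * -((t * (R * Q') + t⁻¹ * (R * D)) / 2) = -(t ^ 2 * (R * Q') + R * D) := by
      field_simp
    have h3 := mul_le_mul_of_nonneg_left b3 (sq_nonneg t)
    linarith
  have c2 : -(t ^ 2 * (R * (M * Q))) ≤ t ^ 2 * B2 := by
    have h1 : -(R * (M * Q)) ≤ B2 := by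
      rw [inv_one] at b2
      linarith
    have h2 := mul_le_mul_of_nonneg_left h1 (sq_nonneg t)
    linarith
  have c3 : t ^ 2 * ((1 + ε) * Q) ≤ t ^ 2 * (2 * Q) := by gcongr; linarith
  have c4 : t * (t * (2 * (2 + M * R))) * Q = t * Q := by rw [htm, mul_one]
  have c5 : 2 * t * B3 = 2 * t * ((1 + ε) * P - Q - B1) := by
    congr 1
    linarith
  have c6 : 0 ≤ t ^ 2 * Q := by positivity
  have c7 : t * Q ≤ (1 + R) * (ε * n) := by nlinarith
  calc Q = 2 * (2 + M * R) * (t * Q) := by linear_combination (-Q) * htm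
    _ ≤ 2 * (2 + M * R) * ((1 + R) * (ε * n)) := by gcongr
    _ = _ := by ring

theorem sNear (hc : Ctx α β m) : SNear e α β m := by
  intro a ha M η hM hη
  have hl := mem_gap ha
  have h := hc.rep
  have hr := ks_rk h e m (a - m)
  have hi := integrable_rk h e hl
  have hR : 0 ≤ ∫ z, ‖rk e α β m (a - m) z‖ := integral_nonneg fun _ => norm_nonneg _
  obtain ⟨K, hK, hKe⟩ : ∃ K : ℝ, 0 < K ∧ 2 * (2 + M * ∫ z, ‖rk e α β m (a - m) z‖) *
      (1 + ∫ z, ‖rk e α β m (a - m) z‖) = K := ⟨_, by positivity, rfl⟩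
  obtain ⟨ε, hε, hε1, hε2, hε3⟩ : ∃ ε : ℝ, 0 < ε ∧ ε ≤ 1 ∧ K * ε ≤ 1 / 4 ∧
      4 * M * (2 + 4 * M * K + 4 * M) * ε ≤ η ^ 2 := by
    refine ⟨min 1 (min (1 / 4 / K) (η ^ 2 / (4 * M * (2 + 4 * M * K + 4 * M)))), by positivity,
      min_le_left _ _, ?_, ?_⟩
    · exact (le_div_iff₀' hK).1 ((min_le_right _ _).trans (min_le_left _ _))
    · exact (le_div_iff₀' (by positivity)).1 ((min_le_right _ _).trans (min_le_right _ _))
  refine ⟨ε, hε, fun V hV hn hB => ?_⟩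
  obtain ⟨h₀, h0, hlt⟩ : ∃ h₀ : E → S, MemLp h₀ 2 volume ∧
      JD.I2 h₀ < Bf (rk e α β m (a - m)) (sv V h₀) (sv V h₀) := by
    by_contra hcon
    exact hn fun g hg => by
      rw [one_mul]
      exact not_lt.1 fun c => hcon ⟨g, hg, c⟩
  have s0 := memLp_sv hV.meas hV.le h0
  have n0 : 0 < JD.I2 h₀ := by
    refine (JD.I2_nonneg h₀).lt_of_ne fun c => ?_
    have b2 := (abs_le.1 (bd_Near hr hi s0 s0 one_pos)).2
    have b3 := mul_le_mul_of_nonneg_left (sv_le_Near hV h0) hR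
    rw [← c] at hlt b3
    rw [inv_one] at b2
    linarith
  obtain ⟨g, hδ⟩ := dense_Near s0 (mul_pos hε n0)
  obtain ⟨Φ, hΦ⟩ := JK.Dop_surj e h (gap_pos hl) g
  have g2 := g.memLp 2 (volume : Measure E)
  have Φ2 := Φ.memLp 2 (volume : Measure E)
  have c3 : JK.cv (rk e α β m (a - m)) g = Φ := by
    rw [← hΦ]
    exact JK.cv_Dop e h (gap_pos hl) hi (JK.fourier_rk e α β (gap_pos hl)) Φ
  have s1 := memLp_sv hV.meas hV.le Φ2
  obtain ⟨q, hqe⟩ : ∃ q : E → S, q = fun x => ((1 + ε : ℝ) : ℂ) • h₀ x - sv V Φ x := ⟨_, rfl⟩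
  have hq : MemLp q 2 volume := hqe ▸ (h0.const_smul _).sub s1
  have sq := memLp_sv hV.meas hV.le hq
  have hx1 : ∀ x, sv V Φ x = ((1 + ε : ℝ) : ℂ) • h₀ x - q x := fun x => by simp [hqe]
  have he : Bf (rk e α β m (a - m)) (sv V q) g =
      (1 + ε) * (∫ x, (inner ℂ (q x) (h₀ x)).re) - JD.I2 q := by
    have i1 : Integrable (fun x => (inner ℂ (q x) (h₀ x)).re) volume := (JD.int_inner hq h0).re
    rw [Bf_eq hr.meas sq.1 g2.1 (schur_l2 hr hi sq g2).1, c3, JD.I2, ← integral_const_mul,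
      ← integral_sub (i1.const_mul _) (JD.int_sq hq)]
    congr 1
    ext x
    have e1 : F1.R (sv V q x) (Φ x) = F1.R (q x) (sv V Φ x) := by
      rw [sv, sv, F1.R_smul_left, F1.R_smul_right]
    refine e1.trans ?_
    rw [hx1, F1.R_sub_right, F1.R_smul_right, F1.R_self]
    rfl
  have hQ := res_Near hr hi hM hV hε hε1 hB h0 g2 hq hlt.le hδ he
  rw [hKe] at hQ
  have a1 : (1 + ε) ^ 2 * JD.I2 h₀ ≤ 2 * JD.I2 q + 2 * JD.I2 (sv V Φ) := by
    have := JD.I2_sub_le hq s1.neg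
    rw [← JD.I2_smul]
    refine le_of_eq_of_le (congrArg _ ?_) (this.trans (le_of_eq ?_))
    · ext x
      simp [hqe]
    · simp [JD.I2]
  have a2 := sv_le_Near hV Φ2
  have a3 : JD.I2 h₀ ≤ 4 * M * JD.I2 (Φ : E → S) := by
    have h1 : 1 * JD.I2 h₀ ≤ (1 + ε) ^ 2 * JD.I2 h₀ :=
      mul_le_mul_of_nonneg_right (by nlinarith) n0.le
    have h2 := mul_le_mul_of_nonneg_right hε2 n0.le
    linarith
  have hp : MemLp (fun x => (ε : ℂ) • h₀ x - q x) 2 volume := (h0.const_smul _).sub hq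
  have a4 : JD.I2 (Ev e α β m a V Φ) ≤ 2 * JD.I2 (fun x => g x - sv V h₀ x) +
      2 * JD.I2 (sv V fun x => (ε : ℂ) • h₀ x - q x) := by
    refine le_of_eq_of_le (congrArg _ ?_) (JD.I2_sub_le (g2.sub s0) (memLp_sv hV.meas hV.le hp))
    ext x
    have e1 : (V x : ℂ) • Φ x = sv V (sv V Φ) x := by rw [sv_sv hV.nonneg]
    rw [Ev_eq, hΦ, e1, sv, hx1, sv, sv]
    push_cast
    module
  have a5 := sv_le_Near hV hp
  have a6 := JD.I2_sub_le (h0.const_smul (ε : ℂ)) hq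
  have a7 : JD.I2 ((ε : ℂ) • h₀) ≤ ε * JD.I2 h₀ :=
    (JD.I2_smul h₀ ε).trans_le (mul_le_mul_of_nonneg_right (by nlinarith) n0.le)
  have a8 : JD.I2 (fun x => (ε : ℂ) • h₀ x - q x) ≤ 2 * (ε * JD.I2 h₀) + 2 * (K * (ε * JD.I2 h₀)) :=
    a6.trans (by linarith)
  have a9 := mul_le_mul_of_nonneg_left a8 hM.le
  refine ⟨Φ, ?_, ?_⟩
  · exact (mul_pos_iff_of_pos_left (by positivity)).1 (n0.trans_le a3)
  · change JD.I2 (Ev e α β m a V Φ) ≤ η ^ 2 * JD.I2 (Φ : E → S)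
    calc _ ≤ (2 + 4 * M * K + 4 * M) * ε * JD.I2 h₀ := by linarith
      _ ≤ (2 + 4 * M * K + 4 * M) * ε * (4 * M * JD.I2 (Φ : E → S)) := by gcongr
      _ = 4 * M * (2 + 4 * M * K + 4 * M) * ε * JD.I2 (Φ : E → S) := by ring
      _ ≤ _ := mul_le_mul_of_nonneg_right hε3 (JD.I2_nonneg _)

end Pool.Agent.MP_e4cac8_mp.Cr

end

section
/-! The virial identity and the comparison form for approximate solutions. -/

set_option autoImplicit false
set_option linter.unusedSectionVars false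

open Set MeasureTheory Filter Topology
open scoped ENNReal NNReal SchwartzMap
open Pool.Agent.MP_0b7119_mp.G

namespace Pool.Agent.MP_e4cac8_mp.Cr

variable {E S : Type} [NormedAddCommGroup E] [InnerProductSpace ℝ E] [FiniteDimensional ℝ E]
  [MeasurableSpace E] [BorelSpace E] [NormedAddCommGroup S] [InnerProductSpace ℂ S]
  [CompleteSpace S] [FiniteDimensional ℂ S] {d : ℕ}
  {e : OrthonormalBasis (Fin d) ℝ E} {α : Fin d → S →L[ℂ] S} {β : S →L[ℂ] S} {m : ℝ}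

theorem pt_JMc (h : IsDiracRep α β) (W c : ℝ) (z q : S) :
    W * ‖lo β z‖ ^ 2 - (W - c) * ‖up β z‖ ^ 2 =
      F1.R (q - (W : ℂ) • z + (c : ℂ) • up β z) (β z) - F1.R q (β z) := by
  have o := F1.orth h (β_up h z) (β_lo h z)
  have e0 : β z = up β z - lo β z := by
    unfold up lo
    module
  have e1 := up_add_lo (β := β) z
  rw [e0]
  generalize up β z = u at *
  generalize lo β z = w at *
  subst e1
  simp only [F1.R_self, F1.R_add_left, F1.R_sub_left, F1.R_sub_right, F1.R_smul_left,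
    F1.R_symm w u, o]
  ring

theorem absR_JMc (y p : S) {η : ℝ} (hη : 0 < η) :
    |F1.R y p| ≤ η / 2 * ‖p‖ ^ 2 + 1 / (2 * η) * ‖y‖ ^ 2 := by
  have h1 : |F1.R y p| ≤ ‖y‖ * ‖p‖ :=
    (Complex.abs_re_le_norm _).trans (norm_inner_le_norm (𝕜 := ℂ) y p)
  refine h1.trans ?_
  have h2 : η / 2 * ‖p‖ ^ 2 + 1 / (2 * η) * ‖y‖ ^ 2 - ‖y‖ * ‖p‖ = (η * ‖p‖ - ‖y‖) ^ 2 / (2 * η) := by
    field_simp
    ring
  have h3 : 0 ≤ (η * ‖p‖ - ‖y‖) ^ 2 / (2 * η) := by positivity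
  linarith

theorem sJ (hc : Ctx α β m) : SJ e α β m := by
  intro a M η V Φ hη hV hN
  have h := hc.rep
  have mE := memLp_Ev (e := e) (α := α) (β := β) (m := m) hV a Φ
  have mβ := F1.memLp_clm β (Φ.memLp 2 (μ := volume))
  have e1 : ∀ x, (a + V x) * ‖lo β (Φ x)‖ ^ 2 - (V x - (2 * m - a)) * ‖up β (Φ x)‖ ^ 2 =
      F1.R (Ev e α β m a V Φ x) (β (Φ x)) - F1.R (D0 e α β Φ x) (β (Φ x)) := fun x => by
    rw [Ev, ← pt_JMc h]
    ring
  have e2 : ∫ x, F1.R (D0 e α β Φ x) (β (Φ x)) = 0 := F1.ibp1 e h Φ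
  simp only [e1]
  rw [integral_sub (F1.int_R mE mβ) (F1.int_R ((D0 e α β Φ).memLp 2) mβ), e2, sub_zero]
  have i1 := (int_sq Φ).const_mul (η / 2)
  have i2 := (JD.int_sq mE).const_mul (1 / (2 * η))
  refine abs_integral_le_integral_abs.trans ((integral_mono (F1.int_R mE mβ).abs (i1.add i2)
    fun x => ?_).trans ?_)
  · have := absR_JMc (Ev e α β m a V Φ x) (β (Φ x)) hη
    rwa [norm_β_apply h] at this
  · simp only [Pi.add_apply]
    rw [integral_add i1 i2, integral_const_mul, integral_const_mul]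
    have h1 := mul_le_mul_of_nonneg_left hN.err (by positivity : 0 ≤ 1 / (2 * η))
    have h2 : 1 / (2 * η) * (η ^ 2 * ∫ x, ‖Φ x‖ ^ 2) = η / 2 * ∫ x, ‖Φ x‖ ^ 2 := by
      field_simp
    linarith

theorem D0_up_JMc (h : IsDiracRep α β) (Φ : 𝓢(E, S)) (x : E) :
    D0 e α β (SchwartzMap.postcompCLM ((2⁻¹ : ℂ) • (1 + β)) Φ) x = lo β (D0 e α β Φ x) := by
  have h1 : ∀ j p, β (α j p) = -α j (β p) := fun j p => by
    have := congrArg (fun T : S →L[ℂ] S => T p) (h.αβ j)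
    exact eq_neg_of_add_eq_zero_right (by simpa using this)
  have h2 : (SchwartzMap.postcompCLM ((2⁻¹ : ℂ) • (1 + β)) Φ : E → S) =
      fun y => ((2⁻¹ : ℂ) • (1 + β)) (Φ y) := rfl
  rw [D0_eq, D0_eq, h2, Zf, Zf, lo, map_smul, map_sum, ← smul_sub, smul_comm,
    ← Finset.sum_sub_distrib, Finset.smul_sum, Finset.smul_sum, Finset.smul_sum]
  refine Finset.sum_congr rfl fun j _ => ?_
  rw [Str.fd_clm _ (Φ.differentiableAt), h1]
  simp

theorem lo_D0_JMc (h : IsDiracRep α β) (W c : ℝ) (z q : S) :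
    lo β q = (W : ℂ) • lo β z + lo β (q - (W : ℂ) • z + (c : ℂ) • up β z) := by
  simp only [lo, map_add, map_sub, map_smul, β_up h]
  module

theorem lo_le_JMc (h : IsDiracRep α β) (z : S) : ‖lo β z‖ ^ 2 ≤ ‖z‖ ^ 2 := by
  rw [sq_split h z]
  linarith [sq_nonneg ‖up β z‖]

theorem sq_JMc {W B η a s w z y t r : ℝ} (hW : 0 ≤ W) (hB : W ≤ B) (hη : 0 < η) (ha : 0 < a)
    (hs : a ≤ s) (hw : w ^ 2 ≤ z ^ 2) (ht : t ^ 2 ≤ y ^ 2) (hr0 : 0 ≤ r) (hr : r ≤ W * w + t) :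
    r ^ 2 / s ≤ W ^ 2 * w ^ 2 / s + (B * η / a * z ^ 2 + (B / η + 1) / a * y ^ 2) := by
  have h1 : r ^ 2 ≤ (W * w + t) ^ 2 := pow_le_pow_left₀ hr0 hr 2
  have h2 : 2 * (w * t) ≤ η * w ^ 2 + t ^ 2 / η := by
    have h3 : η * w ^ 2 + t ^ 2 / η - 2 * (w * t) = (η * w - t) ^ 2 / η := by
      field_simp
      ring
    have h4 : 0 ≤ (η * w - t) ^ 2 / η := by positivity
    linarith
  have h5 : η * w ^ 2 + t ^ 2 / η ≤ η * z ^ 2 + y ^ 2 / η := by gcongr
  have h6 : W * (2 * (w * t)) ≤ B * (η * z ^ 2 + y ^ 2 / η) :=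
    (mul_le_mul_of_nonneg_left (h2.trans h5) hW).trans
      (mul_le_mul_of_nonneg_right hB (by positivity))
  have hB0 : 0 ≤ B := hW.trans hB
  have h7 : r ^ 2 ≤ W ^ 2 * w ^ 2 + (B * (η * z ^ 2 + y ^ 2 / η) + y ^ 2) := by nlinarith
  have h8 : (B * (η * z ^ 2 + y ^ 2 / η) + y ^ 2) / s ≤
      (B * (η * z ^ 2 + y ^ 2 / η) + y ^ 2) / a :=
    div_le_div_of_nonneg_left (by positivity) ha hs
  have h9 : (B * (η * z ^ 2 + y ^ 2 / η) + y ^ 2) / a =
      B * η / a * z ^ 2 + (B / η + 1) / a * y ^ 2 := by ring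
  have h10 := div_le_div_of_nonneg_right h7 (ha.le.trans hs)
  rw [add_div] at h10
  linarith

theorem int_div_JMc {a a' M' : ℝ} {V' g : E → ℝ} (ha : 0 < a) (haa : a ≤ a') (hV' : Bm M' V')
    (hg : Integrable g volume) : Integrable (fun x => g x / (a' + V' x)) volume := by
  have h1 : Bm a⁻¹ fun x => (a' + V' x)⁻¹ := ⟨(hV'.meas.const_add a').inv,
    fun x => inv_nonneg.2 (by linarith [hV'.nonneg x]),
    fun x => inv_anti₀ ha (by linarith [hV'.nonneg x])⟩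
  simpa only [div_eq_inv_mul] using h1.int hg

theorem sMc (hc : Ctx α β m) : SMc e α β m := by
  intro a M ha
  refine ⟨(2 * (a + |M|) + 1) / a, by positivity, ?_⟩
  intro a' b' M' η τ V V' Φ haa hη hη1 hV hV' hN hT
  have h := hc.rep
  have mE := memLp_Ev (e := e) (α := α) (β := β) (m := m) hV a Φ
  have hU : ∀ x, SchwartzMap.postcompCLM ((2⁻¹ : ℂ) • (1 + β)) Φ x = up β (Φ x) := fun x => by
    simp [up]
  have h0 := hT (SchwartzMap.postcompCLM ((2⁻¹ : ℂ) • (1 + β)) Φ) fun x => by rw [hU, β_up h]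
  simp only [hU, D0_up_JMc h] at h0
  have hW : Bm (a + |M|) fun x => a + V x := ⟨hV.meas.const_add a,
    fun x => by linarith [hV.nonneg x], fun x => by linarith [hV.le x, le_abs_self M]⟩
  have i1 := int_div_JMc ha haa hV' (int_lo (β := β) (D0 e α β Φ))
  have i2 : Integrable (fun x => (V' x - b') * ‖up β (Φ x)‖ ^ 2) volume := by
    simp only [sub_mul]
    exact (hV'.int (int_up Φ)).sub ((int_up Φ).const_mul b')
  have i3 : Integrable (fun x => (a + V x) ^ 2 * ‖lo β (Φ x)‖ ^ 2 / (a' + V' x)) volume := by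
    refine int_div_JMc ha haa hV' ?_
    simpa only [sq (a + V _), mul_assoc] using hW.int (hW.int (int_lo (β := β) Φ))
  have i4 := (int_sq Φ).const_mul ((a + |M|) * η / a)
  have i5 := (JD.int_sq mE).const_mul (((a + |M|) / η + 1) / a)
  have i6 : Integrable (fun x => (a + |M|) * η / a * ‖Φ x‖ ^ 2 +
      ((a + |M|) / η + 1) / a * ‖Ev e α β m a V Φ x‖ ^ 2) volume := i4.add i5
  have h1 := integral_mono i1 (i3.add i6) fun x => by
    refine sq_JMc (hW.nonneg x) (hW.le x) hη ha (by linarith [hV'.nonneg x]) (lo_le_JMc h (Φ x))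
      (lo_le_JMc h (Ev e α β m a V Φ x)) (norm_nonneg _) ?_
    rw [lo_D0_JMc h (a + V x) (2 * m) (Φ x) (D0 e α β Φ x)]
    refine (norm_add_le _ _).trans (le_of_eq ?_)
    rw [norm_smul, Complex.norm_real, Real.norm_of_nonneg (hW.nonneg x)]
    rfl
  simp only [Pi.add_apply] at h1
  rw [integral_add i3 i6, integral_add i4 i5, integral_const_mul, integral_const_mul] at h1
  rw [integral_sub (i1.const_mul _) i2, integral_const_mul] at h0
  have h2 := mul_le_mul_of_nonneg_left hN.err (by positivity : 0 ≤ ((a + |M|) / η + 1) / a)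
  have hP := hN.pos
  set N := ∫ x, ‖Φ x‖ ^ 2
  have h3 : (a + |M|) * η / a * N + ((a + |M|) / η + 1) / a * (η ^ 2 * N) ≤
      η * ((2 * (a + |M|) + 1) / a) * N := by
    have h4 : η * ((2 * (a + |M|) + 1) / a) * N - ((a + |M|) * η / a * N +
        ((a + |M|) / η + 1) / a * (η ^ 2 * N)) = η * (1 - η) * N / a := by
      field_simp
      ring
    have h5 : 0 ≤ η * (1 - η) * N / a := by
      have : 0 ≤ 1 - η := by linarith
      positivity
    linarith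
  have h6 := mul_le_mul_of_nonneg_left (h1.trans (add_le_add le_rfl
    ((add_le_add le_rfl h2).trans h3))) (sq_nonneg τ)
  linarith

end Pool.Agent.MP_e4cac8_mp.Cr

end

section
/-! The massless operator and the gradient have the same norm. -/

set_option autoImplicit false
set_option linter.unusedSectionVars false

open Set MeasureTheory Filter Topology FourierTransform LineDeriv
open scoped ENNReal NNReal SchwartzMap Real
open Pool.Agent.MP_0b7119_mp.G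

namespace Pool.Agent.MP_e4cac8_mp.Cr

variable {E S : Type} [NormedAddCommGroup E] [InnerProductSpace ℝ E] [FiniteDimensional ℝ E]
  [MeasurableSpace E] [BorelSpace E] [NormedAddCommGroup S] [InnerProductSpace ℂ S]
  [CompleteSpace S] [FiniteDimensional ℂ S] {d : ℕ}
  {e : OrthonormalBasis (Fin d) ℝ E} {α : Fin d → S →L[ℂ] S} {β : S →L[ℂ] S} {m : ℝ}

theorem G2_Li (Φ : 𝓢(E, S)) : G2 e Φ = fun x => ∑ j, ‖∂_{e j} Φ x‖ ^ 2 :=
  funext fun x => by simp only [G2, SchwartzMap.lineDerivOp_apply_eq_fderiv]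

theorem four_Li (Φ : 𝓢(E, S)) (v ξ : E) :
    ‖𝓕 (∂_{v} Φ) ξ‖ ^ 2 = (2 * π) ^ 2 * (inner ℝ v ξ) ^ 2 * ‖𝓕 Φ ξ‖ ^ 2 := by
  have : (inner ℝ · v).HasTemperateGrowth := by fun_prop
  rw [SchwartzMap.fourier_lineDerivOp_eq]
  simp only [SchwartzMap.smul_apply, SchwartzMap.smulLeftCLM_apply_apply this, norm_smul,
    norm_mul, Complex.norm_I, Complex.norm_real, Complex.norm_ofNat, Real.norm_eq_abs, mul_pow,
    sq_abs, real_inner_comm ξ v]
  ring

theorem sLi (hc : Ctx α β m) : SLi e α β := by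
  intro Φ
  have hi : ∀ j, Integrable (fun x => ‖∂_{e j} Φ x‖ ^ 2) volume := fun j => int_sq _
  refine ⟨⟨Φ.smooth 1, ⟨⟨SchwartzMap.seminorm ℝ 0 0 (SchwartzMap.fderivCLM ℝ E S Φ),
    apply_nonneg _ _⟩, lipschitzWith_of_nnnorm_fderiv_le (𝕜 := ℝ) Φ.differentiable fun x =>
      (SchwartzMap.fderivCLM ℝ E S Φ).norm_le_seminorm ℝ x⟩, Φ.memLp 2, ?_⟩, ?_⟩
  · rw [G2_Li]
    exact integrable_finsetSum _ fun j _ => hi j
  · rw [G2_Li, integral_finsetSum _ fun j _ => hi j, ← SchwartzMap.integral_norm_sq_fourier]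
    simp only [← SchwartzMap.integral_norm_sq_fourier (∂_{e _} Φ)]
    rw [← integral_finsetSum _ fun j _ => int_sq (𝓕 (∂_{e j} Φ))]
    refine integral_congr_ae (Eventually.of_forall fun ξ => ?_)
    simp only [four_Li]
    rw [← Finset.sum_mul, ← Finset.mul_sum, e.sum_sq_inner_right, D0, JK.fourier_Dop, JK.sym]
    simp only [Complex.ofReal_zero, zero_smul, add_zero, ContinuousLinearMap.smul_apply, norm_smul,
      norm_cl_apply hc.rep, Complex.norm_real, Real.norm_eq_abs, mul_pow, sq_abs]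
    ring

end Pool.Agent.MP_e4cac8_mp.Cr

end

section
/-! Pointwise inequalities for approximate solutions. -/

set_option autoImplicit false
set_option linter.unusedSectionVars false

open Set MeasureTheory Filter Topology
open scoped ENNReal NNReal SchwartzMap
open Pool.Agent.MP_0b7119_mp.G

namespace Pool.Agent.MP_e4cac8_mp.Cr

variable {E S : Type} [NormedAddCommGroup E] [InnerProductSpace ℝ E] [FiniteDimensional ℝ E]
  [MeasurableSpace E] [BorelSpace E] [NormedAddCommGroup S] [InnerProductSpace ℂ S]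
  [CompleteSpace S] [FiniteDimensional ℂ S] {d : ℕ}
  {e : OrthonormalBasis (Fin d) ℝ E} {α : Fin d → S →L[ℂ] S} {β : S →L[ℂ] S} {m : ℝ}

theorem zero_PtS (h : IsDiracRep α β) (n : E) (y : S) :
    F1.R (cl e α n y) (Complex.I • y) = 0 := by
  have h1 := inner_cl h e n y y
  have h2 : (inner ℂ (cl e α n y) y).im = -(inner ℂ y (cl e α n y)).im :=
    inner_im_symm (𝕜 := ℂ) _ _
  rw [← h1] at h2
  have h3 : (inner ℂ (cl e α n y) y).im = 0 := by linarith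
  simp [F1.R, h3]

theorem le_PtS (x y : S) : |F1.R x (Complex.I • y)| ≤ ‖x‖ * ‖y‖ := by
  refine (Complex.abs_re_le_norm _).trans ((norm_inner_le_norm _ _).trans ?_)
  rw [norm_smul, Complex.norm_I, one_mul]

theorem one_PtS (h : IsDiracRep α β) {W b η : ℝ} (hW : 0 ≤ W) (hb : 0 < b) (hη : 0 < η)
    (z ε : S) : ‖(W : ℂ) • z - (b : ℂ) • up β z + ε‖ ^ 2 ≤ W ^ 2 * ‖lo β z‖ ^ 2 +
      (W - b) ^ 2 * ‖up β z‖ ^ 2 + (η * (W + b) ^ 2 * ‖z‖ ^ 2 + (1 + 1 / η) * ‖ε‖ ^ 2) := by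
  have e1 : (W : ℂ) • z - (b : ℂ) • up β z =
      ((W - b : ℝ) : ℂ) • up β z + (W : ℂ) • lo β z := by
    conv_lhs => rw [← up_add_lo (β := β) z]
    rw [up_add_lo]
    conv_lhs => lhs; rw [← up_add_lo (β := β) z]
    push_cast
    module
  have o := F1.orth h (β_up h z) (β_lo h z)
  have e2 : ‖(W : ℂ) • z - (b : ℂ) • up β z‖ ^ 2 =
      W ^ 2 * ‖lo β z‖ ^ 2 + (W - b) ^ 2 * ‖up β z‖ ^ 2 := by
    rw [e1]
    simp only [F1.R_self, F1.R_add_left, F1.R_add_right, F1.R_smul_left, F1.R_smul_right,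
      F1.R_symm (lo β z) (up β z), o]
    ring
  have e3 := sq_split h z
  have e4 : W ^ 2 * ‖lo β z‖ ^ 2 + (W - b) ^ 2 * ‖up β z‖ ^ 2 ≤ (W + b) ^ 2 * ‖z‖ ^ 2 := by
    rw [e3, mul_add, add_comm]
    have := mul_nonneg hW hb.le
    exact add_le_add (mul_le_mul_of_nonneg_right (by nlinarith) (sq_nonneg _))
      (mul_le_mul_of_nonneg_right (by nlinarith) (sq_nonneg _))
  rw [← e2] at e4 ⊢
  generalize (W : ℂ) • z - (b : ℂ) • up β z = A at *
  have e5 : ‖A + ε‖ ^ 2 ≤ (‖A‖ + ‖ε‖) ^ 2 := pow_le_pow_left₀ (norm_nonneg _) (norm_add_le _ _) 2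
  have e6 : 2 * (‖A‖ * ‖ε‖) ≤ η * ‖A‖ ^ 2 + 1 / η * ‖ε‖ ^ 2 := by
    have := div_nonneg (sq_nonneg (η * ‖A‖ - ‖ε‖)) hη.le
    have e7 : (η * ‖A‖ - ‖ε‖) ^ 2 / η =
        η * ‖A‖ ^ 2 + 1 / η * ‖ε‖ ^ 2 - 2 * (‖A‖ * ‖ε‖) := by
      field_simp
      ring
    linarith
  have e8 := mul_le_mul_of_nonneg_left e4 hη.le
  nlinarith

theorem sPtS (hc : Ctx α β m) : SPtS e α β m := by
  intro a s η V Φ x hη hW
  have h := hc.rep
  have hb : 0 < 2 * m := by linarith [hc.pos]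
  have eD : D0 e α β Φ x = ((a + V x : ℝ) : ℂ) • Φ x - ((2 * m : ℝ) : ℂ) • up β (Φ x) +
      Ev e α β m a V Φ x := by
    unfold Ev
    module
  refine ⟨by rw [eD]; exact one_PtS h hW hb hη _ _, fun h0 => ?_⟩
  have h2 : 0 < ‖Φ x‖ := norm_pos_iff.mpr h0
  have eZ : Zf e α Φ x = Complex.I • D0 e α β Φ x := by
    rw [D0_eq, smul_smul]
    simp
  refine ⟨gf Φ x ^ 2 + Pf e α Φ x, ‖up β (Φ x)‖ * ‖lo β (Φ x)‖ / ‖Φ x‖, le_of_eq ?_, ?_, ?_⟩
  · field_simp
  · obtain ⟨n, h1⟩ : ∃ n : E, Nv e α Φ x = cl e α n (Φ x) := by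
      refine ⟨‖Φ x‖⁻¹ • (InnerProductSpace.toDual ℝ E).symm (fderiv ℝ (fun y => ‖Φ y‖) x), ?_⟩
      unfold Nv cl
      rw [sum_apply]
      refine Finset.sum_congr rfl fun j _ => ?_
      rw [smul_apply, real_inner_smul_right, real_inner_comm,
        InnerProductSpace.toDual_symm_apply, div_eq_inv_mul]
    have hN := Alg.norm_Nv h e (u := Φ) h0
    have hg : gf Φ x = ‖n‖ * ‖Φ x‖ := by rw [← hN, h1, norm_cl_apply h]
    have e1 : gf Φ x ^ 2 + Pf e α Φ x = F1.R (Nv e α Φ x) (Zf e α Φ x) := by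
      rw [← hN, F1.R_self]
      change _ + F1.R _ _ = _
      rw [F1.R_sub_right]
      ring
    have e2 : Zf e α Φ x = ((a + V x : ℝ) : ℂ) • (Complex.I • Φ x) -
        ((2 * m : ℝ) : ℂ) • (Complex.I • up β (Φ x)) + Complex.I • Ev e α β m a V Φ x := by
      rw [eZ, eD]
      module
    have e3 : F1.R (cl e α n (Φ x)) (Complex.I • up β (Φ x)) =
        F1.R (cl e α n (lo β (Φ x))) (Complex.I • up β (Φ x)) := by
      conv_lhs => lhs; rw [← up_add_lo (β := β) (Φ x)]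
      rw [map_add, F1.R_add_left, zero_PtS h, zero_add]
    have e4 := le_PtS (cl e α n (lo β (Φ x))) (up β (Φ x))
    have e5 := le_PtS (Nv e α Φ x) (Ev e α β m a V Φ x)
    rw [norm_cl_apply h] at e4
    rw [hN] at e5
    have e6 : gf Φ x * (2 * m * (‖up β (Φ x)‖ * ‖lo β (Φ x)‖ / ‖Φ x‖)) =
        2 * m * (‖n‖ * ‖lo β (Φ x)‖ * ‖up β (Φ x)‖) := by
      rw [hg]
      field_simp
    rw [e1, e2, F1.R_add_right, F1.R_sub_right, F1.R_smul_right, F1.R_smul_right, mul_add, e6]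
    refine add_le_add ?_ ((le_abs_self _).trans e5)
    rw [h1, zero_PtS h, e3, mul_zero, zero_sub, ← mul_neg]
    exact mul_le_mul_of_nonneg_left ((neg_le_abs _).trans e4) hb.le
  · have k1 := Alg.key h e (u := Φ) (Φ.differentiable x) h0 (1 - s)
    have k2 := Alg.quad h e (u := Φ) h0 1
    have k3 : ‖D0 e α β Φ x‖ = ‖Zf e α Φ x‖ := by
      rw [eZ, norm_smul, Complex.norm_I, one_mul]
    rw [Complex.ofReal_one, one_smul, add_sub_cancel] at k2
    rw [k3, k2]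
    unfold qf at k1
    linarith

end Pool.Agent.MP_e4cac8_mp.Cr

end

section
set_option autoImplicit false
set_option linter.unusedSectionVars false

open Set MeasureTheory Filter Topology
open scoped ENNReal NNReal SchwartzMap
open Pool.Agent.MP_0b7119_mp.G

namespace Pool.Agent.MP_e4cac8_mp.Cr

theorem iadd_Sos {X : Type} [MeasurableSpace X] {μ : Measure X} {f g : X → ℝ} {A : ℝ} (c : ℝ)
    (hf : Integrable f μ ∧ ∫ x, f x ∂μ = A) (hg : Integrable g μ) :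
    Integrable (fun x => f x + c * g x) μ ∧ ∫ x, (f x + c * g x) ∂μ = A + c * ∫ x, g x ∂μ :=
  ⟨hf.1.add (hg.const_mul c), by rw [integral_add hf.1 (hg.const_mul c), integral_const_mul, hf.2]⟩

theorem int7_Sos {X : Type} [MeasurableSpace X] {μ : Measure X} {h f1 f2 f3 f4 f5 f6 f7 : X → ℝ}
    (c0 c2 c3 c4 c5 c6 c7 : ℝ) (hh : Integrable h μ) (h1 : Integrable f1 μ) (h2 : Integrable f2 μ)
    (h3 : Integrable f3 μ) (h4 : Integrable f4 μ) (h5 : Integrable f5 μ) (h6 : Integrable f6 μ)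
    (h7 : Integrable f7 μ)
    (hp : ∀ x, c0 * h x ≤ f1 x + c2 * f2 x + c3 * f3 x + c4 * f4 x + c5 * f5 x + c6 * f6 x +
      c7 * f7 x) :
    c0 * ∫ x, h x ∂μ ≤ ∫ x, f1 x ∂μ + c2 * ∫ x, f2 x ∂μ + c3 * ∫ x, f3 x ∂μ + c4 * ∫ x, f4 x ∂μ +
      c5 * ∫ x, f5 x ∂μ + c6 * ∫ x, f6 x ∂μ + c7 * ∫ x, f7 x ∂μ := by
  have k := iadd_Sos c7 (iadd_Sos c6 (iadd_Sos c5 (iadd_Sos c4 (iadd_Sos c3
    (iadd_Sos c2 ⟨h1, rfl⟩ h2) h3) h4) h5) h6) h7
  rw [← k.2, ← integral_const_mul]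
  exact integral_mono (hh.const_mul c0) k.1 hp

variable {E S : Type} [NormedAddCommGroup E] [InnerProductSpace ℝ E] [FiniteDimensional ℝ E]
  [MeasurableSpace E] [BorelSpace E] [NormedAddCommGroup S] [InnerProductSpace ℂ S]
  [CompleteSpace S] [FiniteDimensional ℂ S] {d : ℕ}
  {e : OrthonormalBasis (Fin d) ℝ E} {α : Fin d → S →L[ℂ] S} {β : S →L[ℂ] S} {m : ℝ}

theorem gf_int_Sos (hc : Ctx α β m) {Φ : 𝓢(E, S)} (h : Reg e Φ) :
    IntegrableOn (fun x => gf Φ x ^ 2) {x | 0 < ‖Φ x‖} volume := by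
  obtain ⟨⟨hg, -⟩, -, h3, -⟩ := stAlg (e := e) hc Φ h
  have hm : MeasurableSet {x | 0 < ‖Φ x‖} :=
    (isOpen_lt continuous_const Φ.continuous.norm).measurableSet
  refine Integrable.mono' h.dl2.integrableOn (hg.pow_const 2).aestronglyMeasurable
    ((ae_restrict_iff' hm).2 (Eventually.of_forall fun x hx => ?_))
  have h4 := (h3 x (norm_pos_iff.1 hx)).2.2.1
  have h5 : 0 ≤ nf e α Φ x := sq_nonneg _
  have hd : (0 : ℝ) < d := by exact_mod_cast lt_of_lt_of_le two_pos hc.two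
  have h6 : 0 ≤ qf e Φ x := nonneg_of_mul_nonneg_right (h5.trans h4) hd
  rw [Real.norm_of_nonneg (sq_nonneg _)]
  exact sub_nonneg.1 h6

theorem sSos (hc : Ctx α β m) (hJ : SJ e α β m) (hL : SLi e α β) (hS : SPtS e α β m) (hR : SPtR) :
    SSos e α β m := by
  intro p a M δ hp ha hδ
  have hm := hc.pos
  have hd : (2 : ℝ) ≤ d := by exact_mod_cast hc.two
  obtain ⟨s, hs⟩ : ∃ s, s = p / (p - 1) := ⟨_, rfl⟩
  have hs0 : 0 < s := by
    rw [hs]
    exact div_pos (by linarith) (by linarith)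
  obtain ⟨B, hB⟩ : ∃ B, B = (a + |M| + 2 * m) ^ 2 := ⟨_, rfl⟩
  have hB0 : 0 ≤ B := by
    rw [hB]
    positivity
  refine ⟨s * (2 * m + B + 2) + s ^ 2 / δ, by positivity, fun η V Φ hη hη1 hV hN => ?_⟩
  have hI := gf_int_Sos hc (hL Φ).1
  refine ⟨hI, ?_⟩
  have hmS : MeasurableSet {x | 0 < ‖Φ x‖} :=
    (isOpen_lt continuous_const Φ.continuous.norm).measurableSet
  have hW : Bm (a + M) fun x => a + V x :=
    ⟨hV.meas.const_add a, fun x => add_nonneg ha.le (hV.nonneg x), fun x => by linarith [hV.le x]⟩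
  have i0 := int_sq Φ
  have i1 : Integrable (fun x => ‖Φ x‖ ^ 2 * ((a + V x) ^ 2 - 2 * m * (a + V x))) volume :=
    ((hW.int (hW.int i0)).sub ((hW.int i0).const_mul (2 * m))).congr
      (Eventually.of_forall fun x => by simp only [Pi.sub_apply]; ring)
  have i2 : Integrable
      (fun x => 2 * m * ‖up β (Φ x)‖ ^ 2 - (1 - d / p) * ((a + V x) * ‖Φ x‖ ^ 2)) volume :=
    ((int_up Φ).const_mul _).sub ((hW.int i0).const_mul _)
  have i3 : Integrable (fun x => (a + V x) * ‖lo β (Φ x)‖ ^ 2 -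
      (V x - (2 * m - a)) * ‖up β (Φ x)‖ ^ 2) volume :=
    ((hW.int (int_lo Φ)).sub ((hV.int (int_up (β := β) Φ)).sub
      ((int_up (β := β) Φ).const_mul (2 * m - a)))).congr
      (Eventually.of_forall fun x => by simp only [Pi.sub_apply]; ring)
  have i7 : Integrable (fun x => ‖Ev e α β m a V Φ x‖ ^ 2) volume := JD.int_sq (memLp_Ev hV a Φ)
  have key := int7_Sos ((1 - δ) * s ^ 2) (s * (2 * m / (p - d))) (s * (2 * m)) s (-s) (s * η * B)
    (s * (1 + 1 / η) + s ^ 2 / δ) ((integrable_indicator_iff hmS).2 hI) i1 i2 i3 (hL Φ).1.dl2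
    (int_sq (D0 e α β Φ)) i0 i7 fun x => by
      obtain ⟨s1, s2⟩ := hS a s η V Φ x hη (hW.nonneg x)
      have b1 : (a + V x + 2 * m) ^ 2 ≤ B := by
        rw [hB]
        exact pow_le_pow_left₀ (by linarith only [hW.nonneg x, hm])
          (by linarith only [hV.le x, le_abs_self M]) 2
      have b2 := mul_le_mul_of_nonneg_right (mul_le_mul_of_nonneg_left b1 hη.le)
        (sq_nonneg ‖Φ x‖)
      by_cases hx : Φ x = 0
      · have c1 : up β (Φ x) = 0 := by simp [up, hx]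
        have c2 : lo β (Φ x) = 0 := by simp [lo, hx]
        have c3 : 0 ≤ G2 e Φ x := Finset.sum_nonneg fun j _ => sq_nonneg _
        have c4 : 0 ≤ s ^ 2 / δ * ‖Ev e α β m a V Φ x‖ ^ 2 := by positivity
        rw [indicator_of_notMem (by simp [hx])]
        rw [c1, c2, hx, norm_zero] at s1
        rw [c1, c2, hx, norm_zero]
        have c5 := mul_le_mul_of_nonneg_left s1 hs0.le
        have c6 := mul_nonneg hs0.le c3
        linarith only [c4, c5, c6]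
      · obtain ⟨R, k, t1, t2, t3⟩ := s2 hx
        have c0 : 0 < ‖Φ x‖ := norm_pos_iff.2 hx
        have c1 := sq_split hc.rep (Φ x)
        have c2 := hR d p (2 * m) δ (a + V x) (‖up β (Φ x)‖ ^ 2) (‖lo β (Φ x)‖ ^ 2) (gf Φ x)
          ‖Ev e α β m a V Φ x‖ (η * B * ‖Φ x‖ ^ 2 + (1 + 1 / η) * ‖Ev e α β m a V Φ x‖ ^ 2)
          (G2 e Φ x) (‖D0 e α β Φ x‖ ^ 2) R k hd hp (by linarith only [hm]) hδ (sq_nonneg _)
          (sq_nonneg _) (by rw [← c1]; positivity) (norm_nonneg _) (by positivity)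
          (by rw [← c1]; exact t1) t2 (by rw [← hs]; exact t3) (by linarith only [s1, b2])
        rw [← hs, ← c1] at c2
        rw [indicator_of_mem (show x ∈ {x | 0 < ‖Φ x‖} from c0)]
        linarith only [c2]
  rw [integral_indicator hmS, (hL Φ).2] at key
  have j1 := mul_le_mul_of_nonneg_left ((le_abs_self _).trans (hJ a M η V Φ hη hV hN))
    (show 0 ≤ s * (2 * m) by positivity)
  have j2 := mul_le_mul_of_nonneg_left hN.err
    (show 0 ≤ s * (1 + 1 / η) + s ^ 2 / δ by positivity)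
  have j3 : (s * (1 + 1 / η) + s ^ 2 / δ) * η ^ 2 ≤ η * (s * 2 + s ^ 2 / δ) := by
    have q1 : (s * (1 + 1 / η) + s ^ 2 / δ) * η ^ 2 = η * (s * η + s + s ^ 2 / δ * η) := by
      field_simp
    have q2 := mul_le_mul_of_nonneg_left hη1 hs0.le
    have q3 := mul_le_mul_of_nonneg_left hη1 (show 0 ≤ s ^ 2 / δ by positivity)
    rw [q1]
    exact mul_le_mul_of_nonneg_left (by linarith only [q2, q3]) hη.le
  have j4 := mul_le_mul_of_nonneg_right j3 hN.pos.le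
  rw [← hs]
  linarith only [key, j1, j2, j4]

end Pool.Agent.MP_e4cac8_mp.Cr

end

section
set_option autoImplicit false
set_option linter.unusedSectionVars false

open Set MeasureTheory Filter Topology
open scoped ENNReal NNReal SchwartzMap
open Pool.Agent.MP_0b7119_mp.G

namespace Pool.Agent.MP_e4cac8_mp.Cr

theorem ex_Key {p ε ξ θ ρ : ℝ} (hp : 0 ≤ p) (hε : 0 < ε) (hξ : 0 < ξ) (hθ : 0 < θ) :
    ∃ y : ℝ, 1 < y ∧ y ^ 2 < 1 + ε ∧ y ^ p < 1 + ξ ∧
      y ^ p * ((1 - θ) * y ^ p + θ * (1 + ρ)) < 1 + θ * ρ + θ ^ 2 := by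
  have cp : Continuous fun y : ℝ => y ^ p := Real.continuous_rpow_const hp
  have h1 : ∀ᶠ y : ℝ in 𝓝 1, y ^ 2 < 1 + ε :=
    (continuous_pow 2).continuousAt.eventually_lt continuousAt_const (by simpa using hε)
  have h2 : ∀ᶠ y : ℝ in 𝓝 1, y ^ p < 1 + ξ :=
    cp.continuousAt.eventually_lt continuousAt_const (by simpa using hξ)
  have h3 : ∀ᶠ y : ℝ in 𝓝 1, y ^ p * ((1 - θ) * y ^ p + θ * (1 + ρ)) < 1 + θ * ρ + θ ^ 2 :=
    (cp.mul ((cp.const_mul _).add continuous_const)).continuousAt.eventually_lt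
      continuousAt_const (by
        show (1 : ℝ) ^ p * ((1 - θ) * 1 ^ p + θ * (1 + ρ)) < _
        rw [Real.one_rpow]
        nlinarith [pow_pos hθ 2])
  obtain ⟨y, h, hy⟩ := ((((h1.and h2).and h3).filter_mono nhdsWithin_le_nhds).and
    (self_mem_nhdsWithin (s := Ioi 1))).exists
  exact ⟨y, hy, h.1.1, h.1.2, h.2⟩

theorem tau_Key {d : ℕ} (hd : 2 ≤ d) {q : ℝ} (hq : 1 ≤ q) :
    ∃ τ : ℝ, 1 ≤ τ ∧ τ ^ d = q ∧ τ ^ 2 ≤ 1 + 2 / d * (q - 1) := by
  have d2 : (2 : ℝ) ≤ d := by exact_mod_cast hd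
  have q0 : 0 ≤ q := by linarith
  refine ⟨q ^ (d : ℝ)⁻¹, Real.one_le_rpow hq (by positivity),
    Real.rpow_inv_natCast_pow q0 (by omega), ?_⟩
  have h := rpow_one_add_le_one_add_mul_self (s := q - 1) (p := 2 / d) (by linarith)
    (by positivity) ((div_le_one (by linarith)).2 d2)
  rwa [add_sub_cancel, div_eq_inv_mul, Real.rpow_mul q0, Real.rpow_two, ← div_eq_inv_mul] at h

theorem fin_Key {a M K θ η ξ ρ τ c L S X : ℝ} (ha : 0 < a) (hM : 0 < M) (hK : 0 ≤ K) (hθ : 0 < θ)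
    (hθ1 : θ ≤ 1) (hρ1 : ρ ≤ 1) (hρ : 0 < ρ) (hη0 : 0 < η) (hη : η ≤ θ ^ 2)
    (hc : c ≤ 1) (hξ : θ * (a + 3 * M + 3 * (M ^ 2 / a) + 3 * K + 1) ≤ ξ)
    (hτ : τ ^ 2 ≤ 1 + c * (θ * ρ + θ ^ 2)) (hL0 : 0 ≤ L) (hS : 0 ≤ S) (hL : L ≤ (a + M) * S)
    (h : θ * X ≤ (τ ^ 2 - 1) * L + ((τ ^ 2 - 1) * θ * M + τ ^ 2 * θ ^ 2 * M ^ 2 / a) * S +
      τ ^ 2 * η * K * S + η * S) : X ≤ ρ * (c * L) + ξ * S := by
  have t2 : 0 < θ ^ 2 := pow_pos hθ 2
  have t1 : τ ^ 2 - 1 ≤ 2 * θ := by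
    have := mul_le_mul_of_nonneg_right hc (by positivity : 0 ≤ θ * ρ + θ ^ 2)
    nlinarith
  have t3 : τ ^ 2 ≤ 3 := by linarith
  have e1 : (τ ^ 2 - 1) * L ≤ θ * (ρ * (c * L)) + θ ^ 2 * ((a + M) * S) := by
    have h1 := mul_le_mul_of_nonneg_right (by linarith : τ ^ 2 - 1 ≤ c * (θ * ρ + θ ^ 2)) hL0
    have h2 : c * L ≤ (a + M) * S := (mul_le_of_le_one_left hL0 hc).trans hL
    nlinarith [mul_le_mul_of_nonneg_left h2 t2.le]
  have e2 : (τ ^ 2 - 1) * (θ * M * S) ≤ 2 * θ * (θ * M * S) :=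
    mul_le_mul_of_nonneg_right t1 (by positivity)
  have e3 : τ ^ 2 * (θ ^ 2 * (M ^ 2 / a) * S) ≤ 3 * (θ ^ 2 * (M ^ 2 / a) * S) :=
    mul_le_mul_of_nonneg_right t3 (by positivity)
  have e4 : τ ^ 2 * η * (K * S) ≤ 3 * θ ^ 2 * (K * S) :=
    mul_le_mul_of_nonneg_right (mul_le_mul t3 hη hη0.le (by norm_num)) (by positivity)
  have e5 : η * S ≤ θ ^ 2 * S := mul_le_mul_of_nonneg_right hη hS
  have e6 := mul_le_mul_of_nonneg_right hξ (by positivity : 0 ≤ θ * S)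
  refine le_of_mul_le_mul_left ?_ hθ
  rw [mul_div_assoc] at h
  nlinarith

section spinor

variable {E S : Type} [NormedAddCommGroup E] [InnerProductSpace ℝ E] [FiniteDimensional ℝ E]
  [MeasurableSpace E] [BorelSpace E] [NormedAddCommGroup S] [InnerProductSpace ℂ S]
  [CompleteSpace S] [FiniteDimensional ℂ S] {d : ℕ}
  {e : OrthonormalBasis (Fin d) ℝ E} {α : Fin d → S →L[ℂ] S} {β : S →L[ℂ] S} {m : ℝ}

theorem mix_Key {p M θ : ℝ} {V v : E → ℝ} (hp : 1 ≤ p) (h0 : 0 ≤ θ) (h1 : θ ≤ 1) (hV : Bm M V)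
    (hv : Bm M v) (iV : Integrable (fun x => V x ^ p) volume)
    (iv : Integrable (fun x => v x ^ p) volume) :
    Bm M (fun x => V x + θ * (v x - V x)) ∧
      Integrable (fun x => (V x + θ * (v x - V x)) ^ p) volume ∧
      ∫ x, (V x + θ * (v x - V x)) ^ p ≤ (1 - θ) * (∫ x, V x ^ p) + θ * ∫ x, v x ^ p := by
  have hB : Bm M fun x => V x + θ * (v x - V x) :=
    ⟨hV.meas.add ((hv.meas.sub hV.meas).const_mul θ),
      fun x => by nlinarith [hV.nonneg x, hv.nonneg x], fun x => by nlinarith [hV.le x, hv.le x]⟩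
  have hp' : ∀ x, (V x + θ * (v x - V x)) ^ p ≤ (1 - θ) * V x ^ p + θ * v x ^ p := fun x => by
    have h := (convexOn_rpow hp).2 (mem_Ici.2 (hV.nonneg x)) (mem_Ici.2 (hv.nonneg x))
      (sub_nonneg.2 h1) h0 (sub_add_cancel 1 θ)
    simp only [smul_eq_mul] at h
    rwa [show (1 - θ) * V x + θ * v x = V x + θ * (v x - V x) by ring] at h
  have iS : Integrable (fun x => (1 - θ) * V x ^ p + θ * v x ^ p) volume :=
    (iV.const_mul _).add (iv.const_mul _)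
  have iW : Integrable (fun x => (V x + θ * (v x - V x)) ^ p) volume :=
    iS.mono' (hB.meas.pow_const p).aestronglyMeasurable (Eventually.of_forall fun x => by
      rw [Real.norm_of_nonneg (Real.rpow_nonneg (hB.nonneg x) _)]
      exact hp' x)
  refine ⟨hB, iW, (integral_mono iW iS hp').trans_eq ?_⟩
  rw [integral_add (iV.const_mul _) (iv.const_mul _), integral_const_mul, integral_const_mul]

theorem sKey (hc : Ctx α β m) (hB : SBt e α β m) (hD : SDil e α β) (hN : SNear e α β m)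
    (hJ : SJ e α β m) (hM : SMc e α β m) (h0 : SKey0) : SKey e α β m := by
  intro p a M A ρ ξ hp ha M0 A0 hC hρ hρ1 hξ
  have d2 : (2 : ℝ) ≤ d := by exact_mod_cast hc.two
  have a0 := ha.1
  have p0 : 0 ≤ p := by linarith
  obtain ⟨K, K0, hK⟩ := hM a M a0
  obtain ⟨θ, θ0, θ1, hθ⟩ : ∃ θ : ℝ, 0 < θ ∧ θ ≤ 1 ∧
      θ * (a + 3 * M + 3 * (M ^ 2 / a) + 3 * K + 1) ≤ ξ := by
    have c0 : 0 < a + 3 * M + 3 * (M ^ 2 / a) + 3 * K + 1 := by positivity
    exact ⟨min 1 (ξ / (a + 3 * M + 3 * (M ^ 2 / a) + 3 * K + 1)), lt_min one_pos (by positivity),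
      min_le_left _ _, (le_div_iff₀ c0).1 (min_le_right _ _)⟩
  obtain ⟨η, η0, η1, η2⟩ : ∃ η : ℝ, 0 < η ∧ η ≤ θ ^ 2 ∧ η ≤ ξ :=
    ⟨min (θ ^ 2) ξ, lt_min (by positivity) hξ, min_le_left _ _, min_le_right _ _⟩
  obtain ⟨ε, ε0, hε⟩ := hN a ha M η M0 η0
  obtain ⟨y, y1, y2, y3, y4⟩ := ex_Key (ρ := ρ) p0 ε0 hξ θ0
  have y0 : 0 < y := by linarith
  have yp : 1 ≤ y ^ p := Real.one_le_rpow y1.le p0
  have Ap : 0 < A ^ p := Real.rpow_pos_of_pos A0 p
  have h1 := hC.1 (A / y) (by positivity) (div_lt_self A0 y1)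
  have h2 := hC.2 (A * y) (lt_mul_of_one_lt_right A0 y1)
  simp only [HP, not_forall] at h2
  obtain ⟨V, hV, VM, hn⟩ := h2
  have bV : Bm M V := ⟨hV.meas, hV.nonneg, VM⟩
  have iV : ∫ x, V x ^ p ≤ A ^ p * y ^ p := Real.mul_rpow A0.le y0.le ▸ hV.le
  have e1 : ∀ x, (V x / y ^ 2) ^ p = V x ^ p / (y ^ 2) ^ p := fun x =>
    Real.div_rpow (hV.nonneg x) (by positivity) p
  have h3 : BS (rk e α β m (a - m)) V (y ^ 2) := by
    refine bs_mul (by positivity) (h1 _ ⟨hV.meas.div_const _,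
      fun x => div_nonneg (hV.nonneg x) (by positivity), ?_, ?_⟩ fun x =>
        (div_le_self (hV.nonneg x) (one_le_pow₀ y1.le)).trans (VM x))
    · simp only [e1]
      exact hV.int.div_const _
    · simp only [e1]
      rw [integral_div, show A / y = A * y / y ^ 2 by field_simp,
        Real.div_rpow (by positivity) (by positivity)]
      exact div_le_div_of_nonneg_right hV.le (by positivity)
  obtain ⟨Φ, hΦ⟩ := hε V bV hn fun g hg =>
    (h3 g hg).trans (mul_le_mul_of_nonneg_right y2.le (JD.I2_nonneg g))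
  refine ⟨V, Φ, bV, hV.int, iV.trans (by nlinarith), ⟨hΦ.pos, hΦ.err.trans
    (mul_le_mul_of_nonneg_right (pow_le_pow_left₀ η0.le η2 2) hΦ.pos.le)⟩, fun v bv iv hv => ?_⟩
  obtain ⟨bW, iW, hW⟩ := mix_Key (by linarith : 1 ≤ p) θ0.le θ1 bV bv hV.int iv
  have q1 : 1 ≤ (1 - θ) * y ^ p + θ * (1 + ρ) := by nlinarith [mul_pos θ0 hρ]
  obtain ⟨τ, τ1, τd, τ2⟩ := tau_Key hc.two (one_le_mul_of_one_le_of_one_le yp q1)
  have hT : TS e α β τ a (2 * m - a) fun x => V x + θ * (v x - V x) := by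
    refine ht_of_hp hB hD ha h1 τ _ τ1 bW iW (hW.trans ?_)
    rw [τd, Real.div_rpow A0.le y0.le, mul_comm (y ^ p), mul_assoc,
      mul_div_cancel₀ _ (by linarith : y ^ p ≠ 0)]
    nlinarith [mul_le_mul_of_nonneg_left iV (sub_nonneg.2 θ1), mul_le_mul_of_nonneg_left hv θ0.le]
  have h4 := h0 E volume a (2 * m - a) M θ τ _ _ (fun x => ‖up β (Φ x)‖ ^ 2)
    (fun x => ‖lo β (Φ x)‖ ^ 2) V v a0 θ0 θ1 τ1 (fun x => sq_nonneg _) (fun x => sq_nonneg _)
    (int_up Φ) (int_lo Φ) bV bv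
    (hK a (2 * m - a) M η τ V _ Φ le_rfl η0 (η1.trans (pow_le_one₀ θ0.le θ1)) bV bW hΦ hT)
    (le_of_abs_le (hJ a M η V Φ η0 bV hΦ))
  simp only [← sq_split hc.rep] at h4
  have c0 : (0 : ℝ) ≤ 2 / d := by positivity
  refine fin_Key a0 M0 K0 θ0 θ1 hρ1 hρ η0 η1 ((div_le_one (by linarith)).2 d2) hθ
    (τ2.trans (add_le_add le_rfl (mul_le_mul_of_nonneg_left (by linarith) c0)))
    (integral_nonneg fun x => mul_nonneg (add_nonneg a0.le (hV.nonneg x)) (sq_nonneg _))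
    hΦ.pos.le ?_ h4
  rw [← integral_const_mul]
  refine integral_mono_of_nonneg (Eventually.of_forall fun x =>
    mul_nonneg (add_nonneg a0.le (hV.nonneg x)) (sq_nonneg _)) ((int_sq Φ).const_mul _)
    (Eventually.of_forall fun x => mul_le_mul (add_le_add le_rfl (VM x)) ?_ (sq_nonneg _)
      (by positivity))
  rw [sq_split hc.rep (Φ x)]
  exact le_add_of_nonneg_left (sq_nonneg _)

end spinor

end Pool.Agent.MP_e4cac8_mp.Cr

end

section
set_option autoImplicit false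
set_option linter.unusedSectionVars false

open Set MeasureTheory Filter Topology
open scoped ENNReal NNReal SchwartzMap
open Pool.Agent.MP_0b7119_mp.G

namespace Pool.Agent.MP_e4cac8_mp.Cr

variable {E S : Type} [NormedAddCommGroup E] [InnerProductSpace ℝ E] [FiniteDimensional ℝ E]
  [MeasurableSpace E] [BorelSpace E] [NormedAddCommGroup S] [InnerProductSpace ℂ S]
  [CompleteSpace S] [FiniteDimensional ℂ S] {d : ℕ}
  {e : OrthonormalBasis (Fin d) ℝ E} {α : Fin d → S →L[ℂ] S} {β : S →L[ℂ] S} {m : ℝ}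

theorem rho_Ns {η K L : ℝ} (hη : 0 < η) (hK : 0 < K) (hL : 0 < L) :
    ∃ ρ : ℝ, 0 < ρ ∧ ρ ≤ 1 ∧ ρ ≤ η ∧ K * ρ ≤ η ^ 2 ∧ L * ρ ≤ η := by
  refine ⟨min (min 1 η) (min (η ^ 2 / K) (η / L)), by positivity,
    (min_le_left _ _).trans (min_le_left _ _), (min_le_left _ _).trans (min_le_right _ _), ?_, ?_⟩
  · rw [← le_div_iff₀' hK]
    exact (min_le_right _ _).trans (min_le_left _ _)
  · rw [← le_div_iff₀' hL]
    exact (min_le_right _ _).trans (min_le_right _ _)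

theorem D0_smul_Ns (k : ℂ) (Φ : 𝓢(E, S)) (x : E) :
    D0 e α β (k • Φ) x = k • D0 e α β Φ x := by
  have h : fderiv ℝ (k • Φ : 𝓢(E, S)) x = k • fderiv ℝ Φ x :=
    fderiv_const_smul (Φ.differentiableAt) k
  rw [D0_eq, D0_eq, smul_comm k]
  congr 1
  unfold Zf
  rw [h, Finset.smul_sum]
  exact Finset.sum_congr rfl fun j _ => by rw [ContinuousLinearMap.smul_apply, map_smul]

theorem Ev_smul_Ns (k : ℂ) (a : ℝ) (V v : E → ℝ) (Φ : 𝓢(E, S)) (x : E) :
    Ev e α β m a v (k • Φ) x = k • (Ev e α β m a V Φ x + ((V x - v x : ℝ) : ℂ) • Φ x) := by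
  unfold Ev
  rw [D0_smul_Ns, SchwartzMap.smul_apply]
  unfold up
  rw [map_smul]
  push_cast
  module

theorem lo_smul_Ns (k : ℂ) (z : S) : lo β (k • z) = k • lo β z := by
  unfold lo
  rw [map_smul]
  module

theorem amgm_Ns {η y l s : ℝ} (hη : 0 < η) (h0 : 0 ≤ l) (h1 : l ≤ s) :
    y * l ≤ η / 8 * s + 2 / η * (s * y ^ 2) := by
  have h2 : y ≤ η / 8 + 2 / η * y ^ 2 := by
    have : η / 8 + 2 / η * y ^ 2 - y = 2 / η * (y - η / 4) ^ 2 := by field_simp; ring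
    have h3 : 0 ≤ 2 / η * (y - η / 4) ^ 2 := by positivity
    linarith
  have h4 : 0 ≤ η / 8 + 2 / η * y ^ 2 := by positivity
  calc y * l ≤ (η / 8 + 2 / η * y ^ 2) * l := mul_le_mul_of_nonneg_right h2 h0
    _ ≤ (η / 8 + 2 / η * y ^ 2) * s := mul_le_mul_of_nonneg_left h1 h4
    _ = _ := by ring

theorem sNs (hc : Ctx α β m) (hK : SKey e α β m) (hE : SEl) : SNs e α β m := by
  intro p a M A η hp ha hM hA hcr hη
  have d2 : (2 : ℝ) ≤ d := by exact_mod_cast hc.two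
  have a0 := ha.1
  have p0 : 0 < p := by linarith
  obtain ⟨ρ, r0, r1, r2, r3, r4⟩ := rho_Ns (K := 8 * (1 + 3 * M * (a + M + 2)))
    (L := 4 * (p + 2 * M)) hη (by positivity) (by positivity)
  obtain ⟨V, Φ, hV, iV, nV, hN, hv⟩ := hK p a M A ρ (ρ ^ 2) hp ha hM hA hcr r0 r1 (by positivity)
  have lole : ∀ x, ‖lo β (Φ x)‖ ^ 2 ≤ ‖Φ x‖ ^ 2 := fun x => by
    rw [sq_split hc.rep (Φ x)]; linarith [sq_nonneg ‖up β (Φ x)‖]
  have iT : ∀ {W : E → ℝ}, Bm M W → Integrable (fun x => (a + W x) * ‖lo β (Φ x)‖ ^ 2) volume :=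
    fun hW => Bm.int (M := a + M) ⟨hW.meas.const_add a, fun x => by linarith [hW.nonneg x],
      fun x => by linarith [hW.le x]⟩ (int_lo Φ)
  have T0 : 0 ≤ ∫ x, (a + V x) * ‖lo β (Φ x)‖ ^ 2 :=
    integral_nonneg fun x => mul_nonneg (by linarith [hV.nonneg x]) (sq_nonneg _)
  have T1 : ∫ x, (a + V x) * ‖lo β (Φ x)‖ ^ 2 ≤ (a + M) * ∫ x, ‖Φ x‖ ^ 2 := by
    rw [← integral_const_mul]
    exact integral_mono (iT hV) ((int_sq Φ).const_mul _) fun x =>
      mul_le_mul (by linarith [hV.le x]) (lole x) (sq_nonneg _) (by linarith)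
  have ms : Measurable fun x => ‖Φ x‖ ^ 2 := (Φ.continuous.norm.pow 2).measurable
  obtain ⟨c, c0, h1, h2, h3⟩ := hE E volume p M (A ^ p) ρ
    (2 / d * ∫ x, (a + V x) * ‖lo β (Φ x)‖ ^ 2) (fun x => ‖Φ x‖ ^ 2) V (by linarith) hM
    (by positivity) r0 r1 (by positivity) ms (fun x => sq_nonneg _) (int_sq Φ) hN.pos hV iV nV hv
  have S0 := hN.pos
  have err := hN.err
  have hb : Bm M fun x => vc p M (c * ‖Φ x‖ ^ 2) :=
    bm_vc (by linarith) hM.le (ms.const_mul c) fun x => by positivity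
  obtain ⟨v, hvd⟩ : ∃ v : E → ℝ, ∀ x, vc p M (c * ‖Φ x‖ ^ 2) = v x := ⟨_, fun _ => rfl⟩
  simp only [hvd] at h1 h2 h3 hb
  have nk : ∀ z : S, ‖((√c : ℝ) : ℂ) • z‖ ^ 2 = c * ‖z‖ ^ 2 := fun z => by
    rw [norm_smul, mul_pow, Complex.norm_real, Real.norm_eq_abs, sq_abs, Real.sq_sqrt c0.le]
  have nΨ : ∀ x, ‖(((√c : ℝ) : ℂ) • Φ : 𝓢(E, S)) x‖ ^ 2 = c * ‖Φ x‖ ^ 2 := fun x => by
    rw [SchwartzMap.smul_apply, nk]
  have iQ : Integrable (fun x => ‖Φ x‖ ^ 2 * (V x - v x) ^ 2) volume := by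
    have := Bm.int (M := M ^ 2) (V := fun x => (V x - v x) ^ 2)
      ⟨(hV.meas.sub hb.meas).pow_const 2, fun x => sq_nonneg _, fun x =>
        sq_le_sq' (by linarith [hV.nonneg x, hb.le x]) (by linarith [hV.le x, hb.nonneg x])⟩
      (int_sq Φ)
    simpa only [mul_comm] using this
  generalize hT : ∫ x, (a + V x) * ‖lo β (Φ x)‖ ^ 2 = T at *
  have hQ : ∫ x, ‖Φ x‖ ^ 2 * (V x - v x) ^ 2 ≤ 3 * M * (a + M + 2) * ρ * ∫ x, ‖Φ x‖ ^ 2 := by
    have k1 : 2 / d * T ≤ T := mul_le_of_le_one_left T0 ((div_le_one (by linarith)).2 d2)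
    have k2 : ρ * (2 / d * T) ≤ ρ * ((a + M) * ∫ x, ‖Φ x‖ ^ 2) :=
      mul_le_mul_of_nonneg_left (k1.trans T1) r0.le
    have k3 : ρ ^ 2 * ∫ x, ‖Φ x‖ ^ 2 ≤ ρ * ∫ x, ‖Φ x‖ ^ 2 :=
      mul_le_mul_of_nonneg_right (by nlinarith) S0.le
    refine h2.trans ?_
    have k4 : ρ * (2 / d * T) + 2 * ρ ^ 2 * ∫ x, ‖Φ x‖ ^ 2 ≤
        (a + M + 2) * ρ * ∫ x, ‖Φ x‖ ^ 2 := by linarith
    calc _ ≤ 3 * M * ((a + M + 2) * ρ * ∫ x, ‖Φ x‖ ^ 2) :=
          mul_le_mul_of_nonneg_left k4 (by positivity)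
      _ = _ := by ring
  refine ⟨((√c : ℝ) : ℂ) • Φ, ⟨?_, ?_⟩, ?_, ?_⟩
  · simp only [nΨ]
    rw [integral_const_mul]
    positivity
  · simp only [nΨ, hvd]
    have iE := JD.int_sq (memLp_Ev (e := e) (α := α) (β := β) (m := m) hV a Φ)
    have k1 : ∫ x, ‖Ev e α β m a v (((√c : ℝ) : ℂ) • Φ) x‖ ^ 2 ≤
        ∫ x, c * (2 * ‖Ev e α β m a V Φ x‖ ^ 2 + 2 * (‖Φ x‖ ^ 2 * (V x - v x) ^ 2)) := by
      refine integral_mono (JD.int_sq (memLp_Ev hb a _))
        (((iE.const_mul 2).add (iQ.const_mul 2)).const_mul c) fun x => ?_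
      beta_reduce
      rw [Ev_smul_Ns _ a V, nk]
      refine mul_le_mul_of_nonneg_left ?_ c0.le
      have k2 := norm_add_le (Ev e α β m a V Φ x) (((V x - v x : ℝ) : ℂ) • Φ x)
      have k3 : ‖((V x - v x : ℝ) : ℂ) • Φ x‖ ^ 2 = ‖Φ x‖ ^ 2 * (V x - v x) ^ 2 := by
        rw [norm_smul, mul_pow, Complex.norm_real, Real.norm_eq_abs, sq_abs, mul_comm]
      rw [← k3]
      refine (pow_le_pow_left₀ (norm_nonneg _) k2 2).trans ?_
      nlinarith [sq_nonneg (‖Ev e α β m a V Φ x‖ - ‖((V x - v x : ℝ) : ℂ) • Φ x‖)]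
    rw [integral_const_mul, integral_add (iE.const_mul 2) (iQ.const_mul 2), integral_const_mul,
      integral_const_mul] at k1
    rw [integral_const_mul, mul_left_comm]
    refine k1.trans (mul_le_mul_of_nonneg_left ?_ c0.le)
    have k4 : (ρ ^ 2) ^ 2 ≤ ρ := by
      have : ρ ^ 2 ≤ 1 := pow_le_one₀ r0.le r1
      nlinarith [sq_nonneg ρ]
    have k5 : 2 * ((ρ ^ 2) ^ 2 + 3 * M * (a + M + 2) * ρ) ≤ η ^ 2 := by
      have : 0 ≤ 3 * M * (a + M + 2) * ρ := by positivity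
      linarith
    have k6 := mul_le_mul_of_nonneg_right k5 S0.le
    linarith
  · simp only [nΨ, hvd]
    exact h1.trans (mul_le_mul_of_nonneg_right (by linarith) (by positivity))
  · simp only [nΨ, hvd, SchwartzMap.smul_apply, lo_smul_Ns, nk, mul_left_comm _ c]
    rw [integral_const_mul, integral_const_mul]
    have k1 : T ≤ (∫ x, (a + v x) * ‖lo β (Φ x)‖ ^ 2) + (η / 8 * (∫ x, ‖Φ x‖ ^ 2) +
        2 / η * ∫ x, ‖Φ x‖ ^ 2 * (V x - v x) ^ 2) := by
      have i2 : Integrable (fun x => η / 8 * ‖Φ x‖ ^ 2 +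
          2 / η * (‖Φ x‖ ^ 2 * (V x - v x) ^ 2)) volume :=
        ((int_sq Φ).const_mul _).add (iQ.const_mul _)
      rw [← hT, ← integral_const_mul, ← integral_const_mul,
        ← integral_add ((int_sq Φ).const_mul _) (iQ.const_mul _), ← integral_add (iT hb) i2]
      refine integral_mono (iT hV) ((iT hb).add i2) fun x => ?_
      have := amgm_Ns (y := V x - v x) hη (sq_nonneg _) (lole x)
      beta_reduce
      linarith
    generalize ∫ x, (a + v x) * ‖lo β (Φ x)‖ ^ 2 = T' at k1 ⊢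
    generalize ∫ x, ‖Φ x‖ ^ 2 * (V x - v x) ^ 2 = Q at k1 hQ
    generalize ∫ x, ‖Φ x‖ ^ 2 = Z at *
    have k2 : 2 / η * Q ≤ η / 4 * Z := by
      have k3 : 3 * M * (a + M + 2) * ρ ≤ η ^ 2 / 8 := by linarith
      calc 2 / η * Q ≤ 2 / η * (η ^ 2 / 8 * Z) := mul_le_mul_of_nonneg_left
            (hQ.trans (mul_le_mul_of_nonneg_right k3 S0.le)) (by positivity)
        _ = η / 4 * Z := by field_simp; ring
    have k4 : ρ * (p + 2 * M) * Z ≤ η / 4 * Z := mul_le_mul_of_nonneg_right (by linarith) S0.le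
    have k5 : d / p * (ρ * (p + 2 * M) * Z) ≤ ρ * (p + 2 * M) * Z :=
      mul_le_of_le_one_left (by positivity) ((div_le_one p0).2 hp.le)
    have k6 : d / p * (c * (p * (2 / d * T) + ρ * (p + 2 * M) * Z)) =
        c * (2 * T + d / p * (ρ * (p + 2 * M) * Z)) := by
      have : (d : ℝ) ≠ 0 := by linarith
      field_simp
    have k7 : c * (2 * T + d / p * (ρ * (p + 2 * M) * Z)) ≤ c * (2 * T' + η * Z) :=
      mul_le_mul_of_nonneg_left (by linarith) c0.le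
    have k8 := mul_le_mul_of_nonneg_left h3 (show 0 ≤ (d : ℝ) / p by positivity)
    linarith

end Pool.Agent.MP_e4cac8_mp.Cr

end

section
/-! The contradiction at a critical norm below the sharp constant. -/

set_option autoImplicit false
set_option linter.unusedSectionVars false

open Set MeasureTheory Filter Topology
open scoped ENNReal NNReal SchwartzMap
open Pool.Agent.MP_0b7119_mp.G

namespace Pool.Agent.MP_e4cac8_mp.Cr

variable {E S : Type} [NormedAddCommGroup E] [InnerProductSpace ℝ E] [FiniteDimensional ℝ E]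
  [MeasurableSpace E] [BorelSpace E] [NormedAddCommGroup S] [InnerProductSpace ℂ S]
  [CompleteSpace S] [FiniteDimensional ℂ S] {d : ℕ}
  {e : OrthonormalBasis (Fin d) ℝ E} {α : Fin d → S →L[ℂ] S} {β : S →L[ℂ] S} {m : ℝ}

theorem room_Core {p A : ℝ} (hm : 0 < m) (hp : (Module.finrank ℝ E : ℝ) < p)
    (h : A ^ p < Ac E p 1 (2 * m)) : ∃ z : ℝ, 0 < z ∧ z < 1 ∧ z < m ∧
      (1 + z) * A ^ p < Ac E p (1 - z) (2 * m - z) := by
  have h1 : ContinuousAt (fun z : ℝ => Ac E p (1 - z) (2 * m - z)) 0 := by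
    unfold Ac Cp
    refine continuousAt_const.mul (((continuousAt_const.mul ?_).mul ?_).mul continuousAt_const)
    · exact ContinuousAt.rpow_const (by fun_prop) (Or.inl (by norm_num))
    · refine ContinuousAt.rpow_const (by fun_prop) (Or.inl ?_)
      have : 0 < p - Module.finrank ℝ E := by linarith
      simp only [sub_zero]
      positivity
  have h2 : ContinuousAt (fun z : ℝ => (1 + z) * A ^ p) 0 := by fun_prop
  have h3 := h2.eventually_lt h1 (by simpa using h)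
  obtain ⟨z, ⟨h4, h5, h6⟩, h7⟩ := (((h3.and ((gt_mem_nhds one_pos).and
    (gt_mem_nhds hm))).filter_mono nhdsWithin_le_nhds).and
      (eventually_mem_nhdsWithin (s := Ioi (0 : ℝ)))).exists
  exact ⟨z, h7, h5, h6, h4⟩

theorem fin_Core {z a ω η Γ c K₂ K₃ b G Q N P T Sg I₁ I₂ : ℝ} (z0 : 0 < z) (a0 : 0 < a)
    (az : a ≤ z / 8) (Γ0 : 0 < Γ) (ω0 : 0 < ω) (ω1 : ω ≤ 1 / 4) (ωz : ω * (96 * Γ) ≤ z) (η0 : 0 < η)
    (K3 : 0 ≤ K₃) (ηK : η * (24 * K₃) ≤ z * a) (S0 : 0 < Sg) (hS : a * Sg ≤ 24 * ω * N)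
    (PN : P ≤ N) (cΓ : Γ ≤ c) (h1 : Q - (b - z) * N + c * (N - P) ≤ G)
    (h2 : G ≤ I₁ + T + η * K₂ * Sg) (h3 : I₁ ≤ Q - (b - 2 * a) * N)
    (h4 : T ≤ Γ * (a * Sg + N - P) + η * I₂ * Sg) (hK : K₃ = K₂ + I₂) : False := by
  have aS : 0 < a * Sg := by positivity
  have N0 : 0 < N := (mul_pos_iff_of_pos_left (show 0 < 24 * ω by positivity)).1 (aS.trans_le hS)
  have e1 : Γ * (a * Sg) ≤ z / 4 * N := by
    have := mul_le_mul_of_nonneg_left hS Γ0.le
    have := mul_le_mul_of_nonneg_right ωz N0.le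
    linarith
  have e2 : η * K₃ * Sg ≤ z / 4 * N := by
    refine le_of_mul_le_mul_left ?_ a0
    have c1 : a * Sg ≤ 6 * N := by nlinarith
    have c2 := mul_le_mul_of_nonneg_left c1 (mul_nonneg η0.le K3)
    have c3 := mul_le_mul_of_nonneg_right ηK N0.le
    linarith
  have e3 := mul_le_mul_of_nonneg_right cΓ (sub_nonneg.2 PN)
  have e4 := mul_le_mul_of_nonneg_right az N0.le
  have e5 := mul_pos z0 N0
  rw [hK] at e2
  linarith

theorem lin_Core {f₁ f₂ f₃ f₄ F : E → ℝ} (c₁ c₂ c₃ c₄ : ℝ) (h₁ : Integrable f₁ volume)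
    (h₂ : Integrable f₂ volume) (h₃ : Integrable f₃ volume) (h₄ : Integrable f₄ volume)
    (h : ∀ x, F x = c₁ * f₁ x + c₂ * f₂ x + (c₃ * f₃ x + c₄ * f₄ x)) :
    ∫ x, F x = c₁ * (∫ x, f₁ x) + c₂ * (∫ x, f₂ x) + (c₃ * (∫ x, f₃ x) + c₄ * ∫ x, f₄ x) := by
  have a := (h₁.const_mul c₁).fun_add (h₂.const_mul c₂)
  have b := (h₃.const_mul c₃).fun_add (h₄.const_mul c₄)
  simp only [h]
  rw [integral_add a b, integral_add (h₁.const_mul c₁) (h₂.const_mul c₂),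
    integral_add (h₃.const_mul c₃) (h₄.const_mul c₄)]
  simp only [integral_const_mul]

theorem sCore (hc : Ctx α β m) (hB : SBt e α β m) (hD : SDil e α β) (hN : SNs e α β m)
    (hJ : SJ e α β m) (hM : SMc e α β m) (hA : SAs0) (hS : SSos e α β m) (hL : SLi e α β)
    (hR : SScr E) : SCore e α β m := by
  intro p A hp A0 hlt
  have hm := hc.pos
  have d2 : (2 : ℝ) ≤ d := by exact_mod_cast hc.two
  have hf := finrank_eq e
  have p1 : 1 < p := by linarith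
  have pd : 0 < p - d := by linarith
  have p0 : 0 < p - 1 := by linarith
  obtain ⟨z, z0, z1, zm, hz⟩ := room_Core hm (by rwa [hf]) hlt
  obtain ⟨Γ, hΓ⟩ : ∃ Γ, Γ = (p - 1)⁻¹ * (d * (2 * m / (p - d))) := ⟨_, rfl⟩
  have Γ0 : 0 < Γ := by rw [hΓ]; positivity
  obtain ⟨ω, ω0, ω1, ωz⟩ : ∃ ω : ℝ, 0 < ω ∧ ω ≤ 1 / 4 ∧ ω * (96 * Γ) ≤ z :=
    ⟨min (1 / 4) (z / (96 * Γ)), by positivity, min_le_left _ _,
      (le_div_iff₀ (by positivity)).1 (min_le_right _ _)⟩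
  refine ⟨z / 8, 1 - ω, 2 * m + d * (2 * m / (p - d)), by positivity, by linarith, by linarith,
    fun a ha M hM1 B hB0 hcr hp2 => ?_⟩
  have a0 := ha.1
  have az := ha.2
  have B0 := hB0.1
  have dm : 0 < d * (2 * m / (p - d)) := by positivity
  have M0 : 0 < M := by linarith
  obtain ⟨K₁, K1, hK₁⟩ := hM a M a0
  obtain ⟨K₂, K2, hK₂⟩ := hS p a M z hp a0 z0
  obtain ⟨K₃, hK₃⟩ : ∃ K₃, K₃ = K₂ + 2 * (p / (p - 1) * (2 * m / (p - d))) := ⟨_, rfl⟩
  have K3 : 0 < K₃ := by rw [hK₃]; positivity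
  obtain ⟨η, η0, ηz, ηω, ηa, ηK⟩ : ∃ η : ℝ, 0 < η ∧ η ≤ z ∧ η ≤ ω ∧ η * (K₁ + 2) ≤ a / 4 ∧
      η * (24 * K₃) ≤ z * a :=
    ⟨min (min z ω) (min (a / 4 / (K₁ + 2)) (z * a / (24 * K₃))), by positivity,
      (min_le_left _ _).trans (min_le_left _ _), (min_le_left _ _).trans (min_le_right _ _),
      (le_div_iff₀ (by positivity)).1 ((min_le_right _ _).trans (min_le_left _ _)),
      (le_div_iff₀ (by positivity)).1 ((min_le_right _ _).trans (min_le_right _ _))⟩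
  obtain ⟨Φ, ns, n1, n2⟩ := hN p a M B η hp ⟨a0, by linarith⟩ M0 B0 hcr η0
  have σm : Measurable fun x => ‖Φ x‖ ^ 2 := (Φ.continuous.norm.pow 2).measurable
  have σ0 : ∀ x, 0 ≤ ‖Φ x‖ ^ 2 := fun x => sq_nonneg _
  have bv := bm_vc (M := M) p1 M0.le σm σ0
  have iP := int_vc (M := M) p1 M0.le σm σ0 (int_sq Φ)
  have PN := integral_mono iP (bv.int (int_sq Φ)) fun x =>
    (vc_rpow_le p1 M0.le (σ0 x)).trans (mul_comm _ _).le
  obtain ⟨L, hLev⟩ := (stAlg hc Φ (hL Φ).1).2.2.2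
  obtain ⟨s1, s2⟩ := hK₂ η _ Φ η0 (by linarith) bv ns
  have r1 := hR p (1 - z) (2 * m - z) M L (fun x => ‖Φ x‖) (by rw [hf]; exact hc.two)
    (by rwa [hf]) (by linarith) (by linarith) (by linarith) hLev (int_sq Φ) s1 (by
      refine lt_of_le_of_lt (n1.trans ?_) hz
      have := Real.rpow_le_rpow B0.le hB0.2 (by linarith : 0 ≤ p)
      have := Real.rpow_nonneg B0.le p
      gcongr)
  have j := abs_le.1 (hJ a M η _ Φ η0 bv ns)
  obtain ⟨θ, hθ⟩ : ∃ θ, θ = (1 - ω) / (1 + η) := ⟨_, rfl⟩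
  have θ1 : 1 - 2 * ω ≤ θ := by
    rw [hθ, le_div_iff₀ (by linarith)]
    nlinarith
  have θ2 : θ ≤ 1 := by
    rw [hθ, div_le_one (by linarith)]
    linarith
  have θ0 : 0 ≤ θ := by linarith
  have bθ : Bm M fun x => θ * vc p M (‖Φ x‖ ^ 2) := ⟨bv.meas.const_mul θ,
    fun x => mul_nonneg θ0 (bv.nonneg x), fun x => (mul_le_of_le_one_left (bv.nonneg x) θ2).trans
      (bv.le x)⟩
  have eθ : ∀ x, (θ * vc p M (‖Φ x‖ ^ 2)) ^ p = θ ^ p * vc p M (‖Φ x‖ ^ 2) ^ p :=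
    fun x => Real.mul_rpow θ0 (bv.nonneg x)
  have ts := ht_of_hp hB hD (a := 2 * a) ⟨by linarith, by linarith⟩ hp2 1 _ le_rfl bθ
    (by simp only [eθ]; exact iP.const_mul _) (by
      simp only [eθ]
      rw [integral_const_mul, one_pow, one_mul, Real.mul_rpow (by linarith) B0.le, hθ,
        Real.div_rpow (by linarith) (by linarith), div_mul_eq_mul_div,
        div_le_iff₀ (by positivity), mul_assoc]
      refine mul_le_mul_of_nonneg_left (n1.trans ?_) (Real.rpow_nonneg (by linarith) _)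
      rw [mul_comm]
      exact mul_le_mul_of_nonneg_left (Real.self_le_rpow_of_one_le (by linarith) p1.le)
        (Real.rpow_nonneg B0.le _))
  have m1 := hK₁ (2 * a) _ M η 1 _ _ Φ (by linarith) η0 (by linarith) bv bθ ns ts
  have S0 := ns.pos
  have as := hA E volume a (2 * m - a) M θ (η * K₁ * ∫ x, ‖Φ x‖ ^ 2) (η * ∫ x, ‖Φ x‖ ^ 2) _ _ _ a0
    (by linarith) (by linarith) θ2 (fun x => sq_nonneg _) (fun x => sq_nonneg _) (int_up Φ)
    (int_lo Φ) bv (by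
      rw [show 2 * m - a - a = 2 * m - 2 * a by ring]
      simpa only [one_pow, one_mul] using m1) j.2 (by positivity)
  simp only [← sq_split hc.rep] at as
  clear m1 ts hK₁ hK₂ ns hcr hp2 eθ bθ
  set v : E → ℝ := fun x => vc p M (‖Φ x‖ ^ 2) with hv
  have hv' : ∀ x, vc p M (‖Φ x‖ ^ 2) = v x := fun _ => rfl
  simp only [hv'] at *
  have iS := int_sq Φ
  have iN := bv.int iS
  have iQ := bv.int iN
  have iu := int_up (β := β) Φ
  have it := int_lo (β := β) Φ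
  have ivt := bv.int it
  have eN : ∫ x, ‖Φ x‖ ^ 2 * v x = ∫ x, v x * ‖Φ x‖ ^ 2 := by simp only [mul_comm]
  have N0 : 0 ≤ ∫ x, v x * ‖Φ x‖ ^ 2 := integral_nonneg fun x => mul_nonneg (bv.nonneg x) (σ0 x)
  have e1 : ∫ x, (‖Φ x‖ ^ 2 * v x * (v x - (2 * m - z)) + (p - 1)⁻¹ * (M - (2 * m - z)) *
      (‖Φ x‖ ^ 2 * v x - v x ^ p)) = (∫ x, v x * (v x * ‖Φ x‖ ^ 2)) -
        (2 * m - z) * (∫ x, v x * ‖Φ x‖ ^ 2) + (p - 1)⁻¹ * (M - (2 * m - z)) *
          ((∫ x, v x * ‖Φ x‖ ^ 2) - ∫ x, v x ^ p) := by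
    rw [lin_Core 1 (-(2 * m - z)) ((p - 1)⁻¹ * (M - (2 * m - z)))
      (-((p - 1)⁻¹ * (M - (2 * m - z)))) iQ iN iN iP fun x => by ring]
    ring
  have e2 : ∫ x, ‖Φ x‖ ^ 2 * ((a + v x) ^ 2 - 2 * m * (a + v x)) =
      (∫ x, v x * (v x * ‖Φ x‖ ^ 2)) - (2 * m - 2 * a) * (∫ x, v x * ‖Φ x‖ ^ 2) -
        a * (2 * m - a) * ∫ x, ‖Φ x‖ ^ 2 := by
    rw [lin_Core 1 (-(2 * m - 2 * a)) (-(a * (2 * m - a))) 0 iQ iN iS iS fun x => by ring]
    ring
  have iW : Integrable (fun x => (a + v x) * ‖lo β (Φ x)‖ ^ 2) volume :=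
    ((it.const_mul a).fun_add ivt).congr (Eventually.of_forall fun x => by ring)
  have iJ : Integrable (fun x => (a + v x) * ‖lo β (Φ x)‖ ^ 2 -
      (v x - (2 * m - a)) * ‖up β (Φ x)‖ ^ 2) volume :=
    (iW.fun_add (((bv.int iu).const_mul (-1)).fun_add (iu.const_mul (2 * m - a)))).congr
      (Eventually.of_forall fun x => by ring)
  have e3 : ∫ x, (2 * m * ‖up β (Φ x)‖ ^ 2 - (1 - d / p) * ((a + v x) * ‖Φ x‖ ^ 2)) =
      (∫ x, ((a + v x) * ‖lo β (Φ x)‖ ^ 2 - (v x - (2 * m - a)) * ‖up β (Φ x)‖ ^ 2)) -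
        2 * (∫ x, (a + v x) * ‖lo β (Φ x)‖ ^ 2) +
        d / p * (a * (∫ x, ‖Φ x‖ ^ 2) + ∫ x, v x * ‖Φ x‖ ^ 2) := by
    rw [lin_Core 1 (-2) (d / p * a) (d / p) iJ iW iS iN fun x => by
      rw [sq_split hc.rep (Φ x)]; ring]
    ring
  rw [e1] at r1
  rw [e2, e3] at s2
  rw [eN] at as
  refine fin_Core z0 a0 az Γ0 ω0 ω1 ωz η0 K3.le ηK S0 ?_ PN ?_ r1 s2 ?_ ?_ hK₃
  · have c1 := mul_le_mul_of_nonneg_right ηa S0.le
    have c2 := mul_le_mul_of_nonneg_right θ1 N0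
    linarith
  · rw [hΓ]
    gcongr
    linarith
  · have : 0 ≤ a * (2 * m - a) * ∫ x, ‖Φ x‖ ^ 2 := by
      have : 0 ≤ 2 * m - a := by linarith
      positivity
    linarith
  · have c0 : 0 ≤ p / (p - 1) * (2 * m / (p - d)) := by positivity
    have c1 : Γ = p / (p - 1) * (2 * m / (p - d)) * (d / p) := by
      rw [hΓ]
      field_simp
    rw [c1]
    refine (mul_le_mul_of_nonneg_left (c := d / p * (a * (∫ x, ‖Φ x‖ ^ 2) +
      (∫ x, v x * ‖Φ x‖ ^ 2) - ∫ x, v x ^ p) + 2 * η * ∫ x, ‖Φ x‖ ^ 2) ?_ c0).trans (le_of_eq ?_)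
    · linarith [j.2]
    · ring

end Pool.Agent.MP_e4cac8_mp.Cr

end

section
set_option autoImplicit false
set_option linter.unusedSectionVars false

open Set MeasureTheory Filter Topology
open scoped ENNReal NNReal SchwartzMap
open Pool.Agent.MP_0b7119_mp.G

namespace Pool.Agent.MP_e4cac8_mp.Cr

theorem abs_Good (H : ℝ → ℝ → ℝ → Prop) {m A c a₁ θ M₁ : ℝ} (hm : 0 < m) (hA : 0 < A)
    (mono : ∀ a x x' M M', 0 ≤ x' → x' ≤ x → M' ≤ M → H a x M → H a x' M') (hc : 0 < c)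
    (hP : ∀ a ∈ Ioc 0 m, ∀ M, H a c M) (ha₁ : 0 < a₁) (h0 : 0 < θ) (h1 : θ < 1)
    (hC : ∀ a ∈ Ioc 0 a₁, ∀ M, M₁ ≤ M → ∀ A₀ ∈ Ioc 0 A,
      ((∀ A₁, 0 < A₁ → A₁ < A₀ → H a A₁ M) ∧ ∀ A₂, A₀ < A₂ → ¬ H a A₂ M) →
      ¬ H (2 * a) (θ * A₀) M) :
    ∃ a₀ ∈ Ioc 0 m, ∀ a ∈ Ioc 0 a₀, ∀ M, H a A M := by
  by_contra hn
  set G : Set ℝ := {x | 0 < x ∧ ∃ a₀ ∈ Ioc 0 m, ∀ a ∈ Ioc 0 a₀, ∀ M, H a x M} with hG
  have hcG : c ∈ G := ⟨hc, m, ⟨hm, le_rfl⟩, hP⟩
  have hb : BddAbove G := ⟨A, fun x ⟨_, a₀, h2, h3⟩ => le_of_not_gt fun h =>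
    hn ⟨a₀, h2, fun a ha M => mono a x A M M hA.le h.le le_rfl (h3 a ha M)⟩⟩
  have hB : 0 < sSup G := hc.trans_le (le_csSup hb hcG)
  set B := sSup G with hBd
  set t := (1 + θ) / 2 with ht
  have ht0 : 0 < t := by positivity
  have ht1 : t < 1 := by linarith
  have ht2 : θ ≤ t * t := by nlinarith [sq_nonneg (1 - θ)]
  obtain ⟨A', ⟨hA', a₀, ha₀, hw⟩, hlt⟩ :=
    exists_lt_of_lt_csSup ⟨c, hcG⟩ (mul_lt_of_lt_one_left hB ht1)
  have hBt : B < B / t := by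
    rw [lt_div_iff₀ ht0]
    exact mul_lt_of_lt_one_right hB ht1
  have hpos : 0 < min A (B / t) := lt_min hA (hB.trans hBt)
  have hng : ¬ ∃ a₀ ∈ Ioc 0 m, ∀ a ∈ Ioc 0 a₀, ∀ M, H a (min A (B / t)) M := by
    intro h
    rcases min_choice A (B / t) with e | e
    · rw [e] at h
      exact hn h
    · have := le_csSup hb (⟨hpos, h⟩ : min A (B / t) ∈ G)
      rw [e] at this
      exact absurd hBt (not_lt.2 this)
  have hex : ∃ a ∈ Ioc 0 (min (a₀ / 2) a₁), ∃ M, ¬ H a (min A (B / t)) M := by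
    by_contra h
    refine hng ⟨min (a₀ / 2) a₁, ⟨lt_min (half_pos ha₀.1) ha₁,
      (min_le_left _ _).trans ((half_le_self ha₀.1.le).trans ha₀.2)⟩, fun a ha M => ?_⟩
    by_contra h'
    exact h ⟨a, ha, M, h'⟩
  obtain ⟨a, ha, M, hM⟩ := hex
  have ha2 : a ≤ a₀ / 2 := ha.2.trans (min_le_left _ _)
  set X : Set ℝ := {x | 0 < x ∧ H a x (max M M₁)} with hX
  have hAX : A' ∈ X := ⟨hA', hw a ⟨ha.1, ha2.trans (half_le_self ha₀.1.le)⟩ _⟩
  have hub : ∀ x ∈ X, x ≤ min A (B / t) := fun x hx => le_of_not_gt fun h =>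
    hM (mono a x _ _ M hpos.le h.le (le_max_left _ _) hx.2)
  have hbX : BddAbove X := ⟨_, hub⟩
  have h2 : A' ≤ sSup X := le_csSup hbX hAX
  have h3 : sSup X ≤ min A (B / t) := csSup_le ⟨A', hAX⟩ hub
  have h4 : 0 < sSup X := hA'.trans_le h2
  refine hC a ⟨ha.1, ha.2.trans (min_le_right _ _)⟩ (max M M₁) (le_max_right _ _) (sSup X)
    ⟨h4, h3.trans (min_le_left _ _)⟩ ⟨fun A₁ h5 h6 => ?_, fun A₂ h5 h6 => ?_⟩ ?_
  · obtain ⟨x, hx, h7⟩ := exists_lt_of_lt_csSup ⟨A', hAX⟩ h6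
    exact mono a x A₁ _ _ h5.le h7.le le_rfl hx.2
  · exact absurd h5 (not_lt.2 (le_csSup hbX ⟨h4.trans h5, h6⟩))
  · refine mono _ A' _ _ _ (by positivity) ?_ le_rfl
      (hw (2 * a) ⟨by linarith [ha.1], by linarith⟩ _)
    have h5 : sSup X * t ≤ B := (le_div_iff₀ ht0).1 (h3.trans (min_le_right _ _))
    calc θ * sSup X ≤ t * t * sSup X := mul_le_mul_of_nonneg_right ht2 h4.le
      _ = t * (sSup X * t) := by ring
      _ ≤ t * B := mul_le_mul_of_nonneg_left h5 ht0.le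
      _ ≤ A' := hlt.le

variable {E S : Type} [NormedAddCommGroup E] [InnerProductSpace ℝ E] [FiniteDimensional ℝ E]
  [MeasurableSpace E] [BorelSpace E] [NormedAddCommGroup S] [InnerProductSpace ℂ S]
  [CompleteSpace S] [FiniteDimensional ℂ S] {d : ℕ}

variable {e : OrthonormalBasis (Fin d) ℝ E} {α : Fin d → S →L[ℂ] S} {β : S →L[ℂ] S} {m : ℝ}

theorem sGood (hc : Ctx α β m) (hP : SPos e α β m) (hC : SCore e α β m) : SGood e α β m := by
  intro p A hp hA hAc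
  obtain ⟨c, h1, h2⟩ := hP p hp
  obtain ⟨a₁, θ, M₁, h3, h4, h5, h6⟩ := hC p A hp hA hAc
  have hp0 : 0 ≤ p := (Nat.cast_nonneg d).trans hp.le
  exact abs_Good (fun a x M => HP (rk e α β m (a - m)) p x M) hc.pos hA
    (fun a x x' M M' h7 h8 h9 h => hp_mono hp0 h7 h8 h9 h) h1 h2 h3 h4 h5 h6

end Pool.Agent.MP_e4cac8_mp.Cr

end

section
/-! The lower bound for the critical norm. -/

set_option autoImplicit false
set_option linter.unusedSectionVars false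

open Set MeasureTheory Filter Topology
open scoped ENNReal NNReal SchwartzMap
open Pool.Agent.MP_0b7119_mp.G

namespace Pool.Agent.MP_e4cac8_mp.Cr

variable {E S : Type} [NormedAddCommGroup E] [InnerProductSpace ℝ E] [FiniteDimensional ℝ E]
  [MeasurableSpace E] [BorelSpace E] [NormedAddCommGroup S] [InnerProductSpace ℂ S]
  [CompleteSpace S] [FiniteDimensional ℂ S] {d : ℕ} {e : OrthonormalBasis (Fin d) ℝ E}
  {α : Fin d → S →L[ℂ] S} {β : S →L[ℂ] S} {m : ℝ}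

theorem rep_Low {p A : ℝ} (hp : 0 < p) (hA : 0 < A) {V : E → ℝ} (hV : V ∈ Pot E p)
    (hn : eLpNorm V (ENNReal.ofReal p) volume ≤ ENNReal.ofReal A) :
    ∃ V' : E → ℝ, V =ᵐ[volume] V' ∧ PotR p A V' := by
  have he : V =ᵐ[volume] fun x => max (hV.2.1.mk V x) 0 := by
    filter_upwards [hV.2.1.ae_eq_mk] with x hx
    rw [← hx, max_eq_left (hV.1 x)]
  have hl := hV.2.ae_eq he
  have h0 : ∀ x, 0 ≤ max (hV.2.1.mk V x) 0 := fun x => le_max_right _ _
  have hI : 0 ≤ ∫ x, max (hV.2.1.mk V x) 0 ^ p :=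
    integral_nonneg fun x => Real.rpow_nonneg (h0 x) _
  obtain ⟨h1, h2⟩ := eLp_iff hp (Real.rpow_nonneg hI p⁻¹) h0 hl
  refine ⟨_, he, ⟨hV.2.1.stronglyMeasurable_mk.measurable.max measurable_const, h0, h1, ?_⟩⟩
  rw [eLpNorm_congr_ae he, h2.mpr (Real.rpow_inv_rpow hI hp.ne').symm,
    ENNReal.ofReal_le_ofReal_iff hA.le, Real.rpow_inv_le_iff_of_pos hI hA.le hp] at hn
  exact hn

theorem div_Low {p A A' : ℝ} (hA : 0 < A) (hA' : 0 < A') {V : E → ℝ} (hV : PotR p A V) :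
    PotR p A' fun x => V x / (A / A') := by
  have hc : 0 < A / A' := div_pos hA hA'
  have e1 : ∀ x, (V x / (A / A')) ^ p = V x ^ p / (A / A') ^ p := fun x =>
    Real.div_rpow (hV.nonneg x) hc.le p
  refine ⟨hV.meas.div_const _, fun x => div_nonneg (hV.nonneg x) hc.le, ?_, ?_⟩
  · simp only [e1]
    exact hV.int.div_const _
  · simp only [e1]
    rw [integral_div, div_le_iff₀ (Real.rpow_pos_of_pos hc p), ← Real.mul_rpow hA'.le hc.le,
      mul_div_cancel₀ _ hA'.ne']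
    exact hV.le

theorem bs_Low (hc : Ctx α β m) {p A l : ℝ} (hp : (d : ℝ) < p) (hA : 0 < A)
    (hlI : l ∈ Ioo (-m) m) (hP : ∀ M, HP (rk e α β m l) p A M) {V : E → ℝ} (hV : PotR p A V) :
    BS (rk e α β m l) V 1 := by
  have hp0 : 0 < p := (Nat.cast_nonneg d).trans_lt hp
  obtain ⟨C, -, hb⟩ := (all2 e m hc).hb p hp
  refine bs_of_trunc (ks_rk hc.rep e m l) hV.meas hV.nonneg (hb l hlI p le_rfl A V hA.le hV)
    (fun n => {x | V x ≤ n}) (fun n => measurableSet_le hV.meas measurable_const)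
    (fun x => tendsto_natCast_atTop_atTop.eventually (eventually_ge_atTop (V x))) fun n => ?_
  refine hP n _ (hV.of_le hp0.le
    (hV.meas.indicator (measurableSet_le hV.meas measurable_const))
    (fun x => indicator_nonneg (fun y _ => hV.nonneg y) x)
    fun x => indicator_le_self' (fun y _ => hV.nonneg y) x) fun x => ?_
  by_cases hx : x ∈ {x | V x ≤ n}
  · rw [indicator_of_mem hx]
    exact hx
  · rw [indicator_of_notMem hx]
    positivity

theorem sLow (hc : Ctx α β m) : SLow e α β m := by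
  intro p A A' a₀ hp hA hAA ha₀ hP
  have hp0 : 0 < p := (Nat.cast_nonneg d).trans_lt hp
  have hA' : 0 < A' := hA.trans hAA
  refine le_sInf fun a' ha' => ?_
  by_contra hn
  obtain ⟨V, hV, hVn, hl⟩ := ha' a₀ ha₀.1
  obtain ⟨l, hl1, hl2⟩ := exists_lt_of_csInf_lt ⟨m, Or.inr rfl⟩ hl
  have hm := hc.pos
  rcases hl1 with ⟨hlI, hE⟩ | h
  swap
  · rw [mem_singleton_iff] at h
    linarith [ha₀.2]
  obtain ⟨V', he, hV'⟩ := rep_Low hp0 hA hV (hVn.trans (not_le.mp hn).le)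
  obtain ⟨ψ, h1, h2, h3, h4⟩ := isEig_congr he hE
  obtain ⟨C, -, hb⟩ := (all2 e m hc).hb p hp
  have hadm := hb l hlI p le_rfl A V' hA.le hV'
  have hF : Fix (rk e α β m l) V' ψ :=
    ⟨h1, h3, h2, (stK hc l hlI V' _ ψ hV'.meas hV'.nonneg hadm h1 h3).mp h4⟩
  obtain ⟨f1, f2⟩ := hF.form (ks_rk hc.rep e m l) hV'.meas hV'.nonneg hadm
  have hP' := hP (l + m) ⟨by linarith [hlI.1], by linarith⟩
  rw [add_sub_cancel_right] at hP'
  have hBS := bs_mul (div_pos hA hA') (bs_Low hc hp hA' hlI hP' (div_Low hA hA' hV'))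
    (sv V' ψ) (memLp_sv_of_int hV'.meas hV'.nonneg h1.1 h3)
  rw [f1, I2_sv hV'.nonneg] at hBS
  have hlt : A / A' < 1 := (div_lt_one hA').mpr hAA
  nlinarith

end Pool.Agent.MP_e4cac8_mp.Cr

end

section
/-! The two bounds for the critical norm. -/

set_option autoImplicit false
set_option linter.unusedSectionVars false

open Set MeasureTheory Filter Topology
open scoped ENNReal NNReal SchwartzMap
open Pool.Agent.MP_0b7119_mp.G

namespace Pool.Agent.MP_e4cac8_mp.Cr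

variable {E S : Type} [NormedAddCommGroup E] [InnerProductSpace ℝ E] [FiniteDimensional ℝ E]
  [MeasurableSpace E] [BorelSpace E] [NormedAddCommGroup S] [InnerProductSpace ℂ S]
  [CompleteSpace S] [FiniteDimensional ℂ S] {d : ℕ}
  {e : OrthonormalBasis (Fin d) ℝ E} {α : Fin d → S →L[ℂ] S} {β : S →L[ℂ] S} {m : ℝ}

theorem up_Fin (hc : Ctx α β m) (hR : SRad) {p A B : ℝ} (hp : (d : ℝ) < p) (A0 : 0 < A)
    (hA : A ^ p = Ac E p 1 (2 * m)) (hB : A < B) : ¬ ENNReal.ofReal B < alphaStar e α β m p := by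
  intro h
  have hm := hc.pos
  have d2 : (2 : ℝ) ≤ d := by exact_mod_cast hc.two
  have hf := finrank_eq e
  have H := all2 e m hc
  have hG := gap_of_lt (by linarith) (A0.trans hB) h
  obtain ⟨δ, hδ, hg⟩ := id hG
  have h1 : 0 < min δ m := lt_min hδ hm
  have hl : -m + min δ m ∈ Ioo (-m) m := ⟨by linarith, by linarith [min_le_right δ m]⟩
  have hk : ((Module.finrank ℝ E - 1 : ℕ) : ℝ) + 1 = Module.finrank ℝ E := by
    have := hc.two
    rw [hf, Nat.cast_sub (by omega)]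
    simp
  refine hR (Module.finrank ℝ E - 1) p m ((p - d) / (2 * m)) (B / A) _ _ _ B _
    (by rwa [hk, hf]) (div_pos (by linarith) (by linarith)) (by rw [hk, hf]; field_simp)
    ((one_lt_div A0).2 hB) (by linarith) (by linarith) le_rfl ?_
    (H.tr _ _ p B _ (by linarith) (by linarith) (H.p1 _ hl p B _
      (H.p0 p B (-m + δ) (by linarith) (A0.trans hB) hG (fun W hW _ => hg W hW) _ hl
        (by linarith [min_le_left δ m]) _)))
  rw [hk, mul_left_comm, ← Ac, ← hA, ← Real.mul_rpow (div_pos (A0.trans hB) A0).le A0.le,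
    div_mul_cancel₀ _ A0.ne']

theorem final_Fin (hc : Ctx α β m) (hR : SRad) (hN : SNorm E) (hG : SGood e α β m)
    (hL : SLow e α β m) {p : ℝ} (hp : (d : ℝ) < p) : alphaStar e α β m p =
      eLpNorm (fun x : E => p * ((p - d) / (2 * m)) / (((p - d) / (2 * m)) ^ 2 + ‖x‖ ^ 2))
        (ENNReal.ofReal p) volume := by
  have d2 : (2 : ℝ) ≤ d := by exact_mod_cast hc.two
  have hf := finrank_eq e
  obtain ⟨A, A0, hA, h⟩ := hN p m (by rw [hf]; exact hc.two) (by rwa [hf]) hc.pos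
  rw [hf] at h
  rw [h]
  refine le_antisymm (not_lt.1 fun c => ?_) (not_lt.1 fun c => ?_)
  · obtain ⟨B, -, b1, b2⟩ := ENNReal.lt_iff_exists_real_btwn.1 c
    exact up_Fin hc hR hp A0 hA (by
      by_contra q
      exact b1.not_ge (ENNReal.ofReal_le_ofReal (not_lt.1 q))) b2
  · obtain ⟨B, -, b1, b2⟩ := ENNReal.lt_iff_exists_real_btwn.1 c
    have B0 : 0 < B := ENNReal.ofReal_pos.1 (bot_le.trans_lt b1)
    have BA : B < A := (ENNReal.ofReal_lt_ofReal_iff A0).1 b2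
    obtain ⟨a₀, a1, a2⟩ := hG p ((B + A) / 2) hp (by linarith)
      (hA ▸ Real.rpow_lt_rpow (by linarith) (by linarith) (by linarith))
    exact b1.not_ge (hL p B _ a₀ hp B0 (by linarith) a1 a2)

end Pool.Agent.MP_e4cac8_mp.Cr

end

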