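import Pool.Agent.MP_e4cac8_mp.Cr.AllA
import Pool.Agent.MP_e4cac8_mp.Cr.AllB

/-! The critical norm. -/

set_option autoImplicit false

open MeasureTheory
open Pool.Agent.MP_0b7119_mp.G

namespace Pool.Agent.MP_e4cac8_mp.Cr

theorem main {E S : Type} [NormedAddCommGroup E] [InnerProductSpace ℝ E] [FiniteDimensional ℝ E]
    [MeasurableSpace E] [BorelSpace E] [NormedAddCommGroup S] [InnerProductSpace ℂ S]
    [CompleteSpace S] [FiniteDimensional ℂ S] {d : ℕ} {e : OrthonormalBasis (Fin d) ℝ E}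
    {α : Fin d → S →L[ℂ] S} {β : S →L[ℂ] S} {m : ℝ} (hc : Ctx α β m) {p : ℝ} (hp : (d : ℝ) < p) :
    alphaStar e α β m p =
      eLpNorm (fun x : E => p * ((p - d) / (2 * m)) / (((p - d) / (2 * m)) ^ 2 + ‖x‖ ^ 2))
        (ENNReal.ofReal p) volume := by
  have hB := sBt (e := e) hc
  have hJ := sJ (e := e) hc
  have hM := sMc (e := e) hc
  have hL := sLi (e := e) hc
  have hK := sKey hc hB sDil (sNear hc) hJ hM sKey0
  have hC := sCore hc hB sDil (sNs hc hK sEl) hJ hM sAs0 (sSos hc hJ hL (sPtS hc) sPtR) hL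
    (sScr (sSc1 sI1 sOs sTr sPt1) sFf)
  exact final_Fin hc (sRad sRn) (sNorm sI1 sRn) (sGood hc (sPos hc) hC) (sLow hc) hp

end Pool.Agent.MP_e4cac8_mp.Cr
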