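import Pool.Agent.Mg.Fe4cac8.G4fa3ae

/-! The critical norm of the Dirac Keller problem: definitions and the statements of the steps. -/

set_option autoImplicit false
set_option linter.unusedSectionVars false

open Set MeasureTheory Filter Topology
open scoped ENNReal NNReal SchwartzMap
open Pool.Agent.MP_0b7119_mp.G

namespace Pool.Agent.MP_e4cac8_mp.Cr

/-- The capped Euler-Lagrange potential. -/
noncomputable def vc (p M s : ℝ) : ℝ := min M (s ^ (p - 1)⁻¹)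

/-- The radial integral of the optimal profile. -/
noncomputable def I1 (k : ℕ) (p : ℝ) : ℝ := ∫ y in Ioi (0 : ℝ), (1 + y ^ 2) ^ (-p) * y ^ k

/-- The sharp constant. -/
noncomputable def Cp (D p κ b : ℝ) : ℝ := p ^ p * κ ^ (D / 2) * (b / (p - D)) ^ (p - D)

/-- Measurable functions with values in `[0, M]`. -/
structure Bm {X : Type} [MeasurableSpace X] (M : ℝ) (V : X → ℝ) : Prop where
  meas : Measurable V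
  nonneg : ∀ x, 0 ≤ V x
  le : ∀ x, V x ≤ M

theorem vc_nonneg {p M s : ℝ} (hM : 0 ≤ M) (hs : 0 ≤ s) : 0 ≤ vc p M s :=
  le_min hM (Real.rpow_nonneg hs _)

theorem vc_le (p M s : ℝ) : vc p M s ≤ M := min_le_left _ _

theorem vc_pow_le {p M s : ℝ} (hp : 1 < p) (hM : 0 ≤ M) (hs : 0 ≤ s) : vc p M s ^ (p - 1) ≤ s :=
  (Real.rpow_le_rpow (vc_nonneg hM hs) (min_le_right _ _) (by linarith)).trans
    (Real.rpow_inv_rpow hs (by linarith)).le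

theorem vc_pow_eq {p M s : ℝ} (hp : 1 < p) (hs : 0 ≤ s) (h : vc p M s < M) :
    vc p M s ^ (p - 1) = s := by
  have : vc p M s = s ^ (p - 1)⁻¹ := min_eq_right (not_lt.1 fun c => h.ne (min_eq_left c.le))
  rw [this, Real.rpow_inv_rpow hs (by linarith)]

theorem vc_rpow_le {p M s : ℝ} (hp : 1 < p) (hM : 0 ≤ M) (hs : 0 ≤ s) :
    vc p M s ^ p ≤ s * vc p M s := by
  have h := Real.rpow_add' (vc_nonneg (p := p) hM hs) (y := p - 1) (z := 1) (by linarith)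
  rw [sub_add_cancel, Real.rpow_one] at h
  rw [h]
  exact mul_le_mul_of_nonneg_right (vc_pow_le hp hM hs) (vc_nonneg hM hs)

theorem vc_cont {p : ℝ} (hp : 1 < p) (M : ℝ) : Continuous (vc p M) :=
  continuous_const.min (Real.continuous_rpow_const (inv_nonneg.2 (by linarith)))

theorem vc_zero {p M : ℝ} (hp : 1 < p) (hM : 0 ≤ M) : vc p M 0 = 0 := by
  rw [vc, Real.zero_rpow (inv_ne_zero (by linarith)), min_eq_right hM]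

theorem Bm.int {X : Type} [MeasurableSpace X] {μ : Measure X} {M : ℝ} {V f : X → ℝ} (h : Bm M V)
    (hf : Integrable f μ) : Integrable (fun x => V x * f x) μ :=
  hf.bdd_mul (c := M) h.meas.aestronglyMeasurable (Eventually.of_forall fun x => by
    rw [Real.norm_of_nonneg (h.nonneg x)]; exact h.le x)

theorem bm_vc {X : Type} [MeasurableSpace X] {p M : ℝ} {σ : X → ℝ} (hp : 1 < p) (hM : 0 ≤ M)
    (h : Measurable σ) (h0 : ∀ x, 0 ≤ σ x) : Bm M fun x => vc p M (σ x) :=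
  ⟨(vc_cont hp M).measurable.comp h, fun x => vc_nonneg hM (h0 x), fun _ => vc_le _ _ _⟩

theorem int_vc {X : Type} [MeasurableSpace X] {μ : Measure X} {p M : ℝ} {σ : X → ℝ} (hp : 1 < p)
    (hM : 0 ≤ M) (h : Measurable σ) (h0 : ∀ x, 0 ≤ σ x) (hi : Integrable σ μ) :
    Integrable (fun x => vc p M (σ x) ^ p) μ :=
  ((bm_vc hp hM h h0).int hi).mono' ((bm_vc hp hM h h0).meas.pow_const p).aestronglyMeasurable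
    (Eventually.of_forall fun x => by
      rw [Real.norm_of_nonneg (Real.rpow_nonneg (vc_nonneg hM (h0 x)) _), mul_comm]
      exact vc_rpow_le hp hM (h0 x))

/-! ### Statements about real numbers and functions of one variable -/

def SI1 : Prop := ∀ (k : ℕ) (p : ℝ), (k + 1 : ℝ) < p →
  IntegrableOn (fun y : ℝ => (1 + y ^ 2) ^ (-p) * y ^ k) (Ioi 0) volume ∧ 0 < I1 k p

def SOs : Prop := ∀ (Ξ g : ℝ → ℝ) (L₀ L₁ : ℝ),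
  (∀ a b : ℝ, 0 < a → a < b → ∃ K, LipschitzOnWith K Ξ (Icc a b)) → IntegrableOn g (Ioi 0) volume →
  (∀ᵐ r, 0 < r → deriv Ξ r ≤ g r) → Tendsto Ξ (𝓝[>] 0) (𝓝 L₀) → Tendsto Ξ atTop (𝓝 L₁) →
  L₁ - L₀ ≤ ∫ r in Ioi (0 : ℝ), g r

def STr : Prop := ∀ (k : ℕ) (q Y : ℝ) (w : ℝ → ℝ), 0 < Y → Continuous w → (∀ r, 0 ≤ w r) →
  (∃ r₀, 0 < r₀ ∧ ∀ r ∈ Ioc 0 r₀, 0 < w r) → IntegrableOn (fun r => w r * r ^ k) (Ioi 0) volume →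
  ∃ (Λ : ℝ) (ψ ψ' : ℝ → ℝ), 0 < Λ ∧ (∀ r, 0 < r → 0 < ψ r ∧ ψ r ≤ Y ∧ HasDerivAt ψ (ψ' r) r ∧
      w r * r ^ k = Λ * ((1 + ψ r ^ 2) ^ (-q) * ψ r ^ k * ψ' r)) ∧
    ContinuousOn ψ' (Ioi 0) ∧ Tendsto ψ (𝓝[>] 0) (𝓝 0) ∧ Tendsto ψ atTop (𝓝 Y)

def SPt1 : Prop := ∀ (k : ℕ) (p κ b C lam r ψ ψ' F F' v h : ℝ), (k + 1 : ℝ) < p → 0 < κ → 0 < b →
  0 < C → C ^ p = Cp (k + 1) p κ b → 0 < lam → 0 < r → 0 < ψ → 0 ≤ F → 0 ≤ v → 0 ≤ h →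
  κ * F' ^ 2 ≤ v * h → (F ^ 2) ^ (p / (p - 1)) * r ^ k =
    lam ^ (p / (p - 1)) * ((1 + ψ ^ 2) ^ (-(p * (p / (p - 1)))) * ψ ^ k * ψ') →
  -(√κ * (2 * F * F' * (ψ * r ^ k) + F ^ 2 * (ψ' * r ^ k + ψ * (k * r ^ (k - 1))))) +
      lam * C / p * ((1 + ψ ^ 2) ^ (-p) * ψ ^ k * ψ') ≤
    h * r ^ k - (v - b) * F ^ 2 * r ^ k + lam / p * C ^ (1 - p) * (v ^ p * r ^ k)

def SSc1 : Prop := ∀ (k : ℕ) (p κ b M : ℝ) (F v h : ℝ → ℝ), (k + 1 : ℝ) < p → 0 < κ → 0 < b →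
  Antitone F → (∃ L, LipschitzWith L F) → (∀ r, 0 ≤ F r) → Bm M v → (∀ r, 0 ≤ h r) →
  (∀ᵐ r, 0 < r → κ * deriv F r ^ 2 ≤ v r * h r) →
  IntegrableOn (fun r => h r * r ^ k) (Ioi 0) volume →
  IntegrableOn (fun r => F r ^ 2 * r ^ k) (Ioi 0) volume →
  IntegrableOn (fun r => v r ^ p * r ^ k) (Ioi 0) volume →
  ∫ r in Ioi (0 : ℝ), v r ^ p * r ^ k < Cp (k + 1) p κ b * I1 k p →
  ∫ r in Ioi (0 : ℝ), (v r - b) * F r ^ 2 * r ^ k ≤ ∫ r in Ioi (0 : ℝ), h r * r ^ k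

def SFf : Prop := ∀ p M : ℝ, 1 < p → 0 < M → ∃ f : ℝ → ℝ,
  (∀ t, HasDerivAt f (p / (p - 1) * √(vc p M (t ^ 2))) t) ∧ f 0 = 0 ∧ ∀ t b, 0 ≤ t → b ≤ M →
    t ^ 2 * vc p M (t ^ 2) * (vc p M (t ^ 2) - b) +
        (p - 1)⁻¹ * (M - b) * (t ^ 2 * vc p M (t ^ 2) - vc p M (t ^ 2) ^ p) ≤
      (vc p M (t ^ 2) - b) * f t ^ 2

def SRad : Prop := ∀ (k : ℕ) (p m μ τ a b c A M : ℝ), (k + 1 : ℝ) < p → 0 < μ →
  2 * m * μ = p - (k + 1) → 1 < τ → 0 < a → b ≤ 2 * m → τ * p / μ ≤ M →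
  c * (τ ^ p * (Cp (k + 1) p 1 (2 * m) * I1 k p)) ≤ A ^ p → ¬ TR k c a b p A M

def SRn : Prop := ∀ (k : ℕ) (p m μ : ℝ), (k + 1 : ℝ) < p → 0 < μ → 2 * m * μ = p - (k + 1) →
  IntegrableOn (fun r : ℝ => (p * μ / (μ ^ 2 + r ^ 2)) ^ p * r ^ k) (Ioi 0) volume ∧
    ∫ r in Ioi (0 : ℝ), (p * μ / (μ ^ 2 + r ^ 2)) ^ p * r ^ k = Cp (k + 1) p 1 (2 * m) * I1 k p

def SPtR : Prop := ∀ D p b δ W x t y ε ξ G Y R k : ℝ, 2 ≤ D → D < p → 0 < b → 0 < δ → 0 ≤ x →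
  0 ≤ t → 0 < x + t → 0 ≤ y → 0 ≤ ξ → k ^ 2 * (x + t) ≤ x * t → R ≤ y * (b * k + ε) →
  Y - 2 * (p / (p - 1)) * R + (p / (p - 1)) ^ 2 * y ^ 2 +
    D * (2 * (p / (p - 1)) - (p / (p - 1)) ^ 2) * y ^ 2 ≤ D * G →
  Y ≤ W ^ 2 * t + (W - b) ^ 2 * x + ξ →
  (1 - δ) * (p / (p - 1)) ^ 2 * y ^ 2 ≤ p / (p - 1) * (G - Y) + (x + t) * (W ^ 2 - b * W) +
    p / (p - 1) * b * (W * t - (W - b) * x) +
    p / (p - 1) * (b / (p - D)) * (b * x - (1 - D / p) * (W * (x + t))) +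
    p / (p - 1) * ξ + (p / (p - 1)) ^ 2 / δ * ε ^ 2

def SKey0 : Prop := ∀ (X : Type) [MeasurableSpace X] (μ : Measure X) (a b M θ τ e₁ e₂ : ℝ)
  (u t V v : X → ℝ), 0 < a → 0 < θ → θ ≤ 1 → 1 ≤ τ → (∀ x, 0 ≤ u x) → (∀ x, 0 ≤ t x) →
  Integrable u μ → Integrable t μ → Bm M V → Bm M v →
  0 ≤ τ ^ 2 * (∫ x, (a + V x) ^ 2 * t x / (a + (V x + θ * (v x - V x))) ∂μ) -
    (∫ x, (V x + θ * (v x - V x) - b) * u x ∂μ) + e₁ →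
  ∫ x, ((a + V x) * t x - (V x - b) * u x) ∂μ ≤ e₂ →
  θ * ∫ x, (u x + t x) * (v x - V x) ∂μ ≤ (τ ^ 2 - 1) * (∫ x, (a + V x) * t x ∂μ) +
    ((τ ^ 2 - 1) * θ * M + τ ^ 2 * θ ^ 2 * M ^ 2 / a) * (∫ x, (u x + t x) ∂μ) + e₁ + e₂

def SAs0 : Prop := ∀ (X : Type) [MeasurableSpace X] (μ : Measure X) (a b M θ e₁ e₂ : ℝ)
  (u t V : X → ℝ), 0 < a → 0 ≤ b → 1 / 2 ≤ θ → θ ≤ 1 → (∀ x, 0 ≤ u x) → (∀ x, 0 ≤ t x) →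
  Integrable u μ → Integrable t μ → Bm M V →
  0 ≤ (∫ x, (a + V x) ^ 2 * t x / (2 * a + θ * V x) ∂μ) -
    (∫ x, (θ * V x - (b - a)) * u x ∂μ) + e₁ →
  ∫ x, ((a + V x) * t x - (V x - b) * u x) ∂μ ≤ e₂ → 0 ≤ e₂ →
  a / 2 * ∫ x, (u x + t x) ∂μ ≤ 3 * (1 - θ) * (∫ x, (u x + t x) * V x ∂μ) + e₁ + 2 * e₂

def SEl : Prop := ∀ (X : Type) [MeasurableSpace X] (μ : Measure X) (p M B ρ Λ : ℝ) (σ V : X → ℝ),
  2 ≤ p → 0 < M → 0 < B → 0 < ρ → ρ ≤ 1 → 0 ≤ Λ → Measurable σ → (∀ x, 0 ≤ σ x) → Integrable σ μ →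
  0 < ∫ x, σ x ∂μ → Bm M V → Integrable (fun x => V x ^ p) μ →
  ∫ x, V x ^ p ∂μ ≤ (1 + ρ ^ 2) * B →
  (∀ v : X → ℝ, Bm M v → Integrable (fun x => v x ^ p) μ → ∫ x, v x ^ p ∂μ ≤ (1 + ρ) * B →
    ∫ x, σ x * (v x - V x) ∂μ ≤ ρ * Λ + ρ ^ 2 * ∫ x, σ x ∂μ) →
  ∃ c : ℝ, 0 < c ∧ ∫ x, vc p M (c * σ x) ^ p ∂μ ≤ (1 + ρ) * B ∧
    ∫ x, σ x * (V x - vc p M (c * σ x)) ^ 2 ∂μ ≤ 3 * M * (ρ * Λ + 2 * ρ ^ 2 * ∫ x, σ x ∂μ) ∧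
    ∫ x, vc p M (c * σ x) ^ p ∂μ ≤ c * (p * Λ + ρ * (p + 2 * M) * ∫ x, σ x ∂μ)

/-! ### Statements about scalar functions on a Euclidean space -/

section scalar

variable (E : Type) [NormedAddCommGroup E] [InnerProductSpace ℝ E] [FiniteDimensional ℝ E]
  [MeasurableSpace E] [BorelSpace E]

/-- The critical value of the integral of `V ^ p`. -/
noncomputable def Ac (p κ b : ℝ) : ℝ := Module.finrank ℝ E * om E *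
  (Cp (Module.finrank ℝ E) p κ b * I1 (Module.finrank ℝ E - 1) p)

def SScr : Prop := ∀ (p κ b M : ℝ) (L : ℝ≥0) (ρ : E → ℝ), 2 ≤ Module.finrank ℝ E →
  (Module.finrank ℝ E : ℝ) < p → 0 < κ → 0 < b → b ≤ M → Lev L ρ →
  Integrable (fun x => ρ x ^ 2) volume →
  IntegrableOn (fun x => ‖fderiv ℝ ρ x‖ ^ 2) {x | 0 < ρ x} volume →
  ∫ x, vc p M (ρ x ^ 2) ^ p < Ac E p κ b →
  ∫ x, (ρ x ^ 2 * vc p M (ρ x ^ 2) * (vc p M (ρ x ^ 2) - b) + (p - 1)⁻¹ * (M - b) *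
      (ρ x ^ 2 * vc p M (ρ x ^ 2) - vc p M (ρ x ^ 2) ^ p)) ≤
    κ * (p / (p - 1)) ^ 2 * ∫ x in {x | 0 < ρ x}, ‖fderiv ℝ ρ x‖ ^ 2

def SNorm : Prop := ∀ p m : ℝ, 2 ≤ Module.finrank ℝ E → (Module.finrank ℝ E : ℝ) < p → 0 < m →
  ∃ A : ℝ, 0 < A ∧ A ^ p = Ac E p 1 (2 * m) ∧
    eLpNorm (fun x : E => p * ((p - Module.finrank ℝ E) / (2 * m)) /
      (((p - Module.finrank ℝ E) / (2 * m)) ^ 2 + ‖x‖ ^ 2)) (ENNReal.ofReal p) volume =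
      ENNReal.ofReal A

end scalar

/-! ### Statements about spinors -/

section spinor

variable {E S : Type} [NormedAddCommGroup E] [InnerProductSpace ℝ E] [FiniteDimensional ℝ E]
  [MeasurableSpace E] [BorelSpace E] [NormedAddCommGroup S] [InnerProductSpace ℂ S]
  [CompleteSpace S] [FiniteDimensional ℂ S] {d : ℕ}

/-- The upper component. -/
noncomputable def up (β : S →L[ℂ] S) (z : S) : S := (2⁻¹ : ℂ) • (z + β z)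

/-- The lower component. -/
noncomputable def lo (β : S →L[ℂ] S) (z : S) : S := (2⁻¹ : ℂ) • (z - β z)

variable (e : OrthonormalBasis (Fin d) ℝ E) (α : Fin d → S →L[ℂ] S) (β : S →L[ℂ] S) (m : ℝ)

/-- The massless operator. -/
noncomputable def D0 (Φ : 𝓢(E, S)) : 𝓢(E, S) := JK.Dop e α β 0 0 Φ

/-- The defect in the eigenvalue equation with eigenvalue `a - m`. -/
noncomputable def Ev (a : ℝ) (V : E → ℝ) (Φ : 𝓢(E, S)) (x : E) : S :=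
  D0 e α β Φ x - ((a + V x : ℝ) : ℂ) • Φ x + ((2 * m : ℝ) : ℂ) • up β (Φ x)

/-- Approximate solutions. -/
structure Ns (a η : ℝ) (V : E → ℝ) (Φ : 𝓢(E, S)) : Prop where
  pos : 0 < ∫ x, ‖Φ x‖ ^ 2
  err : ∫ x, ‖Ev e α β m a V Φ x‖ ^ 2 ≤ η ^ 2 * ∫ x, ‖Φ x‖ ^ 2

/-- The form on upper spinors, with a dilation parameter. -/
def TS (τ a b : ℝ) (V : E → ℝ) : Prop := ∀ u : 𝓢(E, S), (∀ x, β (u x) = u x) →
  0 ≤ ∫ x, (τ ^ 2 * (‖D0 e α β u x‖ ^ 2 / (a + V x)) - (V x - b) * ‖u x‖ ^ 2)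

/-- The form is nonnegative for all dilated potentials. -/
def HT (a b p A M : ℝ) : Prop := ∀ (τ : ℝ) (V : E → ℝ), 1 ≤ τ → Bm M V →
  Integrable (fun x => V x ^ p) volume → ∫ x, V x ^ p ≤ τ ^ d * A ^ p → TS e α β τ a b V

/-- `A` is the critical norm for potentials of height at most `M`. -/
def Crit (r : E → S →L[ℂ] S) (p A M : ℝ) : Prop :=
  (∀ A₁, 0 < A₁ → A₁ < A → HP r p A₁ M) ∧ ∀ A₂, A < A₂ → ¬ HP r p A₂ M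

def SPos : Prop := ∀ p : ℝ, (d : ℝ) < p → ∃ c : ℝ, 0 < c ∧
  ∀ a ∈ Ioc 0 m, ∀ M, HP (rk e α β m (a - m)) p c M

def SBt : Prop := ∀ a ∈ Ioo 0 (2 * m), ∀ (M : ℝ) (V : E → ℝ), Bm M V →
  BS (rk e α β m (a - m)) V 1 → TS e α β 1 a (2 * m - a) V

def SDil : Prop := ∀ a b p A M : ℝ,
  (∀ V : E → ℝ, PotR p A V → (∀ x, V x ≤ M) → TS e α β 1 a b V) → HT e α β a b p A M

def SNear : Prop := ∀ a ∈ Ioo 0 (2 * m), ∀ M η : ℝ, 0 < M → 0 < η → ∃ ε : ℝ, 0 < ε ∧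
  ∀ V : E → ℝ, Bm M V → ¬ BS (rk e α β m (a - m)) V 1 → BS (rk e α β m (a - m)) V (1 + ε) →
    ∃ Φ, Ns e α β m a η V Φ

def SJ : Prop := ∀ (a M η : ℝ) (V : E → ℝ) (Φ : 𝓢(E, S)), 0 < η → Bm M V → Ns e α β m a η V Φ →
  |∫ x, ((a + V x) * ‖lo β (Φ x)‖ ^ 2 - (V x - (2 * m - a)) * ‖up β (Φ x)‖ ^ 2)| ≤
    η * ∫ x, ‖Φ x‖ ^ 2

def SMc : Prop := ∀ a M : ℝ, 0 < a → ∃ K : ℝ, 0 ≤ K ∧ ∀ (a' b' M' η τ : ℝ) (V V' : E → ℝ)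
  (Φ : 𝓢(E, S)), a ≤ a' → 0 < η → η ≤ 1 → Bm M V → Bm M' V' → Ns e α β m a η V Φ →
  TS e α β τ a' b' V' →
  0 ≤ τ ^ 2 * (∫ x, (a + V x) ^ 2 * ‖lo β (Φ x)‖ ^ 2 / (a' + V' x)) -
    (∫ x, (V' x - b') * ‖up β (Φ x)‖ ^ 2) + τ ^ 2 * η * K * ∫ x, ‖Φ x‖ ^ 2

def SLi : Prop := ∀ Φ : 𝓢(E, S), Reg e Φ ∧ ∫ x, ‖D0 e α β Φ x‖ ^ 2 = ∫ x, G2 e Φ x

def SPtS : Prop := ∀ (a s η : ℝ) (V : E → ℝ) (Φ : 𝓢(E, S)) (x : E), 0 < η → 0 ≤ a + V x →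
  ‖D0 e α β Φ x‖ ^ 2 ≤ (a + V x) ^ 2 * ‖lo β (Φ x)‖ ^ 2 +
      (a + V x - 2 * m) ^ 2 * ‖up β (Φ x)‖ ^ 2 + (η * (a + V x + 2 * m) ^ 2 * ‖Φ x‖ ^ 2 +
        (1 + 1 / η) * ‖Ev e α β m a V Φ x‖ ^ 2) ∧
    (Φ x ≠ 0 → ∃ R k : ℝ, k ^ 2 * ‖Φ x‖ ^ 2 ≤ ‖up β (Φ x)‖ ^ 2 * ‖lo β (Φ x)‖ ^ 2 ∧
      R ≤ gf Φ x * (2 * m * k + ‖Ev e α β m a V Φ x‖) ∧
      ‖D0 e α β Φ x‖ ^ 2 - 2 * s * R + s ^ 2 * gf Φ x ^ 2 + d * (2 * s - s ^ 2) * gf Φ x ^ 2 ≤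
        d * G2 e Φ x)

def SSos : Prop := ∀ p a M δ : ℝ, (d : ℝ) < p → 0 < a → 0 < δ → ∃ K : ℝ, 0 ≤ K ∧
  ∀ (η : ℝ) (V : E → ℝ) (Φ : 𝓢(E, S)), 0 < η → η ≤ 1 → Bm M V → Ns e α β m a η V Φ →
  IntegrableOn (fun x => gf Φ x ^ 2) {x | 0 < ‖Φ x‖} volume ∧
  (1 - δ) * (p / (p - 1)) ^ 2 * ∫ x in {x | 0 < ‖Φ x‖}, gf Φ x ^ 2 ≤
    (∫ x, ‖Φ x‖ ^ 2 * ((a + V x) ^ 2 - 2 * m * (a + V x))) + p / (p - 1) * (2 * m / (p - d)) *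
      (∫ x, (2 * m * ‖up β (Φ x)‖ ^ 2 - (1 - d / p) * ((a + V x) * ‖Φ x‖ ^ 2))) +
      η * K * ∫ x, ‖Φ x‖ ^ 2

def SKey : Prop := ∀ p a M A ρ ξ : ℝ, (d : ℝ) < p → a ∈ Ioo 0 (2 * m) → 0 < M → 0 < A →
  Crit (rk e α β m (a - m)) p A M → 0 < ρ → ρ ≤ 1 → 0 < ξ →
  ∃ (V : E → ℝ) (Φ : 𝓢(E, S)), Bm M V ∧ Integrable (fun x => V x ^ p) volume ∧
    ∫ x, V x ^ p ≤ (1 + ξ) * A ^ p ∧ Ns e α β m a ξ V Φ ∧
    ∀ v : E → ℝ, Bm M v → Integrable (fun x => v x ^ p) volume → ∫ x, v x ^ p ≤ (1 + ρ) * A ^ p →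
      ∫ x, ‖Φ x‖ ^ 2 * (v x - V x) ≤
        ρ * (2 / d * ∫ x, (a + V x) * ‖lo β (Φ x)‖ ^ 2) + ξ * ∫ x, ‖Φ x‖ ^ 2

def SNs : Prop := ∀ p a M A η : ℝ, (d : ℝ) < p → a ∈ Ioo 0 (2 * m) → 0 < M → 0 < A →
  Crit (rk e α β m (a - m)) p A M → 0 < η →
  ∃ Φ : 𝓢(E, S), Ns e α β m a η (fun x => vc p M (‖Φ x‖ ^ 2)) Φ ∧
    ∫ x, vc p M (‖Φ x‖ ^ 2) ^ p ≤ (1 + η) * A ^ p ∧
    d / p * ∫ x, vc p M (‖Φ x‖ ^ 2) ^ p ≤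
      2 * (∫ x, (a + vc p M (‖Φ x‖ ^ 2)) * ‖lo β (Φ x)‖ ^ 2) + η * ∫ x, ‖Φ x‖ ^ 2

def SCore : Prop := ∀ p A : ℝ, (d : ℝ) < p → 0 < A → A ^ p < Ac E p 1 (2 * m) →
  ∃ a₁ θ M₁ : ℝ, 0 < a₁ ∧ 0 < θ ∧ θ < 1 ∧ ∀ a ∈ Ioc 0 a₁, ∀ M, M₁ ≤ M → ∀ A₀ ∈ Ioc 0 A,
    Crit (rk e α β m (a - m)) p A₀ M → ¬ HP (rk e α β m (2 * a - m)) p (θ * A₀) M

def SGood : Prop := ∀ p A : ℝ, (d : ℝ) < p → 0 < A → A ^ p < Ac E p 1 (2 * m) →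
  ∃ a₀ ∈ Ioc 0 m, ∀ a ∈ Ioc 0 a₀, ∀ M, HP (rk e α β m (a - m)) p A M

def SLow : Prop := ∀ p A A' a₀ : ℝ, (d : ℝ) < p → 0 < A → A < A' → a₀ ∈ Ioc 0 m →
  (∀ a ∈ Ioc 0 a₀, ∀ M, HP (rk e α β m (a - m)) p A' M) → ENNReal.ofReal A ≤ alphaStar e α β m p

variable {e α β m}

theorem up_add_lo (z : S) : up β z + lo β z = z := by
  unfold up lo
  module

theorem β_up (h : IsDiracRep α β) (z : S) : β (up β z) = up β z := by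
  rw [up, map_smul, map_add, β_β h, add_comm]

theorem β_lo (h : IsDiracRep α β) (z : S) : β (lo β z) = -lo β z := by
  rw [lo, map_smul, map_sub, β_β h]
  module

theorem sq_split (h : IsDiracRep α β) (z : S) : ‖z‖ ^ 2 = ‖up β z‖ ^ 2 + ‖lo β z‖ ^ 2 := by
  have o := F1.orth h (β_up h z) (β_lo h z)
  conv_lhs => rw [← up_add_lo (β := β) z]
  simp only [F1.R_self, F1.R_add_left, F1.R_add_right, F1.R_symm (lo β z) (up β z), o]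
  ring

theorem memLp_up (Φ : 𝓢(E, S)) : MemLp (fun x => up β (Φ x)) 2 volume :=
  ((Φ.memLp 2).add (F1.memLp_clm β (Φ.memLp 2))).const_smul (2⁻¹ : ℂ)

theorem memLp_lo (Φ : 𝓢(E, S)) : MemLp (fun x => lo β (Φ x)) 2 volume :=
  ((Φ.memLp 2).sub (F1.memLp_clm β (Φ.memLp 2))).const_smul (2⁻¹ : ℂ)

theorem int_up (Φ : 𝓢(E, S)) : Integrable (fun x => ‖up β (Φ x)‖ ^ 2) volume :=
  JD.int_sq (memLp_up Φ)

theorem int_lo (Φ : 𝓢(E, S)) : Integrable (fun x => ‖lo β (Φ x)‖ ^ 2) volume :=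
  JD.int_sq (memLp_lo Φ)

theorem int_sq (Φ : 𝓢(E, S)) : Integrable (fun x => ‖Φ x‖ ^ 2) volume := JD.int_sq (Φ.memLp 2)

theorem memLp_mul {M : ℝ} {V : E → ℝ} (hV : Bm M V) (a : ℝ) {g : E → S} (hg : MemLp g 2 volume) :
    MemLp (fun x => ((a + V x : ℝ) : ℂ) • g x) 2 volume :=
  MemLp.of_le_mul (c := |a| + M) hg ((Complex.measurable_ofReal.comp
    (hV.meas.const_add a)).aestronglyMeasurable.smul hg.1) (Eventually.of_forall fun x => by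
      rw [norm_smul, Complex.norm_real, Real.norm_eq_abs]
      refine mul_le_mul_of_nonneg_right ((abs_add_le _ _).trans ?_) (norm_nonneg _)
      rw [abs_of_nonneg (hV.nonneg x)]
      linarith [hV.le x])

theorem memLp_Ev {M : ℝ} {V : E → ℝ} (hV : Bm M V) (a : ℝ) (Φ : 𝓢(E, S)) :
    MemLp (Ev e α β m a V Φ) 2 volume :=
  (((D0 e α β Φ).memLp 2).sub (memLp_mul hV a (Φ.memLp 2))).add ((memLp_up Φ).const_smul _)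

theorem D0_eq (Φ : 𝓢(E, S)) (x : E) : D0 e α β Φ x = (-Complex.I) • Zf e α Φ x := by
  simp [D0, JK.Dop_apply, dirac, Zf, Finset.smul_sum]

theorem Ev_eq (a : ℝ) (V : E → ℝ) (Φ : 𝓢(E, S)) (x : E) : Ev e α β m a V Φ x =
    JK.Dop e α β m (-((a - m : ℝ) : ℂ)) Φ x - (V x : ℂ) • Φ x := by
  simp only [Ev, D0, JK.Dop_apply, dirac, up]
  push_cast
  module

theorem mem_gap {a : ℝ} (ha : a ∈ Ioo 0 (2 * m)) : a - m ∈ Ioo (-m) m :=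
  ⟨by linarith [ha.1], by linarith [ha.2]⟩

theorem hp_mono {r : E → S →L[ℂ] S} {p A A' M M' : ℝ} (hp : 0 ≤ p) (h0 : 0 ≤ A') (hA : A' ≤ A)
    (hM : M' ≤ M) (h : HP r p A M) : HP r p A' M' := fun W hW hb =>
  h W ⟨hW.meas, hW.nonneg, hW.int, hW.le.trans (Real.rpow_le_rpow h0 hA hp)⟩
    fun x => (hb x).trans hM

theorem bs_mul {r : E → S →L[ℂ] S} {V : E → ℝ} {c : ℝ} (hc : 0 < c)
    (h : BS r (fun x => V x / c) 1) : BS r V c := fun g hg => by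
  have h2 := h (fun x => ((√c : ℝ) : ℂ) • g x) (hg.const_smul _)
  have hs : 0 < √c := Real.sqrt_pos.mpr hc
  have e3 : sv (fun x => V x / c) (fun x => ((√c : ℝ) : ℂ) • g x) = sv V g := by
    ext x
    rw [sv, sv, smul_smul, ← Complex.ofReal_mul, Real.sqrt_div' _ hc.le, div_mul_cancel₀ _ hs.ne']
  rwa [e3, JD.I2_smul, Real.sq_sqrt hc.le, one_mul] at h2

theorem ht_of_hp (hB : SBt e α β m) (hD : SDil e α β) {a p A M : ℝ} (ha : a ∈ Ioo 0 (2 * m))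
    (h : HP (rk e α β m (a - m)) p A M) : HT e α β a (2 * m - a) p A M :=
  hD _ _ _ _ _ fun V hV hM => hB a ha M V ⟨hV.meas, hV.nonneg, hM⟩ (h V hV hM)

end spinor

end Pool.Agent.MP_e4cac8_mp.Cr
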